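import Pool.Agent.TH949.UL.PL
import Pool.Agent.H24R2.JP.Mom
import Pool.Agent.H437R2.A1

/-! The completed zeta function as a denominator. -/

set_option autoImplicit false

namespace Pool.Agent.TH949.UL

open Complex MeasureTheory Filter Topology

/-- `s (s - 1)` times the completed zeta function -/
noncomputable def DQ (s : ℂ) : ℂ := s * (s - 1) * completedRiemannZeta₀ s + 1

theorem DQ_eq {s : ℂ} (h0 : s ≠ 0) (h1 : s ≠ 1) : DQ s = s * (s - 1) * completedRiemannZeta s := by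
  have h2 : s - 1 ≠ 0 := sub_ne_zero.2 h1
  have h3 : 1 - s ≠ 0 := sub_ne_zero.2 (Ne.symm h1)
  rw [DQ, completedRiemannZeta_eq]
  field_simp
  ring

theorem completed_eq {s : ℂ} (h : 0 < s.re) : completedRiemannZeta s = Gammaℝ s * riemannZeta s := by
  have hs0 : s ≠ 0 := fun h0 => by rw [h0] at h; simp at h
  have hG : Gammaℝ s ≠ 0 := Complex.Gammaℝ_ne_zero_of_re_pos h
  rw [riemannZeta_def_of_ne_zero hs0]
  field_simp

theorem DQ_eq' {s : ℂ} (h0 : 0 < s.re) (h1 : s ≠ 1) : DQ s = s * (s - 1) * (Gammaℝ s * riemannZeta s) := by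
  rw [DQ_eq (fun h => by rw [h] at h0; simp at h0) h1, completed_eq h0]

theorem DQ_sym (s : ℂ) : DQ (1 - s) = DQ s := by
  unfold DQ
  rw [completedRiemannZeta₀_one_sub]
  ring

theorem DQ_ne_right {s : ℂ} (h : 1 < s.re) : DQ s ≠ 0 := by
  have h1 : s ≠ 1 := fun h1 => by rw [h1] at h; simp at h
  have h0 : s ≠ 0 := fun h1 => by rw [h1] at h; norm_num at h
  rw [DQ_eq' (by linarith) h1]
  exact mul_ne_zero (mul_ne_zero h0 (sub_ne_zero.2 h1))
    (mul_ne_zero (Complex.Gammaℝ_ne_zero_of_re_pos (by linarith)) (riemannZeta_ne_zero_of_one_lt_re h))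

theorem DQ_real_aux {x : ℝ} (h : 0 < x) : DQ x ≠ 0 := by
  by_cases h1 : (x : ℂ) = 1
  · rw [h1, DQ]
    norm_num
  · have h0 : (x : ℂ) ≠ 0 := by exact_mod_cast h.ne'
    have hre : 0 < ((x : ℂ)).re := by simpa using h
    rw [DQ_eq' hre h1]
    refine mul_ne_zero (mul_ne_zero h0 (sub_ne_zero.2 h1))
      (mul_ne_zero (Complex.Gammaℝ_ne_zero_of_re_pos hre) fun hz => ?_)
    refine Pool.Agent.H437R2.z1_zero_im (s := (x : ℂ)) hre ?_ (Complex.ofReal_im x)
    rw [Pool.Agent.H437R2.z1_of_ne h1, hz, mul_zero]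

theorem DQ_real (x : ℝ) : DQ x ≠ 0 := by
  rcases lt_or_ge 0 x with h | h
  · exact DQ_real_aux h
  · rw [← DQ_sym]
    have := DQ_real_aux (x := 1 - x) (by linarith)
    rwa [Complex.ofReal_sub, Complex.ofReal_one] at this

theorem DQ_L (s : ℂ) : DQ s = 2 * Pool.Agent.H24R2.JP.MomAux.L Pool.Agent.Helper242.KK.Ph (s - 1 / 2) := by
  have h1 := congrFun Pool.Agent.H24R2.JP.MomAux.XX_eq (s - 1 / 2)
  unfold Pool.Agent.H24R2.JP.XX at h1
  have e1 : (1 / 2 + (s - 1 / 2) : ℂ) = s := by ring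
  rw [e1] at h1
  unfold DQ
  linear_combination (1 / 4 : ℂ) * h1

theorem DQ_bound : ∃ CD : ℝ, 0 ≤ CD ∧ ∀ s : ℂ, |s.re| ≤ 4 → ‖DQ s‖ ≤ CD := by
  obtain ⟨C, hC⟩ := Pool.Agent.H24R2.JP.MomAux.Cl_Ph.2 5
  refine ⟨2 * ∫ t : ℝ, C * Real.exp (-1 * t ^ 2), ?_, fun s hs => ?_⟩
  · refine mul_nonneg (by norm_num) (integral_nonneg fun t => ?_)
    exact (mul_nonneg (abs_nonneg _) (Real.exp_pos _).le).trans (hC t)
  · rw [DQ_L, norm_mul, Complex.norm_ofNat]
    refine mul_le_mul_of_nonneg_left ?_ (by norm_num)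
    unfold Pool.Agent.H24R2.JP.MomAux.L
    refine norm_integral_le_of_norm_le ((integrable_exp_neg_mul_sq one_pos).const_mul C)
      (Eventually.of_forall fun t => ?_)
    refine (Pool.Agent.H24R2.JP.MomAux.L_norm_le _ _ t).trans (le_trans ?_ (hC t))
    refine mul_le_mul_of_nonneg_left (Real.exp_le_exp.2 ?_) (abs_nonneg _)
    refine mul_le_mul_of_nonneg_right ?_ (abs_nonneg _)
    have h1 : (s - 1 / 2).re = s.re - 1 / 2 := by simp
    rw [h1]
    refine (abs_sub _ _).trans ?_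
    have h2 : |(1 / 2 : ℝ)| = 1 / 2 := abs_of_pos (by norm_num)
    rw [h2]
    linarith

/-- `s (s - 1) ξ(s)` is an admissible denominator -/
theorem den_DQ : ∃ CD : ℝ, Den DQ CD := by
  obtain ⟨CD, h0, h⟩ := DQ_bound
  refine ⟨CD, ?_, DQ_sym, DQ_real, fun s hs => DQ_ne_right (by linarith), fun s h1 h2 => ?_⟩
  · have h0 := differentiable_completedZeta₀
    unfold DQ
    fun_prop
  · refine (h s (abs_le.2 ⟨by linarith, by linarith⟩)).trans ?_
    have := Real.one_le_exp (abs_nonneg s.im)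
    nlinarith

/-- the constant function `1` is an admissible denominator -/
theorem den_one : Den (fun _ => 1) 1 := by
  refine ⟨differentiable_const _, fun _ => rfl, fun _ => one_ne_zero, fun _ _ => one_ne_zero,
    fun s _ _ => ?_⟩
  rw [norm_one, one_mul]
  exact Real.one_le_exp (abs_nonneg _)

end Pool.Agent.TH949.UL
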