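import Pool.Agent.TH949.UL.GLn

/-! The least place with a small trace for `GL_n` over a number field. -/

set_option autoImplicit false

namespace Pool.Agent.TH949.UL

open NumberField IsDedekindDomain Filter Topology
open Pool.Agent.W189.TP (DS DS_norm_le norm_term)
open Pool.Agent.TH861.GL3 (PL qq two_le_qq qq_pos one_lt_qq countable_primes LL exp_LL LL_nonneg)
open Pool.Agent.TH949.LT

/-- Properties of the Satake parameters `α v`, `v ∉ S`, of a unitary cuspidal automorphic representation `π` of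
`GL_n` over the number field `K`, and of its Rankin-Selberg `L`-function `L(s, π × π~)`, relative to the entire
function `D`, which is `s (s - 1)` times the completed Dedekind zeta function of `K`. The local factor of
`L(s, π × π~) / ζ_K(s)` at `v ∈ S` is the inverse of the product of the factors `1 - β_{i,v} q_v^{-s}` and of the
factors `1 - γ_{v,i} q_v^{-s}`, `(v, i) ∈ T`. The `κ_j` are the parameters of the quotient of the factors at
infinity of `L(s, π × π~)` and of `ζ_K`, `Q²` is the quotient of their conductors, and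
`G(s) = D(s) L(s, π × π~) / ζ_K(s)`, `Ξ(s) = Q^s ∏_j Γ_ℝ(s + κ_j) G(s)`. -/
structure CuspidalGLn {K : Type*} [Field K] [NumberField K] {S : Finset (HeightOneSpectrum (𝓞 K))} {n : ℕ}
    (D : ℂ → ℂ) (α : PL S → Fin n → ℂ) (β : HeightOneSpectrum (𝓞 K) → Fin (n ^ 2) → ℂ)
    (T : Finset (HeightOneSpectrum (𝓞 K) × Fin (n ^ 2))) (γ : HeightOneSpectrum (𝓞 K) × Fin (n ^ 2) → ℂ)
    (κ : Fin ((n ^ 2 - 1) * Module.finrank ℚ K) → ℂ) (Q : ℝ) : Prop where
  /-- the Satake parameters are nonzero -/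
  ne_zero : ∀ v i, α v i ≠ 0
  /-- the local components are unitary -/
  unitary : ∀ v, ∃ τ : Equiv.Perm (Fin n), ∀ i, α v (τ i) = ((starRingEnd ℂ) (α v i))⁻¹
  /-- bound of Jacquet and Shalika -/
  bound : ∀ v i, ‖α v i‖ < (qq v.1 : ℝ) ^ (1 / 2 : ℝ)
  /-- the local factors at `S` -/
  ramified : ∀ v ∈ S, ∀ i, ‖β v i‖ < (qq v : ℝ)
  /-- the logarithms of the factors given by the `β v i` have nonnegative coefficients -/
  ramified_nonneg : ∀ v ∈ S, ∀ k : ℕ, ∃ c : ℝ, 0 ≤ c ∧ ∑ i, β v i ^ (k + 1) = (c : ℂ)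
  /-- the other factors -/
  removed : ∀ x ∈ T, ‖γ x‖ = 1
  /-- the conductor -/
  one_le : 1 ≤ Q
  /-- the local factors at the infinite places -/
  conj : Multiset.map (fun j => (starRingEnd ℂ) (κ j)) Finset.univ.val =
      Multiset.map κ Finset.univ.val
  re : ∀ j, -1 < (κ j).re
  zero : ∃ j, κ j = 0
  /-- the functional equation -/
  adjoint : ∃ (G Ξ : ℂ → ℂ) (ω : ℂ), Differentiable ℂ G ∧ Differentiable ℂ Ξ ∧ ‖ω‖ = 1 ∧
    (∀ a b : ℝ, ∃ (C : ℝ) (A : ℕ), ∀ s : ℂ, a ≤ s.re → s.re ≤ b → ‖G s‖ ≤ C * (1 + |s.im|) ^ A) ∧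
    (∀ s : ℂ, 2 < s.re →
      G s * (∏ v ∈ S, ∏ i, (1 - β v i * ((qq v : ℕ) : ℂ) ^ (-s))) *
        ∏ x ∈ T, (1 - γ x * ((qq x.1 : ℕ) : ℂ) ^ (-s)) = D s * Complex.exp (logAdn α s)) ∧
    (∀ s : ℂ, 2 < s.re → Ξ s = G s * ((Q : ℂ) ^ s * ∏ j, Complex.Gammaℝ (s + κ j))) ∧
    ∀ s : ℂ, Ξ (1 - s) = ω * Ξ s

/-- **The least place with a small trace.** -/
theorem least_small_trace.{u} (K : Type u) [Field K] [NumberField K] (n : ℕ) {D : ℂ → ℂ} {CD : ℝ}
    (hD : Den D CD) {ε : ℝ} (hε : 0 < ε) :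
    ∃ A : ℝ, 0 < A ∧ ∀ (S : Finset (HeightOneSpectrum (𝓞 K))) (α : PL S → Fin n → ℂ)
      (β : HeightOneSpectrum (𝓞 K) → Fin (n ^ 2) → ℂ) (T : Finset (HeightOneSpectrum (𝓞 K) × Fin (n ^ 2)))
      (γ : HeightOneSpectrum (𝓞 K) × Fin (n ^ 2) → ℂ) (κ : Fin ((n ^ 2 - 1) * Module.finrank ℚ K) → ℂ) (Q : ℝ),
      CuspidalGLn D α β T γ κ Q →
      ∃ (v : PL S) (k : ℕ), 1 ≤ k ∧
        (qq v.1 : ℝ) ^ k ≤ A * (Q ^ 2 * (∏ j, (1 + ‖κ j‖)) * ∏ x ∈ T, (qq x.1 : ℝ)) ^ (1 + ε) ∧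
        ‖∑ i, α v i ^ k‖ < 1 ∧ (n ≤ 3 → ∀ i, ‖α v i‖ = 1) := by
  obtain ⟨A, hA0, hA⟩ := euler K ((n ^ 2 - 1) * Module.finrank ℚ K) (n ^ 2) hD
    (B := (n : ℝ) ^ 2 + (n ^ 2 : ℕ) + 1) (by positivity) hε
  refine ⟨A, hA0, fun S α β T γ κ Q h => ?_⟩
  have hloc : Loc α β := ⟨h.bound, h.ramified, h.ramified_nonneg⟩
  obtain ⟨G, Ξ, ω, hGd, hΞd, hω, hgr, hGe, hΞe, hfe⟩ := h.adjoint
  obtain ⟨x, hx, hxl⟩ := hA (dall α β) κ Q G T γ h.removed
    ⟨h.one_le, h.conj, h.re, hGd, hgr, Ξ, ω, hω, hΞd, hΞe, hfe⟩ h.zero (dall_le hloc) (fun s hs => by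
      have h1 := hGe s (by linarith)
      have h2 := exp_all hloc hs
      have hne : (∏ v ∈ S, ∏ i, (1 - β v i * ((qq v : ℕ) : ℂ) ^ (-s))) ≠ 0 := by
        intro h0
        rw [h0, mul_zero] at h2
        exact Complex.exp_ne_zero _ h2.symm
      rw [← h2] at h1
      refine mul_right_cancel₀ hne ?_
      linear_combination h1)
  obtain ⟨v, k⟩ := x
  simp only at hxl
  by_cases hv : v ∈ S
  · exfalso
    rw [dall_S hv] at hx
    obtain ⟨c, hc0, hc⟩ := h.ramified_nonneg v hv k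
    rw [hc, Complex.ofReal_re] at hx
    have : 0 ≤ c / ((k : ℝ) + 1) := by positivity
    linarith
  · rw [dall_P hv] at hx
    have hlt : ‖∑ i, α ⟨v, hv⟩ i ^ (k + 1)‖ < 1 := by
      by_contra hcon
      push Not at hcon
      have h1 : (1 : ℝ) ≤ ‖∑ i, α ⟨v, hv⟩ i ^ (k + 1)‖ ^ 2 := one_le_pow₀ hcon
      have : 0 ≤ (‖∑ i, α ⟨v, hv⟩ i ^ (k + 1)‖ ^ 2 - 1) / ((k : ℝ) + 1) := by
        apply div_nonneg <;> [linarith; positivity]
      linarith
    refine ⟨⟨v, hv⟩, k + 1, by omega, hxl, hlt, fun hn => ?_⟩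
    have hn2 : 2 ≤ n := by
      obtain ⟨j, _⟩ := h.zero
      by_contra hcon
      push Not at hcon
      have h0 : (n ^ 2 - 1) * Module.finrank ℚ K = 0 := by
        have : n ^ 2 - 1 = 0 := by
          have : n = 0 ∨ n = 1 := by omega
          rcases this with rfl | rfl <;> rfl
        rw [this, zero_mul]
      exact absurd j.2 (by omega)
    exact temp_of_pow hn (h.ne_zero _) (h.unitary _) (by omega) hlt hn2

end Pool.Agent.TH949.UL
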