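import Pool.Agent.TH949.UL.Euler
import Pool.Agent.TH949.RES.PGL4

/-! Satake parameters of cuspidal representations of `GL_n` over a number field. -/

set_option autoImplicit false

namespace Pool.Agent.TH949.UL

open NumberField IsDedekindDomain Filter Topology
open Pool.Agent.W189.TP (DS DS_norm_le norm_term)
open Pool.Agent.TH861.GL3 (PL qq two_le_qq qq_pos one_lt_qq countable_primes LL exp_LL LL_nonneg)
open Pool.Agent.TH949.LT

variable {K : Type*} [Field K] [NumberField K] {S : Finset (HeightOneSpectrum (𝓞 K))} {n m r : ℕ}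

/-- `∑_{v ∉ S} ∑_{k ≥ 1} (|∑_i α_{i,v}^k|² - 1) / k · q_v^{-ks}`, the logarithm of
`∏_{v ∉ S} (1 - q_v^{-s}) L(s, π_v × π~_v)`. -/
noncomputable def logAdn (α : PL S → Fin n → ℂ) (s : ℂ) : ℂ :=
  ∑' x : PL S × ℕ, (((‖∑ i, α x.1 i ^ (x.2 + 1)‖ ^ 2 - 1) / ((x.2 : ℝ) + 1) : ℝ) : ℂ) *
    (((qq x.1.1 : ℕ) : ℂ) ^ (-s)) ^ (x.2 + 1)

open Classical in
/-- all coefficients -/
noncomputable def dall (α : PL S → Fin n → ℂ) (β : HeightOneSpectrum (𝓞 K) → Fin m → ℂ) (x : PV K) : ℝ :=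
  if h : x.1 ∈ S then (∑ i, β x.1 i ^ (x.2 + 1)).re / ((x.2 : ℝ) + 1)
  else (‖∑ i, α ⟨x.1, h⟩ i ^ (x.2 + 1)‖ ^ 2 - 1) / ((x.2 : ℝ) + 1)

/-- the decomposition of the set of places -/
def jSum (S : Finset (HeightOneSpectrum (𝓞 K))) : (PL S × ℕ) ⊕ (S × ℕ) → PV K :=
  Sum.elim (fun x => (x.1.1, x.2)) fun x => (x.1.1, x.2)

omit [NumberField K] in
theorem jSum_bij : Function.Bijective (jSum S) := by
  constructor
  · rintro (⟨⟨a, ha⟩, k⟩ | ⟨⟨a, ha⟩, k⟩) (⟨⟨b, hb⟩, l⟩ | ⟨⟨b, hb⟩, l⟩) h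
    · simp only [jSum, Sum.elim_inl, Prod.mk.injEq] at h
      obtain ⟨h1, h2⟩ := h
      subst h1 h2
      rfl
    · simp only [jSum, Sum.elim_inl, Sum.elim_inr, Prod.mk.injEq] at h
      exact absurd (h.1 ▸ hb) ha
    · simp only [jSum, Sum.elim_inl, Sum.elim_inr, Prod.mk.injEq] at h
      exact absurd (h.1 ▸ ha) hb
    · simp only [jSum, Sum.elim_inr, Prod.mk.injEq] at h
      obtain ⟨h1, h2⟩ := h
      subst h1 h2
      rfl
  · rintro ⟨a, k⟩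
    by_cases ha : a ∈ S
    · exact ⟨Sum.inr (⟨a, ha⟩, k), rfl⟩
    · exact ⟨Sum.inl (⟨a, ha⟩, k), rfl⟩

omit [NumberField K] in
theorem tsum_split {f : PV K → ℂ} (hf : Summable f) :
    ∑' x, f x = (∑' x : PL S × ℕ, f (x.1.1, x.2)) + ∑' x : S × ℕ, f (x.1.1, x.2) := by
  have h1 : Summable (f ∘ jSum S) := hf.comp_injective jSum_bij.1
  have h2 : Summable fun x : PL S × ℕ => f (x.1.1, x.2) := h1.comp_injective Sum.inl_injective
  have h3 : Summable fun x : S × ℕ => f (x.1.1, x.2) := h1.comp_injective Sum.inr_injective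
  have h4 := HasSum.sum (f := f ∘ jSum S) h2.hasSum h3.hasSum
  have h5 := (Equiv.ofBijective _ (jSum_bij (S := S))).tsum_eq f
  rw [← h5]
  exact h4.tsum_eq

theorem cexp_LV (x : PV K) (s : ℂ) :
    Complex.exp (-(s * LV x)) = (((qq x.1 : ℕ) : ℂ) ^ (-s)) ^ (x.2 + 1) := by
  have hp : ((qq x.1 : ℕ) : ℂ) ≠ 0 := by
    have := two_le_qq x.1
    exact_mod_cast (by omega : qq x.1 ≠ 0)
  rw [Complex.cpow_def_of_ne_zero hp, ← Complex.exp_nat_mul]
  congr 1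
  unfold LV
  push_cast
  ring

/-- what is used of the local parameters -/
structure Loc (α : PL S → Fin n → ℂ) (β : HeightOneSpectrum (𝓞 K) → Fin m → ℂ) : Prop where
  bound : ∀ v i, ‖α v i‖ < (qq v.1 : ℝ) ^ (1 / 2 : ℝ)
  ramified : ∀ v ∈ S, ∀ i, ‖β v i‖ < (qq v : ℝ)
  ramified_nonneg : ∀ v ∈ S, ∀ k : ℕ, ∃ c : ℝ, 0 ≤ c ∧ ∑ i, β v i ^ (k + 1) = (c : ℂ)

variable {α : PL S → Fin n → ℂ} {β : HeightOneSpectrum (𝓞 K) → Fin m → ℂ}

theorem dall_le (h : Loc α β) (x : PV K) :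
    |dall α β x| ≤ ((n : ℝ) ^ 2 + m + 1) * Real.exp (LV x) := by
  have hq := one_lt_qq x.1
  have hq0 : (0 : ℝ) < qq x.1 := by linarith
  have h4 : 1 ≤ Real.exp (LV x) := Real.one_le_exp (LV_nonneg x)
  have hk : (1 : ℝ) ≤ (x.2 : ℝ) + 1 := by
    have : (0 : ℝ) ≤ x.2 := Nat.cast_nonneg _
    linarith
  unfold dall
  split_ifs with hx
  · have h1 : |(∑ i, β x.1 i ^ (x.2 + 1)).re| ≤ ((n : ℝ) ^ 2 + m + 1) * Real.exp (LV x) := by
      rw [exp_LV]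
      refine (Complex.abs_re_le_norm _).trans ((norm_sum_le _ _).trans ?_)
      calc _ ≤ ∑ _i : Fin m, (qq x.1 : ℝ) ^ (x.2 + 1) := by
            refine Finset.sum_le_sum fun i _ => ?_
            rw [norm_pow]
            exact pow_le_pow_left₀ (norm_nonneg _) (h.ramified x.1 hx i).le _
        _ = m * (qq x.1 : ℝ) ^ (x.2 + 1) := by simp
        _ ≤ _ := by
          refine mul_le_mul_of_nonneg_right ?_ (by positivity)
          nlinarith [sq_nonneg (n : ℝ)]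
    rw [abs_div, abs_of_pos (by linarith : (0 : ℝ) < (x.2 : ℝ) + 1)]
    exact (div_le_self (abs_nonneg _) hk).trans h1
  · have h1 : ‖∑ i, α ⟨x.1, hx⟩ i ^ (x.2 + 1)‖ ≤ n * ((qq x.1 : ℝ) ^ (1 / 2 : ℝ)) ^ (x.2 + 1) := by
      refine (norm_sum_le _ _).trans ?_
      calc _ ≤ ∑ _i : Fin n, ((qq x.1 : ℝ) ^ (1 / 2 : ℝ)) ^ (x.2 + 1) := by
            refine Finset.sum_le_sum fun i _ => ?_
            rw [norm_pow]
            exact pow_le_pow_left₀ (norm_nonneg _) (h.bound ⟨x.1, hx⟩ i).le _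
        _ = _ := by simp
    have h2 : ‖∑ i, α ⟨x.1, hx⟩ i ^ (x.2 + 1)‖ ^ 2 ≤ (n : ℝ) ^ 2 * Real.exp (LV x) := by
      have h3 : Real.exp (LV x) = (((qq x.1 : ℝ) ^ (1 / 2 : ℝ)) ^ (x.2 + 1)) ^ 2 := by
        rw [exp_LV, pow_right_comm, ← Real.rpow_natCast (((qq x.1 : ℝ) ^ (1 / 2 : ℝ))) 2,
          ← Real.rpow_mul hq0.le]
        norm_num
      rw [h3]
      calc _ ≤ (n * ((qq x.1 : ℝ) ^ (1 / 2 : ℝ)) ^ (x.2 + 1)) ^ 2 :=
            pow_le_pow_left₀ (norm_nonneg _) h1 2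
        _ = _ := by ring
    rw [abs_div, abs_of_pos (by linarith : (0 : ℝ) < (x.2 : ℝ) + 1)]
    refine (div_le_self (abs_nonneg _) hk).trans ?_
    have h5 := sq_nonneg ‖∑ i, α ⟨x.1, hx⟩ i ^ (x.2 + 1)‖
    have h6 : (0 : ℝ) ≤ m * Real.exp (LV x) := by positivity
    have h7 : (0 : ℝ) ≤ (n : ℝ) ^ 2 * Real.exp (LV x) := by positivity
    rw [abs_le]
    constructor
    · have : ((n : ℝ) ^ 2 + m + 1) * Real.exp (LV x) =
        (n : ℝ) ^ 2 * Real.exp (LV x) + m * Real.exp (LV x) + Real.exp (LV x) := by ring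
      linarith
    · have : ((n : ℝ) ^ 2 + m + 1) * Real.exp (LV x) =
        (n : ℝ) ^ 2 * Real.exp (LV x) + m * Real.exp (LV x) + Real.exp (LV x) := by ring
      linarith

theorem summable_dall (h : Loc α β) {s : ℂ} (hs : 5 / 2 ≤ s.re) :
    Summable fun x => (dall α β x : ℂ) * Complex.exp (-(s * LV x)) := by
  refine Summable.of_norm ((d_sum (dall_le h) hs).1.congr fun x => ?_)
  rw [norm_term]

theorem small_term {b : ℂ} {v : HeightOneSpectrum (𝓞 K)} (hb : ‖b‖ < (qq v : ℝ)) {s : ℂ} (hs : 5 / 2 ≤ s.re) :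
    ‖b * ((qq v : ℕ) : ℂ) ^ (-s)‖ < 1 / 2 := by
  have hq := two_le_qq v
  have hq' : (2 : ℝ) ≤ (qq v : ℝ) := by exact_mod_cast hq
  have hq0 : (0 : ℝ) < (qq v : ℝ) := by linarith
  rw [norm_mul, Complex.norm_natCast_cpow_of_pos (by omega), Complex.neg_re]
  have h1 : (qq v : ℝ) ^ (-s.re) ≤ (qq v : ℝ) ^ (-2 : ℝ) :=
    Real.rpow_le_rpow_of_exponent_le (by linarith) (by linarith)
  have h2 : (qq v : ℝ) ^ (-2 : ℝ) = ((qq v : ℝ) ^ 2)⁻¹ := by
    rw [Real.rpow_neg hq0.le]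
    norm_num
  have h3 : 0 < (qq v : ℝ) ^ (-s.re) := by positivity
  calc ‖b‖ * (qq v : ℝ) ^ (-s.re) < (qq v : ℝ) * (qq v : ℝ) ^ (-s.re) :=
        mul_lt_mul_of_pos_right hb h3
    _ ≤ (qq v : ℝ) * ((qq v : ℝ) ^ 2)⁻¹ := mul_le_mul_of_nonneg_left (h1.trans h2.le) hq0.le
    _ = 1 / (qq v : ℝ) := by field_simp
    _ ≤ 1 / 2 := one_div_le_one_div_of_le (by norm_num) hq'

/-- one local factor -/
theorem exp_fac {m : ℕ} {b : Fin m → ℂ} {w : ℂ} (hz : ∀ i, ‖b i * w‖ < 1 / 2) :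
    HasSum (fun k : ℕ => (∑ i, b i ^ (k + 1)) / ((k : ℂ) + 1) * w ^ (k + 1))
      (∑ i, -Complex.log (1 - b i * w)) ∧
    Complex.exp (∑ i, -Complex.log (1 - b i * w)) = (∏ i, (1 - b i * w))⁻¹ := by
  constructor
  · have hlog : ∀ i, HasSum (fun k : ℕ => (b i * w) ^ (k + 1) / ((k : ℂ) + 1))
        (-Complex.log (1 - b i * w)) := by
      intro i
      have h1 := Complex.hasSum_taylorSeries_neg_log ((hz i).trans (by norm_num))
      have h2 := (hasSum_nat_add_iff' 1).2 h1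
      simp only [Finset.range_one, Finset.sum_singleton, pow_zero, Nat.cast_zero, div_zero, sub_zero,
        Nat.cast_add, Nat.cast_one] at h2
      exact h2
    refine (hasSum_sum fun i (_ : i ∈ Finset.univ) => hlog i).congr_fun fun k => ?_
    simp_rw [mul_pow]
    rw [← Finset.sum_div, ← Finset.sum_mul]
    ring
  · rw [Complex.exp_sum, ← Finset.prod_inv_distrib]
    refine Finset.prod_congr rfl fun i _ => ?_
    have hne : 1 - b i * w ≠ 0 := by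
      intro h0
      have h3 := hz i
      rw [← sub_eq_zero.1 h0] at h3
      norm_num at h3
    rw [Complex.exp_neg, Complex.exp_log hne]

/-- the exponential of the coefficients at `S` -/
theorem exp_S' {e : S × ℕ → ℂ} {s : ℂ} (hβ : ∀ v ∈ S, ∀ i, ‖β v i‖ < (qq v : ℝ)) (hs : 5 / 2 ≤ s.re)
    (he : ∀ (v : S) (k : ℕ), e (v, k) = (∑ i, β v i ^ (k + 1)) / ((k : ℂ) + 1) *
      (((qq v.1 : ℕ) : ℂ) ^ (-s)) ^ (k + 1)) (hsum : Summable e) :
    Complex.exp (∑' x, e x) = (∏ v ∈ S, ∏ i, (1 - β v i * ((qq v : ℕ) : ℂ) ^ (-s)))⁻¹ := by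
  have hfac := fun v : S => exp_fac (b := β v.1) (w := ((qq v.1 : ℕ) : ℂ) ^ (-s))
    fun i => small_term (hβ v.1 v.2 i) hs
  have hfib : ∀ v : S, HasSum (fun k : ℕ => e (v, k))
      (∑ i, -Complex.log (1 - β v i * ((qq v.1 : ℕ) : ℂ) ^ (-s))) := by
    intro v
    refine (hfac v).1.congr_fun fun k => ?_
    exact he v k
  have h1 := hsum.hasSum.prod_fiberwise hfib
  have h2 : ∑' x, e x = ∑ v : S, ∑ i, -Complex.log (1 - β v i * ((qq v.1 : ℕ) : ℂ) ^ (-s)) :=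
    h1.unique (hasSum_fintype _)
  rw [h2, Complex.exp_sum, ← Finset.prod_inv_distrib, ← Finset.prod_coe_sort S]
  exact Finset.prod_congr rfl fun v _ => (hfac v).2

theorem dall_S {v : HeightOneSpectrum (𝓞 K)} (hv : v ∈ S) (k : ℕ) :
    dall α β (v, k) = (∑ i, β v i ^ (k + 1)).re / ((k : ℝ) + 1) := dif_pos hv

theorem dall_P {v : HeightOneSpectrum (𝓞 K)} (hv : v ∉ S) (k : ℕ) :
    dall α β (v, k) = (‖∑ i, α ⟨v, hv⟩ i ^ (k + 1)‖ ^ 2 - 1) / ((k : ℝ) + 1) := dif_neg hv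

/-- the exponential of the coefficients at `S` -/
theorem exp_S (h : Loc α β) {s : ℂ} (hs : 5 / 2 ≤ s.re) :
    Complex.exp (∑' x : S × ℕ, (dall α β (x.1.1, x.2) : ℂ) * Complex.exp (-(s * LV (x.1.1, x.2)))) =
      (∏ v ∈ S, ∏ i, (1 - β v i * ((qq v : ℕ) : ℂ) ^ (-s)))⁻¹ := by
  refine exp_S' (e := fun x : S × ℕ => (dall α β (x.1.1, x.2) : ℂ) *
    Complex.exp (-(s * LV (x.1.1, x.2)))) h.ramified hs (fun v k => ?_) ?_
  · obtain ⟨c, hc0, hc⟩ := h.ramified_nonneg v.1 v.2 k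
    simp only
    rw [dall_S v.2, cexp_LV, hc, Complex.ofReal_re]
    push_cast
    rfl
  · have h1 := (summable_dall h hs).comp_injective
      (jSum_bij (S := S)).1
    have h2 := h1.comp_injective (Sum.inr_injective (α := PL S × ℕ))
    exact h2

/-- the total logarithm -/
theorem exp_all (h : Loc α β) {s : ℂ} (hs : 5 / 2 ≤ s.re) :
    Complex.exp (DS (dall α β) LV s) * (∏ v ∈ S, ∏ i, (1 - β v i * ((qq v : ℕ) : ℂ) ^ (-s))) =
      Complex.exp (logAdn α s) := by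
  have h1 : DS (dall α β) LV s = logAdn α s +
      ∑' x : S × ℕ, (dall α β (x.1.1, x.2) : ℂ) * Complex.exp (-(s * LV (x.1.1, x.2))) := by
    unfold DS
    rw [tsum_split (S := S) (summable_dall h hs)]
    congr 1
    unfold logAdn
    refine tsum_congr fun x => ?_
    rw [cexp_LV, dall_P x.1.2]
  rw [h1, Complex.exp_add, exp_S h hs, mul_assoc, inv_mul_cancel₀, mul_one]
  intro h0
  have h2 := exp_S h hs
  rw [h0, inv_zero] at h2
  exact Complex.exp_ne_zero _ h2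

/-- temperedness from a small power sum -/
theorem temp_of_pow (hn : n ≤ 3) {a : Fin n → ℂ} (h0 : ∀ i, a i ≠ 0)
    (hU : ∃ τ : Equiv.Perm (Fin n), ∀ i, a (τ i) = ((starRingEnd ℂ) (a i))⁻¹) {k : ℕ} (hk : 1 ≤ k)
    (hs : ‖∑ i, a i ^ k‖ < 1) (hn2 : 2 ≤ n) : ∀ i, ‖a i‖ = 1 := by
  intro i
  have h1 := Pool.Agent.TH949.RES.tempered23 hn2 hn (a := fun i => a i ^ k) (fun i => pow_ne_zero _ (h0 i))
    (by
      obtain ⟨τ, hτ⟩ := hU
      refine ⟨τ, fun i => ?_⟩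
      rw [hτ i, inv_pow, map_pow]) hs i
  rw [norm_pow] at h1
  exact (pow_eq_one_iff_of_nonneg (norm_nonneg _) (by omega)).1 h1

end Pool.Agent.TH949.UL
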