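import Pool.Agent.TH949.UL.Setup

/-! The smoothed sum approximates the `L`-function to the left of the critical strip. -/

set_option autoImplicit false

namespace Pool.Agent.TH949.UL

open Complex MeasureTheory Set Filter Topology
open Pool.Agent.TH949.LT

variable {N : ℕ} {κ : Fin N → ℂ} {Q : ℝ} {G D W : ℂ → ℂ} {CD M p : ℝ}

theorem approx {ι : Type*} [Countable ι] {c Λ : ι → ℝ} (h : LData N κ Q G) (hD : Den D CD)
    (hW : WData W p M) (hM0 : 1 ≤ M)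
    (hM : ∀ s : ℂ, 5 / 2 ≤ s.re → ‖G s / D s‖ ≤ M)
    (hs : Summable fun l => |c l| * Real.exp (-(5 / 2 * Λ l)))
    (hF : ∀ s : ℂ, s.re = 5 / 2 → HasSum (fun l => (c l : ℂ) * cexp (-(s * Λ l))) (G s * W s / D s))
    (hFb : ∀ s : ℂ, s.re = 5 / 2 → ‖G s * W s / D s‖ ≤ M)
    {t V H : ℝ} (ht : 0 ≤ t) (hV : 1 ≤ V) (hH : V + t ≤ H) {zs : List ℂ} {D1 : ℂ → ℂ} {J : Type} [Fintype J]
    {m ℓ : J → ℝ} {Mf : ℂ → ℂ} {δ : ℝ} (hδ : 0 < δ) (hMf : NEP J m ℓ Mf) (hD1 : Differentiable ℂ D1)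
    (hD1n : ∀ z ∈ KR H, D1 z ≠ 0) (hDf : ∀ w, D w = (zs.map fun z => w - z).prod * D1 w)
    (hδH : ∀ x : ℝ, -5 / 2 ≤ x → x ≤ 5 / 2 → δ ≤ ‖D (x + H * I)‖ ∧ δ ≤ ‖D (x + (-H : ℝ) * I)‖)
    {τ : ℝ} (hτ0 : 0 ≤ τ) (hτt : τ ≤ t) (hE : ∃ E : ℂ → ℂ, Differentiable ℂ E ∧
        ∀ w, Mf w = (zs.map fun z => (sp τ + w) - z).prod * E w) (hδτ : δ ≤ ‖D (sp τ)‖)
    {k y : ℝ} (hk : 1 ≤ k) (hy : 0 ≤ y) (hCy : Q ^ 2 * PK κ * p ^ 2 ≤ Real.exp y) :
    ∃ S : ℂ, HasSum (fun l => (c l : ℂ) * cexp (-(sp τ * Λ l)) * WW m ℓ k (y - Λ l)) S ∧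
      ‖S - (∑ j, m j : ℝ) * (G (sp τ) * W (sp τ) / D (sp τ))‖ ≤
        (M * p ^ 5 * ∑ j, m j) * Real.exp (-y + k) * (Q ^ 6 * PK κ ^ 3 * M) * JJ N t +
        25 * (((M + M * (M * CD * (((3 * N).factorial : ℝ) * Real.exp (5 / 2))) * Real.exp (26 + 2 * H) / δ) *
          ∑ j, m j * Real.exp (4 * ℓ j)) * Real.exp (7 * y)) * TT k V := by
  obtain ⟨E, hEd, hEf⟩ := hE
  have hk0 : 0 < k := by linarith
  have hpi := Real.pi_pos
  have hQ : 1 ≤ Q := h.one_le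
  have hP := one_le_PK κ
  have hCD := CD_nonneg hD
  set m0 : ℝ := ∑ j, m j with hm0
  set mb : ℝ := ∑ j, m j * Real.exp (4 * ℓ j) with hmb
  have hm01 : 1 ≤ m0 := hMf.sum
  have hmb0 : 0 ≤ mb := Finset.sum_nonneg fun j _ => mul_nonneg (hMf.m0 j) (Real.exp_pos _).le
  have hM1 : 0 ≤ M := by linarith
  have hp1 := hW.one_le
  have hp0 : 0 < p := by linarith
  set b2 : ℝ := M * (M * CD * (((3 * N).factorial : ℝ) * Real.exp (5 / 2))) with hb2
  have hb20 : 0 ≤ b2 := by rw [hb2]; positivity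
  set B0 : ℝ := (M + b2 * Real.exp (26 + 2 * H) / δ) * mb with hB0
  have hB00 : 0 ≤ B0 := by rw [hB0]; positivity
  set F : ℂ → ℂ := fun s => G s * W s / D s with hFdef
  -- the function
  set hh : ℂ → ℂ := fun w => G (sp τ + w) * W (sp τ + w) * (E w / D1 (sp τ + w)) * cexp (w * y) with hhh
  have hkey : ∀ w, D (sp τ + w) ≠ 0 → hh w = F (sp τ + w) * Mf w * cexp (w * y) := by
    intro w hw
    rw [hhh, hFdef]
    simp only
    rw [hEf w]
    have h1 := hDf (sp τ + w)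
    rw [h1] at hw ⊢
    have h2 := left_ne_zero_of_mul hw
    have h3 := right_ne_zero_of_mul hw
    field_simp
  have hexp := expandM hk0 hs (fun s hs' => hF s hs') y τ hMf
  have hint : ∫ v : ℝ, (F (((-3 / 2 : ℝ) : ℂ) + τ * I + ((4 : ℝ) + v * I)) * Mf ((4 : ℝ) + v * I) *
      cexp (((4 : ℝ) + v * I) * y)) * EK k 4 v = ∫ v : ℝ, hh ((4 : ℝ) + v * I) * EK k 4 v := by
    congr 1
    ext v
    rw [hkey _ (hD.right_ne _ (by simp [sp]; norm_num))]
    rfl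
  change HasSum _ (∫ v : ℝ, (F (((-3 / 2 : ℝ) : ℂ) + τ * I + ((4 : ℝ) + v * I)) * Mf ((4 : ℝ) + v * I) *
      cexp (((4 : ℝ) + v * I) * y)) * EK k 4 v) at hexp
  rw [hint] at hexp
  set Iv : ℂ := ∫ v : ℝ, hh ((4 : ℝ) + v * I) * EK k 4 v with hIv
  have hpic : (2 * Real.pi : ℂ) ≠ 0 := by
    have : (Real.pi : ℂ) ≠ 0 := by exact_mod_cast hpi.ne'
    simp [this]
  refine ⟨(2 * Real.pi : ℂ)⁻¹ * Iv, ?_, ?_⟩
  · refine (hexp.mul_left (2 * Real.pi : ℂ)⁻¹).congr_fun fun l => ?_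
    rw [← mul_assoc, inv_mul_cancel₀ hpic, one_mul]
    rfl
  -- bounds for hh
  have hB1le : B1 κ Q CD M * (M * p ^ 5) ≤ b2 * Real.exp (3 * y) := by
    have e1 : Q ^ 6 * PK κ ^ 3 * p ^ 5 ≤ Real.exp (3 * y) := by
      have h1 : p ^ 5 ≤ p ^ 6 := pow_le_pow_right₀ hp1 (by norm_num)
      calc Q ^ 6 * PK κ ^ 3 * p ^ 5 ≤ Q ^ 6 * PK κ ^ 3 * p ^ 6 :=
            mul_le_mul_of_nonneg_left h1 (by positivity)
        _ = (Q ^ 2 * PK κ * p ^ 2) ^ 3 := by ring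
        _ ≤ Real.exp y ^ 3 := pow_le_pow_left₀ (by positivity) hCy 3
        _ = Real.exp (3 * y) := by rw [← Real.exp_nat_mul]; norm_num
    unfold B1
    rw [mul_comm b2, hb2]
    calc Q ^ 6 * PK κ ^ 3 * (M * CD * (((3 * N).factorial : ℝ) * Real.exp (5 / 2))) * (M * p ^ 5) =
          (Q ^ 6 * PK κ ^ 3 * p ^ 5) * (M * (M * CD * (((3 * N).factorial : ℝ) * Real.exp (5 / 2)))) := by
          ring
      _ ≤ _ := mul_le_mul_of_nonneg_right e1 (by positivity)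
  have hexp3 : 1 ≤ Real.exp (3 * y) := Real.one_le_exp (by linarith)
  have hBtot : ∀ {g x : ℝ}, 0 ≤ g → g ≤ M + b2 * Real.exp (3 * y) * Real.exp (26 + 2 * H) / δ →
      0 ≤ x → x ≤ mb → ∀ {z : ℝ}, 0 ≤ z → z ≤ Real.exp (4 * y) → g * x * z ≤ B0 * Real.exp (7 * y) := by
    intro g x hg hg' hx hx' z hz hz'
    have e1 : g ≤ (M + b2 * Real.exp (26 + 2 * H) / δ) * Real.exp (3 * y) := by
      refine hg'.trans ?_
      have : b2 * Real.exp (3 * y) * Real.exp (26 + 2 * H) / δ =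
          b2 * Real.exp (26 + 2 * H) / δ * Real.exp (3 * y) := by ring
      rw [this]
      nlinarith
    calc g * x * z ≤ (M + b2 * Real.exp (26 + 2 * H) / δ) * Real.exp (3 * y) * mb * Real.exp (4 * y) := by
          gcongr
      _ = B0 * (Real.exp (3 * y) * Real.exp (4 * y)) := by rw [hB0]; ring
      _ = B0 * Real.exp (7 * y) := by
          rw [← Real.exp_add]
          congr 2
          ring
  have hcy : ∀ w : ℂ, ‖cexp (w * y)‖ = Real.exp (w.re * y) := by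
    intro w
    rw [Complex.norm_exp]
    simp
  have hG1 : ∀ z : ℂ, -5 / 2 ≤ z.re → z.re ≤ 5 / 2 → |z.im| ≤ H → δ ≤ ‖D z‖ →
      ‖F z‖ ≤ M + b2 * Real.exp (3 * y) * Real.exp (26 + 2 * H) / δ := by
    intro z h1 h2 h3 h4
    have h5 := crude h hD hM1 hM h1 h2
    have h5' := hW.up z h1 h2
    have hB1n := B1_nonneg h hD hM1
    have h6 : ‖G z * W z‖ ≤ b2 * Real.exp (3 * y) * Real.exp (26 + 2 * H) := by
      rw [norm_mul]
      calc ‖G z‖ * ‖W z‖ ≤ (B1 κ Q CD M * Real.exp (26 + 2 * |z.im|)) * (M * p ^ 5) :=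
            mul_le_mul h5 h5' (norm_nonneg _) (by positivity)
        _ = B1 κ Q CD M * (M * p ^ 5) * Real.exp (26 + 2 * |z.im|) := by ring
        _ ≤ _ := mul_le_mul hB1le (Real.exp_le_exp.2 (by linarith)) (Real.exp_pos _).le (by positivity)
    rw [hFdef]
    simp only
    rw [norm_div]
    have h7 : ‖G z * W z‖ / ‖D z‖ ≤ b2 * Real.exp (3 * y) * Real.exp (26 + 2 * H) / δ :=
      div_le_div₀ (by positivity) h6 hδ h4
    linarith
  have hδ0 : ∀ {z : ℂ}, δ ≤ ‖D z‖ → D z ≠ 0 := fun hz => norm_pos_iff.1 (hδ.trans_le hz)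
  have hR : ∀ v : ℝ, ‖hh ((4 : ℝ) + v * I)‖ ≤ B0 * Real.exp (7 * y) := by
    intro v
    rw [hkey _ (hD.right_ne _ (by simp [sp]; norm_num)), norm_mul, norm_mul, hcy]
    refine hBtot (norm_nonneg _) ?_ (norm_nonneg _) (NEP_norm hMf (by simp)) (Real.exp_pos _).le
      (Real.exp_le_exp.2 (by simp))
    refine (hFb _ (by simp [sp]; norm_num)).trans ?_
    have : 0 ≤ b2 * Real.exp (3 * y) * Real.exp (26 + 2 * H) / δ := by positivity
    linarith
  have hHb : ∀ (x Y : ℝ), -1 ≤ x → x ≤ 4 → (Y = H ∨ Y = -H) →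
      ‖hh (x + (Y - τ : ℝ) * I)‖ ≤ B0 * Real.exp (7 * y) := by
    intro x Y hx1 hx2 hY
    have e : sp τ + (x + (Y - τ : ℝ) * I) = ((x - 3 / 2 : ℝ) : ℂ) + Y * I := by
      unfold sp
      push_cast
      ring
    have hd : δ ≤ ‖D (sp τ + (x + (Y - τ : ℝ) * I))‖ := by
      rw [e]
      have := hδH (x - 3 / 2) (by linarith) (by linarith)
      rcases hY with rfl | rfl
      · exact this.1
      · exact this.2
    rw [hkey _ (hδ0 hd), norm_mul, norm_mul, hcy]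
    refine hBtot (norm_nonneg _) (hG1 _ ?_ ?_ ?_ hd) (norm_nonneg _) (NEP_norm hMf (by simpa using hx2))
      (Real.exp_pos _).le (Real.exp_le_exp.2 ?_)
    · rw [e]; simp; linarith
    · rw [e]; simp; linarith
    · rw [e]
      have hH0 : 0 ≤ H := by linarith
      rcases hY with rfl | rfl
      · simp [abs_of_nonneg hH0]
      · simp [abs_of_nonneg hH0]
    · have : (((x : ℂ) + (Y - τ : ℝ) * I)).re = x := by simp
      rw [this]
      exact mul_le_mul_of_nonneg_right hx2 hy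
  have h00 : ‖hh 0‖ ≤ B0 * Real.exp (7 * y) := by
    rw [hkey _ (by rw [add_zero]; exact hδ0 hδτ), norm_mul, norm_mul, hcy]
    refine hBtot (norm_nonneg _) (hG1 _ ?_ ?_ ?_ ?_) (norm_nonneg _) (NEP_norm hMf (by simp))
      (Real.exp_pos _).le (Real.exp_le_exp.2 ?_)
    · rw [add_zero, sp_re]; norm_num
    · rw [add_zero, sp_re]; norm_num
    · rw [add_zero, sp_im, abs_of_nonneg hτ0]; linarith
    · rw [add_zero]; exact hδτ
    · simp; positivity
  have hh0 : hh 0 = F (sp τ) * m0 := by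
    rw [hkey _ (by rw [add_zero]; exact hδ0 hδτ), NEP_zero hMf, add_zero, zero_mul, Complex.exp_zero,
      mul_one]
  -- regularity
  have hdiff : DifferentiableOn ℂ hh (Icc (-1 : ℝ) 4 ×ℂ Icc (-H - τ) (H - τ)) := by
    have h1 : DifferentiableOn ℂ (fun w => E w / D1 (sp τ + w)) (Icc (-1 : ℝ) 4 ×ℂ Icc (-H - τ) (H - τ)) := by
      refine DifferentiableOn.div hEd.differentiableOn (hD1.comp (by fun_prop)).differentiableOn
        fun w hw => hD1n _ ?_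
      rw [Complex.mem_reProdIm] at hw
      rw [mem_KR, Complex.add_re, Complex.add_im, sp_re, sp_im]
      have h1 := hw.1.1
      have h2 := hw.1.2
      have h3 := hw.2.1
      have h4 := hw.2.2
      refine ⟨⟨by linarith, by linarith⟩, by linarith, by linarith⟩
    have h2 : Differentiable ℂ fun w : ℂ => G (sp τ + w) := h.hF.comp (by fun_prop)
    have h2' : Differentiable ℂ fun w : ℂ => W (sp τ + w) := hW.diff.comp (by fun_prop)
    have h3 : Differentiable ℂ fun w : ℂ => cexp (w * y) := by fun_prop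
    exact ((h2.differentiableOn.mul h2'.differentiableOn).mul h1).mul h3.differentiableOn
  have hD1r : ∀ v : ℝ, D1 (sp τ + ((4 : ℝ) + v * I)) ≠ 0 := by
    intro v h0
    have h1 := hDf (sp τ + ((4 : ℝ) + v * I))
    rw [h0, mul_zero] at h1
    exact hD.right_ne _ (by simp [sp]; norm_num) h1
  have hcont : Continuous fun v : ℝ => hh ((4 : ℝ) + v * I) := by
    rw [hhh]
    have h1 : Continuous fun v : ℝ => G (sp τ + ((4 : ℝ) + v * I)) :=
      h.hF.continuous.comp (by fun_prop)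
    have h1' : Continuous fun v : ℝ => W (sp τ + ((4 : ℝ) + v * I)) :=
      hW.diff.continuous.comp (by fun_prop)
    have h2 : Continuous fun v : ℝ => E ((4 : ℝ) + v * I) := hEd.continuous.comp (by fun_prop)
    have h3 : Continuous fun v : ℝ => D1 (sp τ + ((4 : ℝ) + v * I)) := hD1.continuous.comp (by fun_prop)
    exact ((h1.mul h1').mul (h2.div h3 hD1r)).mul (by fun_prop)
  have hcross := crossR (h := hh) (κ := k) (a := -H - τ) (b := H - τ) (V := V)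
    (B := B0 * Real.exp (7 * y)) hk hV (by linarith) (by linarith) (by positivity) hdiff hcont hR
    (fun x hx1 hx2 => ⟨hHb x (-H) hx1 hx2 (Or.inr rfl), hHb x H hx1 hx2 (Or.inl rfl)⟩) h00
  have hleft := left_int h hD hM1 hM (k := k) (t := t) (τ := τ) (y := y) (m0 := M * p ^ 5 * m0) (a := -H - τ)
    (b := H - τ) hk (by linarith) (by rw [abs_of_nonneg hτ0]; exact hτt)
    (hh := fun v => hh ((-1 : ℝ) + v * I)) (by positivity) (fun v => by
      have e : sp τ + ((-1 : ℝ) + v * I) = ((-5 / 2 : ℝ) : ℂ) + (τ + v : ℝ) * I := by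
        unfold sp
        push_cast
        ring
      have hne : D (sp τ + ((-1 : ℝ) + v * I)) ≠ 0 := D_left_ne hD (by rw [e]; simp; norm_num)
      rw [hkey _ hne, norm_mul, norm_mul, hcy, e]
      have h2 : ‖Mf ((-1 : ℝ) + v * I)‖ ≤ m0 := NEP_norm0 hMf (by simp)
      have h3 : (((-1 : ℝ) : ℂ) + v * I).re * y = -y := by simp
      rw [h3]
      refine mul_le_mul_of_nonneg_right ?_ (Real.exp_pos _).le
      have h4 := hW.up (((-5 / 2 : ℝ) : ℂ) + (τ + v : ℝ) * I) (by simp) (by simp; norm_num)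
      have h5 : ‖F (((-5 / 2 : ℝ) : ℂ) + (τ + v : ℝ) * I)‖ =
          ‖G (((-5 / 2 : ℝ) : ℂ) + (τ + v : ℝ) * I) / D (((-5 / 2 : ℝ) : ℂ) + (τ + v : ℝ) * I)‖ *
          ‖W (((-5 / 2 : ℝ) : ℂ) + (τ + v : ℝ) * I)‖ := by
        rw [hFdef, ← norm_mul]
        congr 1
        ring
      rw [h5, mul_assoc]
      refine mul_le_mul_of_nonneg_left ?_ (norm_nonneg _)
      exact mul_le_mul h4 h2 (norm_nonneg _) (by positivity))
  -- conclusion
  set Lf : ℂ := ∫ v in (-H - τ)..(H - τ), hh ((-1 : ℝ) + v * I) * EK k (-1) v with hLf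
  have e1 : (2 * Real.pi : ℂ)⁻¹ * Iv - (m0 : ℝ) * (G (sp τ) * W (sp τ) / D (sp τ)) =
      (2 * Real.pi : ℂ)⁻¹ * ((Iv - Lf - 2 * Real.pi * hh 0) + Lf) := by
    rw [hh0]
    have : F (sp τ) = G (sp τ) * W (sp τ) / D (sp τ) := rfl
    rw [this]
    field_simp
    ring
  rw [e1, norm_mul, norm_inv]
  have hpin : ‖(2 * Real.pi : ℂ)‖ = 2 * Real.pi := by
    rw [norm_mul, Complex.norm_real, Real.norm_of_nonneg hpi.le]
    simp
  rw [hpin]
  have h5 : (2 * Real.pi)⁻¹ ≤ 1 := inv_le_one_of_one_le₀ (by linarith [Real.pi_gt_three])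
  have h6 : ‖(Iv - Lf - 2 * Real.pi * hh 0) + Lf‖ ≤ 25 * (B0 * Real.exp (7 * y)) * TT k V +
      M * p ^ 5 * m0 * Real.exp (-y + k) * (Q ^ 6 * PK κ ^ 3 * M) * JJ N t :=
    (norm_add_le _ _).trans (add_le_add hcross hleft)
  calc (2 * Real.pi)⁻¹ * ‖(Iv - Lf - 2 * Real.pi * hh 0) + Lf‖ ≤
        1 * ‖(Iv - Lf - 2 * Real.pi * hh 0) + Lf‖ := mul_le_mul_of_nonneg_right h5 (norm_nonneg _)
    _ ≤ _ := by rw [one_mul]; refine h6.trans (le_of_eq ?_); ring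

end Pool.Agent.TH949.UL
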