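import Pool.Agent.TH949.UL.Landau
import Pool.Agent.TH949.LT.GL3

/-! The uniform Landau lemma for Euler products over a number field. -/

set_option autoImplicit false

namespace Pool.Agent.TH949.UL

open NumberField IsDedekindDomain Filter Topology
open Pool.Agent.W189.TP (DS DS_norm_le norm_term)
open Pool.Agent.TH861.GL3 (qq two_le_qq qq_pos one_lt_qq countable_primes LL)
open Pool.Agent.TH949.LT

/-- powers of primes of `K` -/
abbrev PV (K : Type*) [Field K] := HeightOneSpectrum (𝓞 K) × ℕ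

section

variable {K : Type*} [Field K] [NumberField K]

/-- `log (N v ^ (k + 1))` -/
noncomputable def LV (x : PV K) : ℝ := ((x.2 : ℝ) + 1) * Real.log (qq x.1 : ℝ)

theorem LV_nonneg (x : PV K) : 0 ≤ LV x := by
  unfold LV
  have := Real.log_nonneg (one_lt_qq x.1).le
  positivity

theorem rexp_LV (x : PV K) (σ : ℝ) :
    Real.exp (-(σ * LV x)) = ((qq x.1 : ℝ) ^ (-σ)) ^ (x.2 + 1) := by
  rw [Real.rpow_def_of_pos (qq_pos x.1), ← Real.exp_nat_mul]
  congr 1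
  unfold LV
  push_cast
  ring

theorem exp_LV (x : PV K) : Real.exp (LV x) = (qq x.1 : ℝ) ^ (x.2 + 1) := by
  have := rexp_LV x (-1)
  rw [neg_neg, neg_one_mul, neg_neg, Real.rpow_one] at this
  exact this

variable (K) in
/-- a constant of `K` -/
noncomputable def WV : ℝ := ∑' x : PV K, Real.exp (-(3 / 2 * LV x))

variable (K) in
theorem WV_sum : Summable fun x : PV K => Real.exp (-(3 / 2 * LV x)) := by
  have h := (WK_sum K).comp_injective (i := fun x : PV K =>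
    ((⟨x.1, by simp⟩, x.2) : Pool.Agent.TH861.GL3.PL (∅ : Finset (HeightOneSpectrum (𝓞 K))) × ℕ)) (by
      rintro ⟨a, k⟩ ⟨b, l⟩ h
      simp only [Prod.mk.injEq, Subtype.mk.injEq] at h
      rw [h.1, h.2])
  exact h

theorem WV_nonneg : 0 ≤ WV K := tsum_nonneg fun _ => (Real.exp_pos _).le

variable {r : ℕ}

/-- the removed local factors -/
noncomputable def WT (T : Finset (HeightOneSpectrum (𝓞 K) × Fin r))
    (γ : HeightOneSpectrum (𝓞 K) × Fin r → ℂ) (s : ℂ) : ℂ :=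
  ∏ x ∈ T, (1 - γ x * ((qq x.1 : ℕ) : ℂ) ^ (-s))

/-- square root of the product of the norms -/
noncomputable def pT (T : Finset (HeightOneSpectrum (𝓞 K) × Fin r)) : ℝ := ∏ x ∈ T, √(qq x.1 : ℝ)

theorem pT_sq (T : Finset (HeightOneSpectrum (𝓞 K) × Fin r)) : pT T ^ 2 = ∏ x ∈ T, (qq x.1 : ℝ) := by
  unfold pT
  rw [← Finset.prod_pow]
  exact Finset.prod_congr rfl fun x _ => Real.sq_sqrt (qq_pos x.1).le

theorem sqrt_ge (v : HeightOneSpectrum (𝓞 K)) : 1 ≤ √(qq v : ℝ) := Real.one_le_sqrt.2 (one_lt_qq v).le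

theorem one_le_pT (T : Finset (HeightOneSpectrum (𝓞 K) × Fin r)) : 1 ≤ pT T := by
  unfold pT
  calc (1 : ℝ) = ∏ _x ∈ T, (1 : ℝ) := by simp
    _ ≤ _ := Finset.prod_le_prod (fun _ _ => zero_le_one) fun x _ => sqrt_ge x.1

theorem sum_T (T : Finset (HeightOneSpectrum (𝓞 K) × Fin r)) :
    ∑ x ∈ T, (√(qq x.1 : ℝ) ^ 3)⁻¹ ≤ r * WV K := by
  classical
  have h1 : ∑ x ∈ T, (√(qq x.1 : ℝ) ^ 3)⁻¹ ≤
      ∑ x ∈ (T.image Prod.fst) ×ˢ (Finset.univ : Finset (Fin r)), (√(qq x.1 : ℝ) ^ 3)⁻¹ := by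
    refine Finset.sum_le_sum_of_subset_of_nonneg (fun x hx => ?_) fun x _ _ => by positivity
    rw [Finset.mem_product]
    exact ⟨Finset.mem_image_of_mem _ hx, Finset.mem_univ _⟩
  refine h1.trans ?_
  rw [Finset.sum_product]
  simp only [Finset.sum_const, Finset.card_univ, Fintype.card_fin, nsmul_eq_mul]
  rw [← Finset.mul_sum]
  refine mul_le_mul_of_nonneg_left ?_ (Nat.cast_nonneg _)
  have h2 : ∀ v : HeightOneSpectrum (𝓞 K), (√(qq v : ℝ) ^ 3)⁻¹ = Real.exp (-(3 / 2 * LV (v, 0))) := by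
    intro v
    rw [rexp_LV]
    simp only [zero_add, pow_one]
    rw [Real.rpow_neg (qq_pos v).le]
    congr 1
    rw [Real.sqrt_eq_rpow, ← Real.rpow_natCast, ← Real.rpow_mul (qq_pos v).le]
    norm_num
  simp_rw [h2]
  have h3 : ∑ v ∈ T.image Prod.fst, Real.exp (-(3 / 2 * LV (v, 0))) =
      ∑ x ∈ (T.image Prod.fst).map ⟨fun v => (v, 0), fun a b h => by simpa using h⟩,
        Real.exp (-(3 / 2 * LV x)) := by
    rw [Finset.sum_map]
    rfl
  rw [h3]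
  exact (WV_sum K).sum_le_tsum _ fun _ _ => (Real.exp_pos _).le

theorem norm_qs (v : HeightOneSpectrum (𝓞 K)) {z : ℂ} (hz : ‖z‖ = 1) (s : ℂ) :
    ‖z * ((qq v : ℕ) : ℂ) ^ (-s)‖ = (qq v : ℝ) ^ (-s.re) := by
  rw [norm_mul, hz, one_mul, Complex.norm_natCast_cpow_of_pos (by have := two_le_qq v; omega), Complex.neg_re]

theorem sqrt_pow (v : HeightOneSpectrum (𝓞 K)) (n : ℕ) : √(qq v : ℝ) ^ n = (qq v : ℝ) ^ ((n : ℝ) / 2) := by
  rw [Real.sqrt_eq_rpow, ← Real.rpow_natCast, ← Real.rpow_mul (qq_pos v).le]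
  congr 1
  ring

theorem one_sub_exp {t : ℝ} (h0 : 0 ≤ t) (h1 : t ≤ 1 / 2) : Real.exp (-(2 * t)) ≤ 1 - t := by
  rw [Real.exp_neg, inv_le_comm₀ (Real.exp_pos _) (by linarith)]
  have h2 := Real.add_one_le_exp (2 * t)
  refine le_trans ?_ h2
  rw [inv_le_comm₀ (by linarith) (by linarith), inv_eq_one_div, div_le_iff₀ (by linarith)]
  nlinarith

theorem inv3_le (v : HeightOneSpectrum (𝓞 K)) : (√(qq v : ℝ) ^ 3)⁻¹ ≤ 1 / 2 := by
  have h1 : √(2 : ℝ) ≤ √(qq v : ℝ) := Real.sqrt_le_sqrt (by exact_mod_cast two_le_qq v)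
  have h2 : √(2 : ℝ) ^ 3 ≤ √(qq v : ℝ) ^ 3 := pow_le_pow_left₀ (Real.sqrt_nonneg _) h1 3
  have h3 : (2 : ℝ) ≤ √(2 : ℝ) ^ 3 := by
    have h4 : √(2 : ℝ) ^ 2 = 2 := Real.sq_sqrt (by norm_num)
    have h5 : 1 ≤ √(2 : ℝ) := Real.one_le_sqrt.2 (by norm_num)
    calc (2 : ℝ) = √(2 : ℝ) ^ 2 * 1 := by rw [h4]; ring
      _ ≤ √(2 : ℝ) ^ 2 * √(2 : ℝ) := mul_le_mul_of_nonneg_left h5 (by positivity)
      _ = _ := by ring
  have h4 : 0 < √(qq v : ℝ) := Real.sqrt_pos.2 (qq_pos v)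
  rw [inv_le_comm₀ (by positivity) (by norm_num)]
  linarith

variable {T : Finset (HeightOneSpectrum (𝓞 K) × Fin r)} {γ : HeightOneSpectrum (𝓞 K) × Fin r → ℂ}

theorem prod_exp_le {a : HeightOneSpectrum (𝓞 K) × Fin r → ℝ} {f : HeightOneSpectrum (𝓞 K) × Fin r → ℂ}
    (h : ∀ x ∈ T, ‖f x‖ ≤ a x * Real.exp ((√(qq x.1 : ℝ) ^ 3)⁻¹)) (ha : ∀ x ∈ T, 0 ≤ a x) :
    ‖∏ x ∈ T, f x‖ ≤ (∏ x ∈ T, a x) * Real.exp (r * WV K) := by
  rw [norm_prod]
  calc ∏ x ∈ T, ‖f x‖ ≤ ∏ x ∈ T, a x * Real.exp ((√(qq x.1 : ℝ) ^ 3)⁻¹) :=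
        Finset.prod_le_prod (fun _ _ => norm_nonneg _) h
    _ = (∏ x ∈ T, a x) * Real.exp (∑ x ∈ T, (√(qq x.1 : ℝ) ^ 3)⁻¹) := by
        rw [Finset.prod_mul_distrib, Real.exp_sum]
    _ ≤ _ := mul_le_mul_of_nonneg_left (Real.exp_le_exp.2 (sum_T T)) (Finset.prod_nonneg ha)

theorem le_prod_exp {a : HeightOneSpectrum (𝓞 K) × Fin r → ℝ} {f : HeightOneSpectrum (𝓞 K) × Fin r → ℂ}
    (h : ∀ x ∈ T, a x * Real.exp (-(2 * (√(qq x.1 : ℝ) ^ 3)⁻¹)) ≤ ‖f x‖) (ha : ∀ x ∈ T, 0 ≤ a x) :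
    (∏ x ∈ T, a x) * Real.exp (-(2 * (r * WV K))) ≤ ‖∏ x ∈ T, f x‖ := by
  rw [norm_prod]
  calc _ ≤ (∏ x ∈ T, a x) * Real.exp (∑ x ∈ T, (-(2 * (√(qq x.1 : ℝ) ^ 3)⁻¹))) := by
        refine mul_le_mul_of_nonneg_left (Real.exp_le_exp.2 ?_) (Finset.prod_nonneg ha)
        rw [Finset.sum_neg_distrib, ← Finset.mul_sum]
        linarith [sum_T T]
    _ = ∏ x ∈ T, a x * Real.exp (-(2 * (√(qq x.1 : ℝ) ^ 3)⁻¹)) := by
        rw [Finset.prod_mul_distrib, Real.exp_sum]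
    _ ≤ _ := Finset.prod_le_prod (fun x hx => mul_nonneg (ha x hx) (Real.exp_pos _).le) h

theorem u_facts (v : HeightOneSpectrum (𝓞 K)) {u : ℝ} (hu : u = √(qq v : ℝ)) :
    1 ≤ u ∧ 1 + u ^ 5 ≤ u ^ 5 * Real.exp ((u ^ 3)⁻¹) ∧ 1 + u ^ 3 ≤ u ^ 3 * Real.exp ((u ^ 3)⁻¹) ∧
      u ^ 3 * Real.exp (-(2 * (u ^ 3)⁻¹)) ≤ u ^ 3 - 1 := by
  have h1 : 1 ≤ u := by rw [hu]; exact sqrt_ge v
  have h0 : 0 < u := by linarith
  have h2 := Real.add_one_le_exp ((u ^ 3)⁻¹)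
  have h3 : (u ^ 3)⁻¹ ≤ 1 / 2 := by rw [hu]; exact inv3_le v
  have h4 := one_sub_exp (by positivity) h3
  refine ⟨h1, ?_, ?_, ?_⟩
  · calc 1 + u ^ 5 ≤ u ^ 2 + u ^ 5 := by nlinarith [one_le_pow₀ (n := 2) h1]
      _ = u ^ 5 * ((u ^ 3)⁻¹ + 1) := by field_simp
      _ ≤ _ := mul_le_mul_of_nonneg_left h2 (by positivity)
  · calc 1 + u ^ 3 = u ^ 3 * ((u ^ 3)⁻¹ + 1) := by field_simp
      _ ≤ _ := mul_le_mul_of_nonneg_left h2 (by positivity)
  · calc u ^ 3 * Real.exp (-(2 * (u ^ 3)⁻¹)) ≤ u ^ 3 * (1 - (u ^ 3)⁻¹) :=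
        mul_le_mul_of_nonneg_left h4 (by positivity)
      _ = _ := by field_simp

theorem WT_data (hγ : ∀ x ∈ T, ‖γ x‖ = 1) {M : ℝ} (hM : Real.exp (2 * (r * WV K)) ≤ M) :
    WData (WT T γ) (pT T) M := by
  have hW := WV_nonneg (K := K)
  have hrW : 0 ≤ (r : ℝ) * WV K := by positivity
  have hM1 : Real.exp (r * WV K) ≤ M := le_trans (Real.exp_le_exp.2 (by linarith)) hM
  have hM0 : 0 < M := (Real.exp_pos _).trans_le hM
  have hp := one_le_pT T
  refine ⟨?_, hp, fun s hs1 hs2 => ?_, fun s hs => ?_, fun s hs => ?_⟩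
  · unfold WT
    refine Differentiable.fun_finsetProd fun x _ => ?_
    have hq : ((qq x.1 : ℕ) : ℂ) ≠ 0 := by
      have := two_le_qq x.1
      exact_mod_cast (by omega : qq x.1 ≠ 0)
    refine (differentiable_const _).sub ((differentiable_const _).mul fun s => ?_)
    exact (differentiableAt_id.neg).const_cpow (Or.inl hq)
  · have h1 := prod_exp_le (T := T) (a := fun x => √(qq x.1 : ℝ) ^ 5)
      (f := fun x => 1 - γ x * ((qq x.1 : ℕ) : ℂ) ^ (-s)) (fun x hx => by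
        have h2 := norm_sub_le (1 : ℂ) (γ x * ((qq x.1 : ℕ) : ℂ) ^ (-s))
        rw [norm_one, norm_qs x.1 (hγ x hx)] at h2
        have h3 : (qq x.1 : ℝ) ^ (-s.re) ≤ √(qq x.1 : ℝ) ^ 5 := by
          rw [sqrt_pow]
          refine Real.rpow_le_rpow_of_exponent_le (one_lt_qq x.1).le ?_
          push_cast
          linarith
        have h4 := (u_facts x.1 rfl).2.1
        linarith) (fun x _ => by positivity)
    unfold WT
    refine h1.trans ?_
    rw [Finset.prod_pow]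
    have : ∏ x ∈ T, √(qq x.1 : ℝ) = pT T := rfl
    rw [this, mul_comm]
    exact mul_le_mul_of_nonneg_right hM1 (by positivity)
  · have h1 := prod_exp_le (T := T) (a := fun x => √(qq x.1 : ℝ) ^ 3)
      (f := fun x => 1 - γ x * ((qq x.1 : ℕ) : ℂ) ^ (-s)) (fun x hx => by
        have h2 := norm_sub_le (1 : ℂ) (γ x * ((qq x.1 : ℕ) : ℂ) ^ (-s))
        rw [norm_one, norm_qs x.1 (hγ x hx)] at h2
        have h3 : (qq x.1 : ℝ) ^ (-s.re) = √(qq x.1 : ℝ) ^ 3 := by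
          rw [sqrt_pow]
          congr 1
          rw [hs]
          norm_num
        have h4 := (u_facts x.1 rfl).2.2.1
        linarith) (fun x _ => by positivity)
    unfold WT
    refine h1.trans ?_
    rw [Finset.prod_pow]
    have : ∏ x ∈ T, √(qq x.1 : ℝ) = pT T := rfl
    rw [this, mul_comm]
    exact mul_le_mul_of_nonneg_right hM1 (by positivity)
  · have h1 := le_prod_exp (T := T) (a := fun x => √(qq x.1 : ℝ) ^ 3)
      (f := fun x => 1 - γ x * ((qq x.1 : ℕ) : ℂ) ^ (-s)) (fun x hx => by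
        have h2 := norm_sub_norm_le (γ x * ((qq x.1 : ℕ) : ℂ) ^ (-s)) 1
        rw [norm_one, norm_qs x.1 (hγ x hx), norm_sub_rev] at h2
        have h3 : (qq x.1 : ℝ) ^ (-s.re) = √(qq x.1 : ℝ) ^ 3 := by
          rw [sqrt_pow]
          congr 1
          rw [hs]
          norm_num
        have h4 := (u_facts x.1 rfl).2.2.2
        linarith) (fun x _ => by positivity)
    unfold WT
    refine le_trans ?_ h1
    rw [Finset.prod_pow]
    have : ∏ x ∈ T, √(qq x.1 : ℝ) = pT T := rfl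
    rw [this, mul_comm]
    refine mul_le_mul_of_nonneg_left ?_ (by positivity)
    rw [Real.exp_neg, one_div]
    exact inv_anti₀ (Real.exp_pos _) hM

theorem WT_right (hγ : ∀ x ∈ T, ‖γ x‖ = 1) {s : ℂ} (hs : 5 / 2 ≤ s.re) :
    Real.exp (-(2 * (r * WV K))) ≤ ‖WT T γ s‖ ∧ ‖WT T γ s‖ ≤ Real.exp (r * WV K) := by
  have hb : ∀ x ∈ T, ‖γ x * ((qq x.1 : ℕ) : ℂ) ^ (-s)‖ ≤ (√(qq x.1 : ℝ) ^ 3)⁻¹ := by
    intro x hx
    rw [norm_qs x.1 (hγ x hx), sqrt_pow, ← Real.rpow_neg (qq_pos x.1).le]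
    refine Real.rpow_le_rpow_of_exponent_le (one_lt_qq x.1).le ?_
    push_cast
    linarith
  constructor
  · have h1 := le_prod_exp (T := T) (a := fun _ => 1)
      (f := fun x => 1 - γ x * ((qq x.1 : ℕ) : ℂ) ^ (-s)) (fun x hx => by
        have h2 := norm_sub_norm_le 1 (γ x * ((qq x.1 : ℕ) : ℂ) ^ (-s))
        rw [norm_one] at h2
        have h3 := hb x hx
        have h4 := one_sub_exp (t := (√(qq x.1 : ℝ) ^ 3)⁻¹) (by positivity) (inv3_le x.1)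
        linarith) (fun x _ => zero_le_one)
    rw [Finset.prod_const_one, one_mul] at h1
    exact h1
  · have h1 := prod_exp_le (T := T) (a := fun _ => 1)
      (f := fun x => 1 - γ x * ((qq x.1 : ℕ) : ℂ) ^ (-s)) (fun x hx => by
        have h2 := norm_sub_le (1 : ℂ) (γ x * ((qq x.1 : ℕ) : ℂ) ^ (-s))
        rw [norm_one] at h2
        have h3 := hb x hx
        have h4 := Real.add_one_le_exp ((√(qq x.1 : ℝ) ^ 3)⁻¹)
        linarith) (fun x _ => zero_le_one)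
    rw [Finset.prod_const_one, one_mul] at h1
    exact h1

theorem d_sum {d : PV K → ℝ} {B : ℝ} (hd : ∀ x, |d x| ≤ B * Real.exp (LV x)) {σ : ℝ} (hσ : 5 / 2 ≤ σ) :
    (Summable fun x => |d x| * Real.exp (-(σ * LV x))) ∧
      ∑' x, |d x| * Real.exp (-(σ * LV x)) ≤ B * WV K := by
  have h1 : ∀ x, |d x| * Real.exp (-(σ * LV x)) ≤ B * Real.exp (-(3 / 2 * LV x)) := by
    intro x
    have hB : 0 ≤ B := by
      have := (abs_nonneg _).trans (hd x)
      have h2 := Real.exp_pos (LV x)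
      by_contra hcon
      push Not at hcon
      nlinarith
    calc |d x| * Real.exp (-(σ * LV x)) ≤ B * Real.exp (LV x) * Real.exp (-(σ * LV x)) :=
          mul_le_mul_of_nonneg_right (hd x) (Real.exp_pos _).le
      _ = B * Real.exp (LV x + -(σ * LV x)) := by rw [Real.exp_add]; ring
      _ ≤ _ := by
          refine mul_le_mul_of_nonneg_left (Real.exp_le_exp.2 ?_) hB
          have := LV_nonneg x
          nlinarith
  have h2 : Summable fun x => |d x| * Real.exp (-(σ * LV x)) :=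
    Summable.of_nonneg_of_le (fun x => by positivity) h1 ((WV_sum K).mul_left B)
  refine ⟨h2, ?_⟩
  refine (h2.tsum_le_tsum h1 ((WV_sum K).mul_left B)).trans ?_
  rw [tsum_mul_left]
  rfl

end

/-- **Uniform Landau lemma for Euler products.** -/
theorem euler.{u} (K : Type u) [Field K] [NumberField K] (N r : ℕ) {D : ℂ → ℂ} {CD : ℝ} (hD : Den D CD)
    {B ε : ℝ} (hB : 0 ≤ B) (hε : 0 < ε) :
    ∃ A : ℝ, 0 < A ∧ ∀ (d : PV K → ℝ) (κ : Fin N → ℂ) (Q : ℝ) (G : ℂ → ℂ)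
      (T : Finset (HeightOneSpectrum (𝓞 K) × Fin r)) (γ : HeightOneSpectrum (𝓞 K) × Fin r → ℂ),
      (∀ x ∈ T, ‖γ x‖ = 1) → LData N κ Q G → (∃ j, κ j = 0) → (∀ x, |d x| ≤ B * Real.exp (LV x)) →
      (∀ s : ℂ, 5 / 2 ≤ s.re → G s * ∏ x ∈ T, (1 - γ x * ((qq x.1 : ℕ) : ℂ) ^ (-s)) =
        D s * Complex.exp (DS d LV s)) →
      ∃ x, d x < 0 ∧ (qq x.1 : ℝ) ^ (x.2 + 1) ≤
        A * (Q ^ 2 * PK κ * ∏ x ∈ T, (qq x.1 : ℝ)) ^ (1 + ε) := by
  have hW := WV_nonneg (K := K)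
  have hBW : 0 ≤ B * WV K := by positivity
  have hrW : 0 ≤ (r : ℝ) * WV K := by positivity
  obtain ⟨M, hM⟩ : ∃ M : ℝ, M = Real.exp (B * WV K + 2 * (r * WV K)) := ⟨_, rfl⟩
  obtain ⟨A, hA0, hA⟩ := landau.{u} N hD (M := M) (by rw [hM]; exact Real.one_le_exp (by positivity)) hε
  refine ⟨A, hA0, fun d κ Q G T γ hγ h hκ hd hG => ?_⟩
  have := countable_primes K
  have hs1 := fun (s : ℂ) (hs : 5 / 2 ≤ s.re) => d_sum hd hs
  have hGD : ∀ s : ℂ, 5 / 2 ≤ s.re → G s * WT T γ s / D s = Complex.exp (DS d LV s) := by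
    intro s hs
    have h1 := hG s hs
    have h2 : G s * WT T γ s = D s * Complex.exp (DS d LV s) := h1
    rw [h2, mul_div_cancel_left₀ _ (hD.right_ne s hs)]
  have hWne : ∀ s : ℂ, 5 / 2 ≤ s.re → WT T γ s ≠ 0 := fun s hs =>
    norm_pos_iff.1 ((Real.exp_pos _).trans_le (WT_right hγ hs).1)
  have hGD2 : ∀ s : ℂ, 5 / 2 ≤ s.re → ‖G s / D s‖ = ‖Complex.exp (DS d LV s)‖ / ‖WT T γ s‖ := by
    intro s hs
    rw [← hGD s hs, ← norm_div]
    congr 1
    have h1 := hWne s hs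
    field_simp
  have hexpb : ∀ s : ℂ, 5 / 2 ≤ s.re → Real.exp (-(B * WV K)) ≤ ‖Complex.exp (DS d LV s)‖ ∧
      ‖Complex.exp (DS d LV s)‖ ≤ Real.exp (B * WV K) := by
    intro s hs
    have h1 := (DS_norm_le (d := d) (L := LV) (s := s) (hs1 s hs).1).trans (hs1 s hs).2
    have h2 := Complex.abs_re_le_norm (DS d LV s)
    have h3 := neg_abs_le (DS d LV s).re
    have h4 := le_abs_self (DS d LV s).re
    rw [Complex.norm_exp]
    exact ⟨Real.exp_le_exp.2 (by linarith), Real.exp_le_exp.2 (by linarith)⟩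
  obtain ⟨l, hl1, hl2⟩ := hA (Pool.Agent.TH949.LT.TT (PV K)) (cc d) (Lam LV) κ Q G (WT T γ) (pT T) h
    (WT_data hγ (by rw [hM]; exact Real.exp_le_exp.2 (by linarith))) hκ
    (cc_abs (d_sum hd (le_refl (5 / 2 : ℝ))).1).summable
    (by
      rw [(cc_abs (d_sum hd (le_refl (5 / 2 : ℝ))).1).tsum_eq, hM]
      refine Real.exp_le_exp.2 ?_
      linarith [(d_sum hd (le_refl (5 / 2 : ℝ))).2])
    (fun s hs => by
      rw [hGD s hs.ge]
      exact cc_sum (hs1 s hs.ge).1)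
    (fun s hs => by
      rw [hGD2 s hs, div_le_iff₀ (norm_pos_iff.2 (hWne s hs)), hM]
      have h1 := (hexpb s hs).2
      have h2 := (WT_right hγ hs).1
      calc ‖Complex.exp (DS d LV s)‖ ≤ Real.exp (B * WV K) := h1
        _ = Real.exp (B * WV K + 2 * (r * WV K)) * Real.exp (-(2 * (r * WV K))) := by
            rw [← Real.exp_add]
            congr 1
            ring
        _ ≤ _ := mul_le_mul_of_nonneg_left h2 (Real.exp_pos _).le)
    (fun s hs => by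
      rw [hGD2 s hs.ge, le_div_iff₀ (norm_pos_iff.2 (hWne s hs.ge)), hM, one_div, ← Real.exp_neg]
      have h1 := (hexpb s hs.ge).1
      have h2 := (WT_right hγ hs.ge).2
      calc Real.exp (-(B * WV K + 2 * (r * WV K))) * ‖WT T γ s‖ ≤
            Real.exp (-(B * WV K + 2 * (r * WV K))) * Real.exp (r * WV K) :=
            mul_le_mul_of_nonneg_left h2 (Real.exp_pos _).le
        _ = Real.exp (-(B * WV K) + -(r * WV K)) := by
            rw [← Real.exp_add]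
            congr 1
            ring
        _ ≤ Real.exp (-(B * WV K)) := Real.exp_le_exp.2 (by linarith)
        _ ≤ _ := h1)
  -- a negative coefficient
  have h1 : ∃ i, d (l.2 i) < 0 := by
    by_contra hcon
    push Not at hcon
    have : 0 ≤ cc d l := div_nonneg (Finset.prod_nonneg fun i _ => hcon i) (Nat.cast_nonneg _)
    linarith
  obtain ⟨i, hi⟩ := h1
  have h2 : LV (l.2 i) ≤ Lam LV l :=
    Finset.single_le_sum (f := fun i => LV (l.2 i)) (fun j _ => LV_nonneg _) (Finset.mem_univ i)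
  refine ⟨l.2 i, hi, ?_⟩
  rw [← exp_LV, ← pT_sq]
  exact (Real.exp_le_exp.2 h2).trans hl2

end Pool.Agent.TH949.UL
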