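import Pool.Agent.TH949.LT.Smooth

/-! The scaled kernel and an approximate contour shift on a rectangle. -/

set_option autoImplicit false

namespace Pool.Agent.TH949.UL

open Complex MeasureTheory Set Filter Topology
open Pool.Agent.TH949.LT (VV VV_nonneg VV_le VV_zero kernel term_norm)

/-- scaled Gauss tail -/
noncomputable def VK (κ L : ℝ) : ℝ := VV (L / √κ)

theorem VK_nonneg (κ L : ℝ) : 0 ≤ VK κ L := VV_nonneg _

theorem VK_le {κ c : ℝ} (hκ : 1 ≤ κ) (hc : 1 ≤ c) (L : ℝ) :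
    VK κ L ≤ Real.exp (κ * c ^ 2 + c * L) := by
  have hs : 1 ≤ √κ := Real.one_le_sqrt.2 hκ
  have hs2 : √κ ^ 2 = κ := Real.sq_sqrt (by linarith)
  have hcs : 1 ≤ c * √κ := by nlinarith
  have h := VV_le (c := c * √κ) (by linarith) (L / √κ)
  unfold VK
  refine h.trans ((div_le_self (Real.exp_pos _).le hcs).trans (le_of_eq ?_))
  congr 1
  have : √κ ≠ 0 := by linarith
  rw [mul_pow, hs2]
  field_simp

/-- `exp (κ w²) / w` on a line -/
noncomputable def EK (κ a v : ℝ) : ℂ := cexp (κ * (a + v * I) ^ 2) / (a + v * I)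

theorem kernelK {κ c : ℝ} (hκ : 0 < κ) (hc : 0 < c) (L : ℝ) :
    ∫ v : ℝ, EK κ c v * cexp ((c + v * I) * L) = 2 * Real.pi * VK κ L := by
  have hr : 0 < √κ := Real.sqrt_pos.2 hκ
  have hr2 : √κ ^ 2 = κ := Real.sq_sqrt hκ.le
  have hrc : ((√κ : ℝ) : ℂ) ≠ 0 := by exact_mod_cast hr.ne'
  have hr2c : ((√κ : ℝ) : ℂ) ^ 2 = (κ : ℂ) := by rw [← Complex.ofReal_pow, hr2]
  have h1 := kernel (c := c * √κ) (by positivity) (L / √κ)
  unfold VK
  rw [← h1]
  set g : ℝ → ℂ := fun v => cexp (((c * √κ : ℝ) + v * I) ^ 2 + ((c * √κ : ℝ) + v * I) * (L / √κ : ℝ)) /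
    ((c * √κ : ℝ) + v * I) with hg
  have h2 := MeasureTheory.Measure.integral_comp_mul_left g (√κ)
  have h3 : ∀ v : ℝ, g (√κ * v) = ((√κ : ℝ) : ℂ)⁻¹ * (EK κ c v * cexp ((c + v * I) * L)) := by
    intro v
    have hne : (c : ℂ) + v * I ≠ 0 := by
      intro h
      have := congrArg Complex.re h
      simp at this
      exact hc.ne' this
    rw [hg]
    simp only [EK]
    have e1 : (((c * √κ : ℝ) : ℂ) + ((√κ * v : ℝ) : ℂ) * I) = ((√κ : ℝ) : ℂ) * (c + v * I) := by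
      push_cast
      ring
    have e2 : cexp ((((√κ : ℝ) : ℂ) * (c + v * I)) ^ 2 + (((√κ : ℝ) : ℂ) * (c + v * I)) * (L / √κ : ℝ)) =
        cexp (κ * (c + v * I) ^ 2) * cexp ((c + v * I) * L) := by
      rw [← Complex.exp_add]
      congr 1
      rw [mul_pow, hr2c]
      push_cast
      field_simp
    rw [e1, e2]
    field_simp
  simp_rw [h3] at h2
  rw [integral_const_mul] at h2
  have h4 : |(√κ)⁻¹| = (√κ)⁻¹ := abs_of_pos (by positivity)
  rw [h4, Complex.real_smul] at h2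
  push_cast at h2
  have h5 := mul_left_cancel₀ (inv_ne_zero hrc) h2
  rw [h5]

theorem norm_EK_le {κ a : ℝ} (ha : 1 ≤ |a|) (v : ℝ) :
    ‖EK κ a v‖ ≤ Real.exp (κ * (a ^ 2 - v ^ 2)) := by
  unfold EK
  have h1 : ‖cexp (κ * ((a : ℂ) + v * I) ^ 2)‖ = Real.exp (κ * (a ^ 2 - v ^ 2)) := by
    rw [Complex.norm_exp]
    congr 1
    simp [pow_two]
  have h2 : 1 ≤ ‖(a : ℂ) + v * I‖ := by
    refine ha.trans ?_
    have := Complex.abs_re_le_norm ((a : ℂ) + v * I)
    simpa using this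
  rw [norm_div, h1]
  exact div_le_self (Real.exp_pos _).le h2

theorem EK_cont {κ a : ℝ} (ha : a ≠ 0) : Continuous (EK κ a) := by
  unfold EK
  refine Continuous.div (by fun_prop) (by fun_prop) fun v h => ?_
  have := congrArg Complex.re h
  simp at this
  exact ha this

theorem EK_int {κ a : ℝ} (hκ : 0 < κ) (ha : 1 ≤ |a|) : Integrable (EK κ a) := by
  have h1 : Integrable fun v : ℝ => Real.exp (κ * a ^ 2) * Real.exp (-κ * v ^ 2) :=
    (integrable_exp_neg_mul_sq hκ).const_mul _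
  refine h1.mono' (EK_cont ?_).aestronglyMeasurable (Eventually.of_forall fun v => ?_)
  · intro h
    rw [h] at ha
    norm_num at ha
  · refine (norm_EK_le ha v).trans (le_of_eq ?_)
    rw [← Real.exp_add]
    congr 1
    ring

theorem EK_pos {κ c : ℝ} (hκ : 0 < κ) (hc : 0 < c) : ∫ v : ℝ, EK κ c v = Real.pi := by
  have h := kernelK hκ hc 0
  have h2 : VK κ 0 = 1 / 2 := by
    unfold VK
    rw [zero_div, VV_zero]
  rw [h2] at h
  simp only [Complex.ofReal_zero, mul_zero, Complex.exp_zero, mul_one] at h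
  rw [h]
  push_cast
  ring

theorem EK_neg {κ c : ℝ} (hκ : 0 < κ) (hc : c < 0) : ∫ v : ℝ, EK κ c v = -Real.pi := by
  have h1 := EK_pos (κ := κ) (c := -c) hκ (by linarith)
  rw [← integral_neg_eq_self]
  rw [← h1, ← integral_neg]
  congr 1
  ext v
  unfold EK
  have e : ((-c : ℝ) : ℂ) + v * I = -((c : ℂ) + (-v : ℝ) * I) := by
    push_cast
    ring
  rw [e, neg_sq, div_neg, neg_neg]

/-- size of the tails -/
noncomputable def TT (κ V : ℝ) : ℝ := 2 * Real.exp (16 * κ - (κ - 1) * V ^ 2)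

theorem TT_pos (κ V : ℝ) : 0 < TT κ V := by unfold TT; positivity

/-- integral over the complement of an interval -/
theorem tail_int {κ c a b V : ℝ} (hκ : 1 ≤ κ) (hc : 1 ≤ |c|) (hc4 : |c| ≤ 4) (hV : 0 ≤ V) (ha : a ≤ -V)
    (hb : V ≤ b) {h : ℝ → ℂ} {B : ℝ} (hB0 : 0 ≤ B) (hB : ∀ v, v ∉ Ioc a b → ‖h v‖ ≤ B) :
    ‖∫ v in (Ioc a b)ᶜ, h v * EK κ c v‖ ≤ B * TT κ V := by
  have hint : Integrable fun v : ℝ => Real.exp (-1 * v ^ 2) := integrable_exp_neg_mul_sq one_pos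
  have h0 : ∀ v ∈ (Ioc a b)ᶜ, ‖h v * EK κ c v‖ ≤
      B * Real.exp (16 * κ - (κ - 1) * V ^ 2) * Real.exp (-1 * v ^ 2) := by
    intro v hv
    rw [norm_mul]
    have h1 := norm_EK_le (κ := κ) hc v
    have h2 : V ^ 2 ≤ v ^ 2 := by
      rw [← sq_abs v]
      refine pow_le_pow_left₀ hV ?_ 2
      rw [mem_compl_iff, mem_Ioc, not_and_or] at hv
      rcases hv with h3 | h3
      · rw [le_abs]; right; linarith
      · rw [le_abs]; left; linarith
    have h3 : c ^ 2 ≤ 16 := by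
      rw [← sq_abs c]
      nlinarith [abs_nonneg c]
    have h4 : Real.exp (κ * (c ^ 2 - v ^ 2)) ≤
        Real.exp (16 * κ - (κ - 1) * V ^ 2) * Real.exp (-1 * v ^ 2) := by
      rw [← Real.exp_add]
      refine Real.exp_le_exp.2 ?_
      nlinarith
    calc _ ≤ B * Real.exp (κ * (c ^ 2 - v ^ 2)) := mul_le_mul (hB v hv) h1 (norm_nonneg _) hB0
      _ ≤ _ := by rw [mul_assoc]; exact mul_le_mul_of_nonneg_left h4 hB0
  have h1 : ‖∫ v in (Ioc a b)ᶜ, h v * EK κ c v‖ ≤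
      ∫ v in (Ioc a b)ᶜ, B * Real.exp (16 * κ - (κ - 1) * V ^ 2) * Real.exp (-1 * v ^ 2) := by
    refine norm_integral_le_of_norm_le ((hint.const_mul _).integrableOn) ?_
    exact (ae_restrict_iff' measurableSet_Ioc.compl).2 (Eventually.of_forall h0)
  refine h1.trans ?_
  have h2 : ∫ v in (Ioc a b)ᶜ, B * Real.exp (16 * κ - (κ - 1) * V ^ 2) * Real.exp (-1 * v ^ 2) ≤
      ∫ v : ℝ, B * Real.exp (16 * κ - (κ - 1) * V ^ 2) * Real.exp (-1 * v ^ 2) :=
    setIntegral_le_integral (hint.const_mul _) (Eventually.of_forall fun v => by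
      simp only [Pi.zero_apply]
      positivity)
  refine h2.trans ?_
  rw [integral_const_mul, integral_gaussian, div_one]
  have h3 : √Real.pi ≤ 2 := by
    rw [Real.sqrt_le_left (by norm_num)]
    linarith [Real.pi_le_four]
  unfold TT
  have h4 : 0 ≤ B * Real.exp (16 * κ - (κ - 1) * V ^ 2) := by positivity
  calc _ ≤ B * Real.exp (16 * κ - (κ - 1) * V ^ 2) * 2 := mul_le_mul_of_nonneg_left h3 h4
    _ = _ := by ring

theorem norm_expK (κ : ℝ) (w : ℂ) : ‖cexp (κ * w ^ 2)‖ = Real.exp (κ * (w.re ^ 2 - w.im ^ 2)) := by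
  rw [Complex.norm_exp]
  congr 1
  simp [pow_two]

/-- **approximate residue theorem** -/
theorem crossR {h : ℂ → ℂ} {κ a b V B : ℝ} (hκ : 1 ≤ κ) (hV : 1 ≤ V) (ha : a ≤ -V) (hb : V ≤ b)
    (hB0 : 0 ≤ B)
    (hh : DifferentiableOn ℂ h (Icc (-1 : ℝ) 4 ×ℂ Icc a b))
    (hcont : Continuous fun v : ℝ => h ((4 : ℝ) + v * I))
    (hR : ∀ v : ℝ, ‖h ((4 : ℝ) + v * I)‖ ≤ B)
    (hH : ∀ x : ℝ, -1 ≤ x → x ≤ 4 → ‖h (x + a * I)‖ ≤ B ∧ ‖h (x + b * I)‖ ≤ B)
    (h00 : ‖h 0‖ ≤ B) :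
    ‖(∫ v : ℝ, h ((4 : ℝ) + v * I) * EK κ 4 v) - (∫ v in a..b, h ((-1 : ℝ) + v * I) * EK κ (-1) v) -
      2 * Real.pi * h 0‖ ≤ 25 * B * TT κ V := by
  have hab : a ≤ b := by linarith
  have hκ0 : 0 < κ := by linarith
  set K : Set ℂ := Icc (-1 : ℝ) 4 ×ℂ Icc a b with hK
  have hK0 : K ∈ 𝓝 (0 : ℂ) := by
    have hopen : IsOpen ((Ioo (-1 : ℝ) 4) ×ℂ (Ioo a b)) := isOpen_Ioo.reProdIm isOpen_Ioo
    refine mem_of_superset (hopen.mem_nhds ?_) ?_
    · rw [Complex.mem_reProdIm]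
      simp only [Complex.zero_re, Complex.zero_im, mem_Ioo]
      refine ⟨⟨by norm_num, by norm_num⟩, by linarith, by linarith⟩
    · intro z hz
      rw [Complex.mem_reProdIm] at hz ⊢
      exact ⟨Ioo_subset_Icc_self hz.1, Ioo_subset_Icc_self hz.2⟩
  have hds : DifferentiableOn ℂ (dslope h 0) K := (Complex.differentiableOn_dslope hK0).2 hh
  set g : ℂ → ℂ := fun w => dslope h 0 w * cexp (κ * w ^ 2) with hg
  have hgd : DifferentiableOn ℂ g K := hds.mul (by fun_prop)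
  have hgne : ∀ w : ℂ, w ≠ 0 → g w = (h w - h 0) * (cexp (κ * w ^ 2) / w) := by
    intro w hw
    rw [hg]
    simp only
    rw [dslope_of_ne _ hw, slope_def_field, sub_zero]
    ring
  -- rectangle
  have hrect := Complex.integral_boundary_rect_eq_zero_of_differentiableOn g
    ((-1 : ℝ) + a * I) ((4 : ℝ) + b * I) (by
      have e1 : (((-1 : ℝ) : ℂ) + a * I).re = -1 := by simp
      have e2 : (((4 : ℝ) : ℂ) + b * I).re = 4 := by simp
      have e3 : (((-1 : ℝ) : ℂ) + a * I).im = a := by simp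
      have e4 : (((4 : ℝ) : ℂ) + b * I).im = b := by simp
      rw [e1, e2, e3, e4, uIcc_of_le (by norm_num), uIcc_of_le hab]
      exact hgd)
  have e1 : (((-1 : ℝ) : ℂ) + a * I).re = -1 := by simp
  have e2 : (((4 : ℝ) : ℂ) + b * I).re = 4 := by simp
  have e3 : (((-1 : ℝ) : ℂ) + a * I).im = a := by simp
  have e4 : (((4 : ℝ) : ℂ) + b * I).im = b := by simp
  rw [e1, e2, e3, e4] at hrect
  -- horizontal bounds
  have hTT : Real.exp (κ * (16 - V ^ 2)) ≤ TT κ V := by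
    unfold TT
    have h1 : Real.exp (κ * (16 - V ^ 2)) ≤ Real.exp (16 * κ - (κ - 1) * V ^ 2) := by
      refine Real.exp_le_exp.2 ?_
      nlinarith [sq_nonneg V]
    linarith [Real.exp_pos (16 * κ - (κ - 1) * V ^ 2)]
  have hT0 := TT_pos κ V
  have hhor : ∀ (y x : ℝ), V ≤ |y| → -1 ≤ x → x ≤ 4 → ‖h (x + y * I)‖ ≤ B →
      ‖g (x + y * I)‖ ≤ 2 * B * TT κ V := by
    intro y x hy hx1 hx2 hb'
    have him : ((x : ℂ) + y * I).im = y := by simp
    have hre : ((x : ℂ) + y * I).re = x := by simp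
    have hw1 : 1 ≤ ‖(x : ℂ) + y * I‖ := by
      refine (hV.trans hy).trans ?_
      have := Complex.abs_im_le_norm ((x : ℂ) + y * I)
      rwa [him] at this
    have hne : (x : ℂ) + y * I ≠ 0 := by
      intro h0
      rw [h0, norm_zero] at hw1
      linarith
    rw [hgne _ hne, norm_mul, norm_div, norm_expK, hre, him]
    have h1 : ‖h (x + y * I) - h 0‖ ≤ 2 * B := by
      refine (norm_sub_le _ _).trans ?_
      linarith
    have h2 : Real.exp (κ * (x ^ 2 - y ^ 2)) / ‖(x : ℂ) + y * I‖ ≤ TT κ V := by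
      refine (div_le_self (Real.exp_pos _).le hw1).trans (le_trans (Real.exp_le_exp.2 ?_) hTT)
      refine mul_le_mul_of_nonneg_left ?_ hκ0.le
      have h3 : V ^ 2 ≤ y ^ 2 := by
        rw [← sq_abs y]
        exact pow_le_pow_left₀ (by linarith) hy 2
      nlinarith
    exact mul_le_mul h1 h2 (by positivity) (by linarith)
  have hI1 : ‖∫ x : ℝ in (-1)..4, g (x + a * I)‖ ≤ 2 * B * TT κ V * |4 - (-1)| := by
    refine intervalIntegral.norm_integral_le_of_norm_le_const fun x hx => ?_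
    rw [uIoc_of_le (by norm_num)] at hx
    exact hhor a x (by rw [le_abs]; right; linarith) hx.1.le hx.2 (hH x hx.1.le hx.2).1
  have hI2 : ‖∫ x : ℝ in (-1)..4, g (x + b * I)‖ ≤ 2 * B * TT κ V * |4 - (-1)| := by
    refine intervalIntegral.norm_integral_le_of_norm_le_const fun x hx => ?_
    rw [uIoc_of_le (by norm_num)] at hx
    exact hhor b x (by rw [le_abs]; left; linarith) hx.1.le hx.2 (hH x hx.1.le hx.2).2
  have h5 : |(4 : ℝ) - (-1)| = 5 := by norm_num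
  rw [h5] at hI1 hI2
  -- line integrals of g on the segment
  have hKc : ∀ c : ℝ, -1 ≤ c → c ≤ 4 → ContinuousOn (fun v : ℝ => h (c + v * I)) (Icc a b) := by
    intro c h1 h2
    refine hh.continuousOn.comp (by fun_prop) fun v hv => ?_
    rw [hK, Complex.mem_reProdIm]
    simp only [Complex.add_re, Complex.ofReal_re, Complex.mul_re, Complex.I_re, mul_zero,
      Complex.ofReal_im, Complex.I_im, mul_one, sub_self, add_zero, Complex.add_im, Complex.mul_im,
      zero_add]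
    exact ⟨⟨h1, h2⟩, hv⟩
  have hseg : ∀ c : ℝ, 1 ≤ |c| → -1 ≤ c → c ≤ 4 →
      ∫ v in a..b, g (c + v * I) = (∫ v in a..b, h (c + v * I) * EK κ c v) -
        h 0 * ∫ v in a..b, EK κ c v := by
    intro c hc0 hc1 hc2
    have hc : c ≠ 0 := by
      intro h0
      rw [h0] at hc0
      norm_num at hc0
    rw [← intervalIntegral.integral_const_mul, ← intervalIntegral.integral_sub]
    · refine intervalIntegral.integral_congr fun v _ => ?_
      have hne : (c : ℂ) + v * I ≠ 0 := by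
        intro h0
        have := congrArg Complex.re h0
        simp at this
        exact hc this
      rw [hgne _ hne]
      unfold EK
      ring
    · refine ContinuousOn.intervalIntegrable ?_
      rw [uIcc_of_le hab]
      exact (hKc c hc1 hc2).mul (EK_cont hc).continuousOn
    · exact ((EK_cont hc).const_smul (h 0)).intervalIntegrable _ _
  have hsR := hseg 4 (by norm_num) (by norm_num) le_rfl
  have hsL := hseg (-1) (by norm_num) le_rfl (by norm_num)
  -- full line integrals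
  have hsplit : ∀ (c : ℝ), 1 ≤ |c| → ∫ v in a..b, EK κ c v =
      (∫ v : ℝ, EK κ c v) - ∫ v in (Ioc a b)ᶜ, EK κ c v := by
    intro c hc
    rw [intervalIntegral.integral_of_le hab, eq_sub_iff_add_eq]
    exact integral_add_compl measurableSet_Ioc (EK_int hκ0 hc)
  have hfull : ∫ v in a..b, h ((4 : ℝ) + v * I) * EK κ 4 v =
      (∫ v : ℝ, h ((4 : ℝ) + v * I) * EK κ 4 v) - ∫ v in (Ioc a b)ᶜ, h ((4 : ℝ) + v * I) * EK κ 4 v := by
    rw [intervalIntegral.integral_of_le hab, eq_sub_iff_add_eq]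
    refine integral_add_compl measurableSet_Ioc ?_
    refine ((EK_int hκ0 (a := 4) (by norm_num)).norm.const_mul B).mono' ?_ (Eventually.of_forall fun v => ?_)
    · exact (hcont.mul (EK_cont (by norm_num))).aestronglyMeasurable
    · rw [norm_mul]
      exact mul_le_mul_of_nonneg_right (hR v) (norm_nonneg _)
  have ht1 := tail_int (h := fun v => h ((4 : ℝ) + v * I)) hκ (c := 4) (by norm_num) (by norm_num)
    (by linarith) ha hb hB0 fun v _ => hR v
  have ht2 := tail_int (h := fun _ => (1 : ℂ)) hκ (c := 4) (by norm_num) (by norm_num)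
    (by linarith) ha hb (B := 1) zero_le_one fun v _ => by simp
  have ht3 := tail_int (h := fun _ => (1 : ℂ)) hκ (c := -1) (by norm_num) (by norm_num)
    (by linarith) ha hb (B := 1) zero_le_one fun v _ => by simp
  simp only [one_mul] at ht2 ht3
  have hEp := EK_pos hκ0 (c := 4) (by norm_num)
  have hEn := EK_neg hκ0 (c := -1) (by norm_num)
  have hs4 := hsplit 4 (by norm_num)
  have hs1 := hsplit (-1) (by norm_num)
  rw [hEp] at hs4
  rw [hEn] at hs1
  rw [hs4, hfull] at hsR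
  rw [hs1] at hsL
  -- assemble
  have hI : I * I = -1 := Complex.I_mul_I
  simp only [smul_eq_mul] at hrect
  have key : (∫ v : ℝ, h ((4 : ℝ) + v * I) * EK κ 4 v) -
      (∫ v in a..b, h ((-1 : ℝ) + v * I) * EK κ (-1) v) - 2 * Real.pi * h 0 =
      (∫ v in (Ioc a b)ᶜ, h ((4 : ℝ) + v * I) * EK κ 4 v) -
      h 0 * (∫ v in (Ioc a b)ᶜ, EK κ 4 v) + h 0 * (∫ v in (Ioc a b)ᶜ, EK κ (-1) v) +
      I * ((∫ x : ℝ in (-1)..4, g (x + a * I)) - ∫ x : ℝ in (-1)..4, g (x + b * I)) := by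
    have h6 := congrArg (fun z => I * z) hrect
    simp only [mul_zero] at h6
    rw [hsR, hsL] at h6
    push_cast at h6 ⊢
    linear_combination (-1 : ℂ) * h6 + ((∫ v : ℝ, h (4 + v * I) * EK κ 4 v) -
      (∫ v in a..b, h (-1 + v * I) * EK κ (-1) v) - 2 * Real.pi * h 0 -
      (∫ v in (Ioc a b)ᶜ, h (4 + v * I) * EK κ 4 v) +
      h 0 * (∫ v in (Ioc a b)ᶜ, EK κ 4 v) - h 0 * (∫ v in (Ioc a b)ᶜ, EK κ (-1) v)) * hI
  rw [key]
  have n1 := norm_add_le ((∫ v in (Ioc a b)ᶜ, h ((4 : ℝ) + v * I) * EK κ 4 v) -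
      h 0 * (∫ v in (Ioc a b)ᶜ, EK κ 4 v) + h 0 * (∫ v in (Ioc a b)ᶜ, EK κ (-1) v))
      (I * ((∫ x : ℝ in (-1)..4, g (x + a * I)) - ∫ x : ℝ in (-1)..4, g (x + b * I)))
  have n2 := norm_add_le ((∫ v in (Ioc a b)ᶜ, h ((4 : ℝ) + v * I) * EK κ 4 v) -
      h 0 * (∫ v in (Ioc a b)ᶜ, EK κ 4 v)) (h 0 * (∫ v in (Ioc a b)ᶜ, EK κ (-1) v))
  have n3 := norm_sub_le (∫ v in (Ioc a b)ᶜ, h ((4 : ℝ) + v * I) * EK κ 4 v)
      (h 0 * (∫ v in (Ioc a b)ᶜ, EK κ 4 v))
  have n4 : ‖h 0 * (∫ v in (Ioc a b)ᶜ, EK κ 4 v)‖ ≤ B * TT κ V := by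
    rw [norm_mul]
    exact mul_le_mul h00 ht2 (norm_nonneg _) hB0
  have n5 : ‖h 0 * (∫ v in (Ioc a b)ᶜ, EK κ (-1) v)‖ ≤ B * TT κ V := by
    rw [norm_mul]
    exact mul_le_mul h00 ht3 (norm_nonneg _) hB0
  have n6 : ‖I * ((∫ x : ℝ in (-1)..4, g (x + a * I)) - ∫ x : ℝ in (-1)..4, g (x + b * I))‖ ≤
      20 * (B * TT κ V) := by
    rw [norm_mul, Complex.norm_I, one_mul]
    refine (norm_sub_le _ _).trans ?_
    linarith
  have hBT : 0 ≤ B * TT κ V := by positivity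
  linarith

end Pool.Agent.TH949.UL
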