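import Pool.Agent.TH949.UL.Main

/-! **The uniform Landau lemma**, final form. -/

set_option autoImplicit false

namespace Pool.Agent.TH949.UL

open Complex MeasureTheory Set Filter Topology
open Pool.Agent.TH949.LT

variable {N : ℕ}

theorem exists_far' (κ : Fin N → ℂ) {T0 : ℝ} (hT0 : 0 < T0) : ∃ m : ℕ, m ≤ N ∧ Far κ (T0 * 16 ^ m) := by
  by_contra hcon
  push Not at hcon
  have h1 : ∀ m : Fin (N + 1), ∃ j : Fin N, T0 * 16 ^ (m : ℕ) / 4 < |(κ j).im| ∧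
      |(κ j).im| < 4 * (T0 * 16 ^ (m : ℕ)) := by
    intro m
    have h4 := hcon m (Nat.lt_succ_iff.1 m.2)
    unfold Far at h4
    push Not at h4
    exact h4
  choose f hf using h1
  obtain ⟨m, m', hne, he⟩ := Fintype.exists_ne_map_eq_of_card_lt f (by simp)
  wlog hlt : m < m' generalizing m m'
  · exact this m' m hne.symm he.symm (lt_of_le_of_ne (not_lt.1 hlt) hne.symm)
  have h5 : (16 : ℝ) ^ ((m : ℕ) + 1) ≤ 16 ^ (m' : ℕ) :=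
    pow_le_pow_right₀ (by norm_num) (Nat.succ_le_of_lt hlt)
  have h6 := (hf m).2
  have h7 := (hf m').1
  rw [← he] at h7
  rw [pow_succ] at h5
  have h8 := mul_le_mul_of_nonneg_left h5 hT0.le
  linarith

theorem exists_T0 {D : ℂ → ℂ} {CD : ℝ} (hD : Den D CD) (N : ℕ) {T : ℝ} (hT : 0 < T) :
    ∃ T0 : ℝ, T ≤ T0 ∧ ∀ m : ℕ, m ≤ N → ∀ x : ℝ, D (x + (T0 * 16 ^ m : ℝ) * I) ≠ 0 := by
  have hne : ∃ z, D z ≠ 0 := ⟨((0 : ℝ) : ℂ), hD.real_ne 0⟩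
  have hf := zeros_finite hD.diff hne ((T + 1) * 16 ^ N)
  have hf2 : (⋃ m ∈ Finset.range (N + 1), (fun z : ℂ => z.im / 16 ^ m) ''
      {z : ℂ | z ∈ KR ((T + 1) * 16 ^ N) ∧ D z = 0}).Finite :=
    Set.Finite.biUnion (Finset.finite_toSet _) fun m _ => hf.image _
  obtain ⟨T0, hT0, hT02⟩ := (Icc_infinite (show T < T + 1 by linarith)).exists_notMem_finite hf2
  refine ⟨T0, hT0.1, fun m hm x h0 => hT02 ?_⟩
  rw [mem_iUnion₂]
  have h16 : (0 : ℝ) < 16 ^ m := by positivity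
  have hxy : ∀ y : ℝ, ((x : ℂ) + y * I).im = y ∧ ((x : ℂ) + y * I).re = x := fun y => by simp
  have him : ((x : ℂ) + (T0 * 16 ^ m : ℝ) * I).im = T0 * 16 ^ m := (hxy _).1
  have hre : ((x : ℂ) + (T0 * 16 ^ m : ℝ) * I).re = x := (hxy _).2
  refine ⟨m, Finset.mem_coe.2 (Finset.mem_range.2 (Nat.lt_succ_iff.2 hm)),
    (x : ℂ) + (T0 * 16 ^ m : ℝ) * I, ⟨mem_KR.2 ?_, h0⟩, ?_⟩
  · rw [him, hre]
    have h1 : x < 5 / 2 := by
      by_contra hcon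
      push Not at hcon
      exact hD.right_ne _ (by rw [hre]; exact hcon) h0
    have h2 : -3 / 2 < x := by
      by_contra hcon
      push Not at hcon
      exact D_left_ne hD (by rw [hre]; exact hcon) h0
    have h3 : (16 : ℝ) ^ m ≤ 16 ^ N := pow_le_pow_right₀ (by norm_num) hm
    have h4 : T0 * 16 ^ m ≤ (T + 1) * 16 ^ N := mul_le_mul hT0.2 h3 h16.le (by linarith)
    have h5 : 0 ≤ T0 * 16 ^ m := mul_nonneg (by linarith [hT0.1]) h16.le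
    refine ⟨⟨by linarith, by linarith⟩, by linarith, h4⟩
  · simp only
    rw [him]
    field_simp

/-- **Uniform Landau lemma.** -/
theorem landau.{u} (N : ℕ) {D : ℂ → ℂ} {CD : ℝ} (hD : Den D CD) {M ε : ℝ} (hM : 1 ≤ M) (hε : 0 < ε) :
    ∃ A : ℝ, 0 < A ∧ ∀ (ι : Type u) [Countable ι] (c Λ : ι → ℝ) (κ : Fin N → ℂ) (Q : ℝ) (G : ℂ → ℂ),
      ∀ (W : ℂ → ℂ) (p : ℝ),
      LData N κ Q G → WData W p M → (∃ j, κ j = 0) →
      (Summable fun l => |c l| * Real.exp (-(5 / 2 * Λ l))) →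
      (∑' l, |c l| * Real.exp (-(5 / 2 * Λ l)) ≤ M) →
      (∀ s : ℂ, s.re = 5 / 2 → HasSum (fun l => (c l : ℂ) * cexp (-(s * Λ l))) (G s * W s / D s)) →
      (∀ s : ℂ, 5 / 2 ≤ s.re → ‖G s / D s‖ ≤ M) →
      (∀ s : ℂ, s.re = 5 / 2 → 1 / M ≤ ‖G s / D s‖) →
      ∃ l, c l < 0 ∧ Real.exp (Λ l) ≤ A * (Q ^ 2 * PK κ * p ^ 2) ^ (1 + ε) := by
  have hpos : 0 ≤ 2 * M ^ 2 * (16 / 9 : ℝ) ^ N := by positivity
  obtain ⟨T0, hT0, hT0D⟩ := exists_T0 hD N (T := 16 + 2 * M ^ 2 * (16 / 9) ^ N) (by linarith)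
  have h16 : ∀ m : ℕ, (1 : ℝ) ≤ 16 ^ m := fun m => one_le_pow₀ (by norm_num)
  have hT016 : ∀ m : ℕ, 16 + 2 * M ^ 2 * (16 / 9 : ℝ) ^ N ≤ T0 * 16 ^ m := by
    intro m
    have := h16 m
    nlinarith
  choose! A hA1 hA using fun (m : ℕ) (hm : m ≤ N) =>
    main_t.{u} N hD hM hε (t := T0 * 16 ^ m) (by linarith [hT016 m]) (hT0D m hm)
  refine ⟨∑ m ∈ Finset.range (N + 1), A m, ?_, ?_⟩
  · refine Finset.sum_pos (fun m hm => ?_) ⟨0, by simp⟩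
    linarith [hA1 m (Nat.lt_succ_iff.1 (Finset.mem_range.1 hm))]
  intro ι _ c Λ κ Q G W p h hW hκ0 hs hsM hF hFM hlow
  obtain ⟨j0, hj0⟩ := hκ0
  obtain ⟨m, hm, hfar⟩ := exists_far' κ (T0 := T0) (by linarith)
  have ht := hT016 m
  have hp2b := p2_ratio (by linarith) hfar hj0
  have hp2c : 2 * M ^ 4 * p2 κ 0 ≤ p2 κ (T0 * 16 ^ m) := by
    refine le_trans (mul_le_mul_of_nonneg_right ?_ (p2_nonneg κ 0)) hp2b
    have h1 : 2 * M ^ 2 * (16 / 9 : ℝ) ^ N ≤ T0 * 16 ^ m := by linarith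
    have h2 : (2 * M ^ 2 * (16 / 9 : ℝ) ^ N) ^ 2 ≤ (T0 * 16 ^ m) ^ 2 := pow_le_pow_left₀ (by positivity) h1 2
    have h3 : (9 / 16 : ℝ) ^ N * (2 * M ^ 2 * (16 / 9 : ℝ) ^ N) ^ 2 = 4 * M ^ 4 * (16 / 9 : ℝ) ^ N := by
      have h4 : (9 / 16 : ℝ) ^ N * (16 / 9 : ℝ) ^ N = 1 := by
        rw [← mul_pow]
        norm_num
      linear_combination 4 * M ^ 4 * (16 / 9 : ℝ) ^ N * h4
    have h5 : (1 : ℝ) ≤ (16 / 9 : ℝ) ^ N := one_le_pow₀ (by norm_num)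
    have h6 := mul_le_mul_of_nonneg_left h2 (show (0 : ℝ) ≤ (9 / 16 : ℝ) ^ N by positivity)
    rw [h3] at h6
    have h7 : 0 ≤ M ^ 4 := by positivity
    nlinarith
  obtain ⟨l, hl1, hl2⟩ := hA m hm ι c Λ κ Q G W p h hW hfar hp2c hs hsM hF hFM hlow
  refine ⟨l, hl1, hl2.trans (mul_le_mul_of_nonneg_right ?_ ?_)⟩
  · refine Finset.single_le_sum (f := A) (fun i hi => ?_) (Finset.mem_range.2 (Nat.lt_succ_iff.2 hm))
    linarith [hA1 i (Nat.lt_succ_iff.1 (Finset.mem_range.1 hi))]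
  · have := one_le_PK κ
    have := h.one_le
    have := hW.one_le
    positivity

end Pool.Agent.TH949.UL
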