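import Pool.Agent.TH949.UL.Num

/-! **The uniform Landau lemma**: a quotient `F = G / D` with `D` fixed and without real zeros, with real
Dirichlet coefficients and a functional equation, has a negative coefficient at most a power `1 + ε` of
its analytic conductor. -/

set_option autoImplicit false

namespace Pool.Agent.TH949.UL

open Complex MeasureTheory Set Filter Topology
open Pool.Agent.TH949.LT

theorem main_t.{u} (N : ℕ) {D : ℂ → ℂ} {CD : ℝ} (hD : Den D CD) {M ε t : ℝ} (hM : 1 ≤ M) (hε : 0 < ε)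
    (ht : 16 ≤ t) (htD : ∀ x : ℝ, D (x + t * I) ≠ 0) :
    ∃ A : ℝ, 1 ≤ A ∧ ∀ (ι : Type u) [Countable ι] (c Λ : ι → ℝ) (κ : Fin N → ℂ) (Q : ℝ) (G : ℂ → ℂ),
      ∀ (W : ℂ → ℂ) (p : ℝ),
      LData N κ Q G → WData W p M → Far κ t → 2 * M ^ 4 * p2 κ 0 ≤ p2 κ t →
      (Summable fun l => |c l| * Real.exp (-(5 / 2 * Λ l))) →
      (∑' l, |c l| * Real.exp (-(5 / 2 * Λ l)) ≤ M) →
      (∀ s : ℂ, s.re = 5 / 2 → HasSum (fun l => (c l : ℂ) * cexp (-(s * Λ l))) (G s * W s / D s)) →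
      (∀ s : ℂ, 5 / 2 ≤ s.re → ‖G s / D s‖ ≤ M) →
      (∀ s : ℂ, s.re = 5 / 2 → 1 / M ≤ ‖G s / D s‖) →
      ∃ l, c l < 0 ∧ Real.exp (Λ l) ≤ A * (Q ^ 2 * PK κ * p ^ 2) ^ (1 + ε) := by
  have hM0 : 0 < M := by linarith
  have hCD := CD_nonneg hD
  obtain ⟨e1, c0, η, he10, he11, he1ε, hc028, hc0e, hη0, hηc, hη1⟩ := params hε
  obtain ⟨V, hV⟩ : ∃ V : ℝ, V = 6 * c0 := ⟨_, rfl⟩
  have hηV : η * V ^ 2 = 36 := by
    rw [hV, mul_pow]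
    linear_combination 36 * hηc
  obtain ⟨H, zs, D1, J, _, m, ℓ, Mf, δ, hH, hδ, hMf, hD1, hD1n, hDf, hE, hδH, hδτ⟩ :=
    setup hD htD (H0 := V + t)
  have hmb0 : 0 ≤ ∑ j, m j * Real.exp (4 * ℓ j) :=
    Finset.sum_nonneg fun j _ => mul_nonneg (hMf.m0 j) (Real.exp_pos _).le
  have hmc0 : 0 ≤ ∑ j, m j * Real.exp (c0 * ℓ j) :=
    Finset.sum_nonneg fun j _ => mul_nonneg (hMf.m0 j) (Real.exp_pos _).le
  obtain ⟨mc, hmc⟩ : ∃ x : ℝ, x = ∑ j, m j * Real.exp (c0 * ℓ j) := ⟨_, rfl⟩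
  rw [← hmc] at hmc0
  obtain ⟨B0, hB0⟩ : ∃ x : ℝ, x = (M + M * (M * CD * (((3 * N).factorial : ℝ) * Real.exp (5 / 2))) *
    Real.exp (26 + 2 * H) / δ) * ∑ j, m j * Real.exp (4 * ℓ j) := ⟨_, rfl⟩
  have hB00 : 0 ≤ B0 := by rw [hB0]; positivity
  have hJ00 : 0 ≤ JJ N t := JJ_nonneg N t
  obtain ⟨a0, ha0⟩ : ∃ x : ℝ, x = (((2 * Real.pi) ^ 2) ^ N)⁻¹ * ((16 : ℝ) ^ N)⁻¹ / (2 * M ^ 2) := ⟨_, rfl⟩
  have ha00 : 0 < a0 := by
    have := Real.pi_pos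
    rw [ha0]
    positivity
  obtain ⟨A2, hA2⟩ : ∃ x : ℝ, x = 1 + Real.exp (c0 ^ 2) + 8 * M ^ 2 * JJ N t / a0 +
    400 * B0 * Real.exp (V ^ 2) / a0 + 8 * M * mc / a0 := ⟨_, rfl⟩
  have hA2a : 0 ≤ 8 * M ^ 2 * JJ N t / a0 := by positivity
  have hA2b : 0 ≤ 400 * B0 * Real.exp (V ^ 2) / a0 := by positivity
  have hA2c : 0 ≤ 8 * M * mc / a0 := by positivity
  have hA2e := Real.exp_pos (c0 ^ 2)
  have hA21 : 1 ≤ A2 := by rw [hA2]; linarith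
  have hA20 : 0 < A2 := by linarith
  have hA2e' : Real.exp (c0 ^ 2) ≤ A2 := by rw [hA2]; linarith
  have hA2a' : 8 * M ^ 2 * JJ N t / a0 ≤ A2 := by rw [hA2]; linarith
  have hA2b' : 400 * B0 * Real.exp (V ^ 2) / a0 ≤ A2 := by rw [hA2]; linarith
  have hA2c' : 8 * M * mc / a0 ≤ A2 := by rw [hA2]; linarith
  refine ⟨A2 ^ ((1 + e1) * (1 + e1)), Real.one_le_rpow hA21 (by positivity), ?_⟩
  intro ι _ c Λ κ Q G W p h hW hfar hp2 hs hsM hF hFM hlow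
  by_contra hcon
  push Not at hcon
  have hQ := h.one_le
  have hQ0 : 0 < Q := by linarith
  have hP := one_le_PK κ
  obtain ⟨C, hC⟩ : ∃ x : ℝ, x = Q ^ 2 * PK κ := ⟨_, rfl⟩
  have hC1 : 1 ≤ C := by
    rw [hC]
    nlinarith [one_le_pow₀ (n := 2) hQ]
  have hC0 : 0 < C := by linarith
  have hp1 := hW.one_le
  have hp0 : 0 < p := by linarith
  have hpp : (1 : ℝ) ≤ p ^ 2 := one_le_pow₀ hp1
  have hCp1 : 1 ≤ C * p ^ 2 := by nlinarith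
  obtain ⟨Y, hY0, hk1, hkY, hCY, hnegY, hexpk, hTle⟩ :=
    scale he10 he11 he1ε hc028 hη0 hηc hη1 hA21 hA2e' hCp1
  obtain ⟨k, hk⟩ : ∃ x : ℝ, x = η * Y := ⟨_, rfl⟩
  rw [← hk] at hk1 hkY hexpk
  have hpos : ∀ l, Λ l ≤ (1 + e1) * Y → 0 ≤ c l := by
    intro l hl
    by_contra hneg
    push Not at hneg
    have h1 := hcon l hneg
    rw [← hC] at h1
    have h3 := Real.exp_lt_exp.1 (hTle.trans_lt h1)
    linarith
  have hFb : ∀ s : ℂ, s.re = 5 / 2 → ‖G s * W s / D s‖ ≤ M := by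
    intro s hs'
    rw [← (hF s hs').tsum_eq]
    refine (tsum_of_norm_bounded hs.hasSum fun l => ?_).trans hsM
    rw [term_norm, hs']
  have hgap := gap h hD hW hM ht hfar hp2 hFM hlow
  rw [← ha0, ← hC] at hgap
  -- approximation
  have happ : ∀ τ : ℝ, τ = 0 ∨ τ = t → ∃ S : ℂ,
      HasSum (fun l => (c l : ℂ) * cexp (-(sp τ * Λ l)) * WW m ℓ k (Y - Λ l)) S ∧
      ‖S - (∑ j, m j : ℝ) * (G (sp τ) * W (sp τ) / D (sp τ))‖ ≤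
        (M * p ^ 5 * ∑ j, m j) * Real.exp (-Y + k) * (Q ^ 6 * PK κ ^ 3 * M) * JJ N t +
        25 * (B0 * Real.exp (7 * Y)) * TT k V := by
    intro τ hτ
    have h0 : 0 ≤ τ := by rcases hτ with rfl | rfl <;> linarith
    have h1 : τ ≤ t := by rcases hτ with rfl | rfl <;> linarith
    rw [hB0]
    exact approx h hD hW hM hFM hs hF hFb (t := t) (V := V) (by linarith) (by linarith) hH hδ hMf hD1
      hD1n hDf hδH h0 h1 (hE τ hτ) (hδτ τ hτ) hk1 hY0.le (by rw [← hC]; exact hCY)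
  obtain ⟨St, hSt1, hSt2⟩ := happ t (Or.inr rfl)
  obtain ⟨S0, hS01, hS02⟩ := happ 0 (Or.inl rfl)
  have hkc : k * c0 ^ 2 = Y := by
    rw [hk]
    linear_combination Y * hηc
  have hkV : k * V ^ 2 = 36 * Y := by
    rw [hk]
    linear_combination Y * hηV
  have hcmp := compareW (T := (1 + e1) * Y)
    (b0 := (∑ j, m j * Real.exp (4 * ℓ j)) * Real.exp (k * 4 ^ 2 + 4 * Y)) (b := mc / A2) hs hsM
    (fun l => WW_nonneg hMf.m0 k (Y - Λ l)) (fun l => wall hMf.m0 hk1) (by positivity)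
    (fun l hl => by
      rw [hmc]
      exact wtail hMf.m0 hk1 (by linarith) hkc hc0e hY0.le hnegY hl) hpos hSt1 hS01
  -- numerical estimates
  have hm01 : 1 ≤ ∑ j, m j := hMf.sum
  obtain ⟨m0, hm0⟩ : ∃ x : ℝ, x = ∑ j, m j := ⟨_, rfl⟩
  rw [← hm0] at hm01 hSt2 hS02
  have hC2 : (1 : ℝ) ≤ C ^ 2 * p ^ 3 := by
    have h1 : (1 : ℝ) ≤ C ^ 2 := one_le_pow₀ hC1
    have h2 : (1 : ℝ) ≤ p ^ 3 := one_le_pow₀ hp1
    nlinarith
  have hQP : Q ^ 6 * PK κ ^ 3 = C ^ 3 := by rw [hC]; ring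
  rw [hQP] at hSt2 hS02
  have hR1 := est1 (m0 := m0) (by linarith) hA20 hC0 hM0.le hp0 hJ00 ha00 hexpk hA2a'
  have hR2 := est2 hA20 hB00 ha00 hnegY hkV hkY hY0.le hA2b'
  have hT1 := est3 hA20 ha00 hA2c'
  have h1 : m0 * ‖G (sp t) * W (sp t) / D (sp t)‖ ≤ ‖St‖ + (m0 * (a0 / 8 * (C ^ 2 * p ^ 3)) + a0 / 8) := by
    have h2 : ‖((m0 : ℝ) : ℂ) * (G (sp t) * W (sp t) / D (sp t))‖ = m0 * ‖G (sp t) * W (sp t) / D (sp t)‖ := by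
      rw [norm_mul, Complex.norm_real, Real.norm_of_nonneg (by linarith)]
    have h3 := norm_sub_norm_le (((m0 : ℝ) : ℂ) * (G (sp t) * W (sp t) / D (sp t))) St
    rw [norm_sub_rev, h2] at h3
    linarith
  have h2 : ‖S0‖ ≤ m0 * ‖G (sp 0) * W (sp 0) / D (sp 0)‖ + (m0 * (a0 / 8 * (C ^ 2 * p ^ 3)) + a0 / 8) := by
    have h2 : ‖((m0 : ℝ) : ℂ) * (G (sp 0) * W (sp 0) / D (sp 0))‖ = m0 * ‖G (sp 0) * W (sp 0) / D (sp 0)‖ := by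
      rw [norm_mul, Complex.norm_real, Real.norm_of_nonneg (by linarith)]
    have h3 := norm_sub_norm_le S0 (((m0 : ℝ) : ℂ) * (G (sp 0) * W (sp 0) / D (sp 0)))
    rw [h2] at h3
    linarith
  have h3 : m0 * (a0 * (C ^ 2 * p ^ 3)) ≤ m0 * (‖G (sp t) * W (sp t) / D (sp t)‖ - ‖G (sp 0) * W (sp 0) / D (sp 0)‖) :=
    mul_le_mul_of_nonneg_left hgap (by linarith)
  have h4 : a0 ≤ m0 * (a0 * (C ^ 2 * p ^ 3)) := by
    have h5 : a0 * 1 ≤ a0 * (C ^ 2 * p ^ 3) := mul_le_mul_of_nonneg_left hC2 ha00.le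
    have h6 : 1 * (a0 * (C ^ 2 * p ^ 3)) ≤ m0 * (a0 * (C ^ 2 * p ^ 3)) := mul_le_mul_of_nonneg_right hm01 (by positivity)
    linarith
  have h5 : m0 * (‖G (sp t) * W (sp t) / D (sp t)‖ - ‖G (sp 0) * W (sp 0) / D (sp 0)‖) ≤
      2 * (m0 * (a0 / 8 * (C ^ 2 * p ^ 3)) + a0 / 8) + 2 * (a0 / 8) := by
    rw [mul_sub]
    linarith
  have h6 : m0 * (a0 / 8 * (C ^ 2 * p ^ 3)) = m0 * (a0 * (C ^ 2 * p ^ 3)) / 8 := by ring
  rw [h6] at h5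
  linarith

end Pool.Agent.TH949.UL
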