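import Pool.Agent.TH949.LT.Abs

/-! Crude bounds in the critical strip. -/

set_option autoImplicit false

namespace Pool.Agent.TH949.UL

open Complex MeasureTheory Set Filter Topology
open Pool.Agent.TH949.LT

/-- the fixed denominator -/
structure Den (D : ℂ → ℂ) (CD : ℝ) : Prop where
  diff : Differentiable ℂ D
  sym : ∀ s, D (1 - s) = D s
  real_ne : ∀ x : ℝ, D x ≠ 0
  right_ne : ∀ s : ℂ, 5 / 2 ≤ s.re → D s ≠ 0
  bound : ∀ s : ℂ, -5 / 2 ≤ s.re → s.re ≤ 7 / 2 → ‖D s‖ ≤ CD * Real.exp |s.im|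

variable {N : ℕ} {κ : Fin N → ℂ} {Q : ℝ} {G D : ℂ → ℂ} {CD M : ℝ}

/-- size of the crude bound -/
noncomputable def B1 (κ : Fin N → ℂ) (Q CD M : ℝ) : ℝ :=
  Q ^ 6 * PK κ ^ 3 * (M * CD * (((3 * N).factorial : ℝ) * Real.exp (5 / 2)))

theorem CD_nonneg (hD : Den D CD) : 0 ≤ CD := by
  have := (norm_nonneg _).trans (hD.bound 0 (by norm_num) (by norm_num))
  simpa using this

theorem B1_nonneg (h : LData N κ Q G) (hD : Den D CD) (hM0 : 0 ≤ M) : 0 ≤ B1 κ Q CD M := by
  have := CD_nonneg hD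
  have := one_le_PK κ
  have := h.one_le
  unfold B1
  positivity

theorem right_bound (_h : LData N κ Q G) (hD : Den D CD) (hM0 : 0 ≤ M)
    (hM : ∀ s : ℂ, 5 / 2 ≤ s.re → ‖G s / D s‖ ≤ M) {s : ℂ} (hs : 5 / 2 ≤ s.re) (hs' : s.re ≤ 7 / 2) :
    ‖G s‖ ≤ M * (CD * Real.exp |s.im|) := by
  have h1 := hM s hs
  have hne := hD.right_ne s hs
  rw [norm_div, div_le_iff₀ (norm_pos_iff.2 hne)] at h1
  exact h1.trans (mul_le_mul_of_nonneg_left (hD.bound s (by linarith) hs') hM0)

theorem left_bound (h : LData N κ Q G) (hD : Den D CD) (hM0 : 0 ≤ M)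
    (hM : ∀ s : ℂ, 5 / 2 ≤ s.re → ‖G s / D s‖ ≤ M) (u : ℝ) :
    ‖G (((-5 / 2 : ℝ) : ℂ) + u * I)‖ ≤ B1 κ Q CD M * Real.exp (2 * |u|) := by
  have hQ : 0 < Q := by linarith [h.one_le]
  have hP := one_le_PK κ
  have hCD := CD_nonneg hD
  rw [norm_F3 h]
  have h4 : (((2 * Real.pi) ^ 3) ^ N)⁻¹ ≤ 1 := by
    refine inv_le_one_of_one_le₀ (one_le_pow₀ (one_le_pow₀ ?_))
    linarith [Real.pi_gt_three]
  have h5 : p3 κ u ≤ PK κ ^ 3 * (((3 * N).factorial : ℝ) * Real.exp (5 / 2 + |u|)) := by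
    refine (p3_le κ u).trans (mul_le_mul_of_nonneg_left ?_ (by positivity))
    exact pow_exp (3 * N) (by positivity)
  have h6 := right_bound h hD hM0 hM (s := ((7 / 2 : ℝ) : ℂ) - u * I) (by simp; norm_num) (by simp)
  have h7 := p3_nonneg κ u
  have e : |(((7 / 2 : ℝ) : ℂ) - u * I).im| = |u| := by simp
  rw [e] at h6
  calc Q ^ 6 * (((2 * Real.pi) ^ 3) ^ N)⁻¹ * p3 κ u * ‖G (((7 / 2 : ℝ) : ℂ) - u * I)‖
      ≤ Q ^ 6 * 1 * (PK κ ^ 3 * (((3 * N).factorial : ℝ) * Real.exp (5 / 2 + |u|))) *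
        (M * (CD * Real.exp |u|)) := by gcongr
    _ = _ := by
        unfold B1
        have e1 : Real.exp (5 / 2 + |u|) = Real.exp (5 / 2) * Real.exp |u| := Real.exp_add _ _
        have e2 : Real.exp (2 * |u|) = Real.exp |u| * Real.exp |u| := by
          rw [← Real.exp_add]
          congr 1
          ring
        rw [e1, e2]
        ring

theorem crude (h : LData N κ Q G) (hD : Den D CD) (hM0 : 0 ≤ M)
    (hM : ∀ s : ℂ, 5 / 2 ≤ s.re → ‖G s / D s‖ ≤ M) {z : ℂ} (hz : -5 / 2 ≤ z.re) (hz' : z.re ≤ 5 / 2) :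
    ‖G z‖ ≤ B1 κ Q CD M * Real.exp (26 + 2 * |z.im|) := by
  have hQ : 1 ≤ Q := h.one_le
  have hP := one_le_PK κ
  have hCD := CD_nonneg hD
  have hB1 := B1_nonneg h hD hM0
  set g : ℂ → ℂ := fun s => G s * cexp ((s - z) ^ 2) with hg
  have hgd : Differentiable ℂ g := h.hF.mul (by fun_prop)
  have hnorm : ∀ s : ℂ, ‖cexp ((s - z) ^ 2)‖ = Real.exp ((s.re - z.re) ^ 2 - (s.im - z.im) ^ 2) := by
    intro s
    rw [norm_exp_sq]
    simp
  have hline : ∀ s : ℂ, (s.re = -5 / 2 ∨ s.re = 5 / 2) → ‖g s‖ ≤ B1 κ Q CD M * Real.exp (26 + 2 * |z.im|) := by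
    intro s hs
    rw [hg]
    simp only
    rw [norm_mul, hnorm]
    have h1 : ‖G s‖ ≤ B1 κ Q CD M * Real.exp (2 * |s.im|) := by
      rcases hs with hs | hs
      · have := left_bound h hD hM0 hM s.im
        have e : ((-5 / 2 : ℝ) : ℂ) + s.im * I = s := by
          rw [← hs]
          exact Complex.re_add_im s
        rwa [e] at this
      · refine (right_bound h hD hM0 hM (by rw [hs]) (by rw [hs]; norm_num)).trans ?_
        unfold B1
        have e1 : Real.exp |s.im| ≤ Real.exp (2 * |s.im|) :=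
          Real.exp_le_exp.2 (by linarith [abs_nonneg s.im])
        have e2 : (1 : ℝ) ≤ ((3 * N).factorial : ℝ) * Real.exp (5 / 2) := by
          have a1 : (1 : ℝ) ≤ ((3 * N).factorial : ℝ) := by exact_mod_cast Nat.factorial_pos _
          have a2 : (1 : ℝ) ≤ Real.exp (5 / 2) := Real.one_le_exp (by norm_num)
          nlinarith
        have e3 : (1 : ℝ) ≤ Q ^ 6 * PK κ ^ 3 := by
          have a1 : (1 : ℝ) ≤ Q ^ 6 := one_le_pow₀ hQ
          have a2 : (1 : ℝ) ≤ PK κ ^ 3 := one_le_pow₀ hP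
          nlinarith
        calc M * (CD * Real.exp |s.im|) = 1 * (M * CD * 1) * Real.exp |s.im| := by ring
          _ ≤ Q ^ 6 * PK κ ^ 3 * (M * CD * (((3 * N).factorial : ℝ) * Real.exp (5 / 2))) *
              Real.exp (2 * |s.im|) := by gcongr
    have h2 : Real.exp (2 * |s.im|) * Real.exp ((s.re - z.re) ^ 2 - (s.im - z.im) ^ 2) ≤
        Real.exp (26 + 2 * |z.im|) := by
      rw [← Real.exp_add]
      refine Real.exp_le_exp.2 ?_
      have h3 : |s.im| ≤ |z.im| + |s.im - z.im| := by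
        have := abs_add_le z.im (s.im - z.im)
        rwa [add_sub_cancel] at this
      have h4 : (s.re - z.re) ^ 2 ≤ 25 := by
        rcases hs with hs | hs
        · rw [hs]; nlinarith
        · rw [hs]; nlinarith
      have h5 := sq_abs (s.im - z.im)
      nlinarith [sq_nonneg (|s.im - z.im| - 1)]
    calc _ ≤ B1 κ Q CD M * Real.exp (2 * |s.im|) * Real.exp ((s.re - z.re) ^ 2 - (s.im - z.im) ^ 2) :=
          mul_le_mul_of_nonneg_right h1 (Real.exp_pos _).le
      _ ≤ _ := by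
          rw [mul_assoc]
          exact mul_le_mul_of_nonneg_left h2 hB1
  have key := PhragmenLindelof.vertical_strip (f := g) (a := -5 / 2) (b := 5 / 2)
    (C := B1 κ Q CD M * Real.exp (26 + 2 * |z.im|)) (z := z) hgd.diffContOnCl ?_
    (fun s hs => hline s (Or.inl hs)) (fun s hs => hline s (Or.inr hs)) hz hz'
  · have e : g z = G z := by
      rw [hg]
      simp
    rwa [e] at key
  · obtain ⟨C, A, hCA⟩ := h.growth (-5 / 2) (5 / 2)
    refine ⟨1 / 2, ?_, 2, ?_⟩
    · rw [lt_div_iff₀ (by norm_num)]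
      linarith [Real.pi_gt_three]
    · refine Asymptotics.IsBigO.of_bound (|C| * (A.factorial : ℝ) * Real.exp 25) ?_
      rw [eventually_inf_principal]
      refine Eventually.of_forall fun s hs => ?_
      have hs1 : -5 / 2 < s.re := hs.1
      have hs2 : s.re < 5 / 2 := hs.2
      rw [hg]
      simp only
      rw [norm_mul, hnorm, Real.norm_of_nonneg (Real.exp_pos _).le]
      have h1 : ‖G s‖ ≤ |C| * ((A.factorial : ℝ) * Real.exp (1 + |s.im|)) := by
        refine (hCA s hs1.le hs2.le).trans ?_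
        refine mul_le_mul (le_abs_self C) (pow_exp A (by positivity)) (by positivity) (abs_nonneg C)
      have h2 : Real.exp ((s.re - z.re) ^ 2 - (s.im - z.im) ^ 2) ≤ Real.exp 25 := by
        refine Real.exp_le_exp.2 ?_
        nlinarith [sq_nonneg (s.im - z.im)]
      have h3 : Real.exp (1 + |s.im|) ≤ Real.exp (2 * Real.exp (1 / 2 * |s.im|)) := by
        refine Real.exp_le_exp.2 ?_
        have := Real.add_one_le_exp (1 / 2 * |s.im|)
        linarith [abs_nonneg s.im]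
      calc _ ≤ (|C| * ((A.factorial : ℝ) * Real.exp (2 * Real.exp (1 / 2 * |s.im|)))) * Real.exp 25 := by
            refine mul_le_mul (h1.trans ?_) h2 (Real.exp_pos _).le (by positivity)
            gcongr
        _ = _ := by ring

end Pool.Agent.TH949.UL
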