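import Pool.Agent.TH949.UL.Sm
import Pool.Agent.TH949.UL.PL

/-! The main argument at a fixed height. -/

set_option autoImplicit false

namespace Pool.Agent.TH949.UL

open Complex MeasureTheory Set Filter Topology
open Pool.Agent.TH949.LT

variable {N : ℕ} {κ : Fin N → ℂ} {Q : ℝ} {G D : ℂ → ℂ} {CD M : ℝ}

theorem D_reflect (hD : Den D CD) (x : ℝ) (u : ℝ) :
    D (((1 - x : ℝ) : ℂ) + u * I) = D (((x : ℝ) : ℂ) - u * I) := by
  rw [← hD.sym]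
  congr 1
  push_cast
  ring

theorem D_left_ne (hD : Den D CD) {s : ℂ} (hs : s.re ≤ -3 / 2) : D s ≠ 0 := by
  rw [← hD.sym]
  exact hD.right_ne _ (by simp; linarith)

theorem norm_F2D (h : LData N κ Q G) (hD : Den D CD) (t : ℝ) :
    ‖G (((-3 / 2 : ℝ) : ℂ) + t * I) / D (((-3 / 2 : ℝ) : ℂ) + t * I)‖ =
      Q ^ (4 : ℕ) * (((2 * Real.pi) ^ 2) ^ N)⁻¹ * p2 κ t *
        ‖G (((5 / 2 : ℝ) : ℂ) - t * I) / D (((5 / 2 : ℝ) : ℂ) - t * I)‖ := by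
  have h1 := norm_F2 h t
  have h2 := D_reflect hD (5 / 2) t
  have e : (1 - 5 / 2 : ℝ) = -3 / 2 := by norm_num
  rw [e] at h2
  rw [h2, norm_div, h1, norm_div]
  ring

theorem norm_F3D (h : LData N κ Q G) (hD : Den D CD) (t : ℝ) :
    ‖G (((-5 / 2 : ℝ) : ℂ) + t * I) / D (((-5 / 2 : ℝ) : ℂ) + t * I)‖ =
      Q ^ (6 : ℕ) * (((2 * Real.pi) ^ 3) ^ N)⁻¹ * p3 κ t *
        ‖G (((7 / 2 : ℝ) : ℂ) - t * I) / D (((7 / 2 : ℝ) : ℂ) - t * I)‖ := by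
  have h1 := norm_F3 h t
  have h2 := D_reflect hD (7 / 2) t
  have e : (1 - 7 / 2 : ℝ) = -5 / 2 := by norm_num
  rw [e] at h2
  rw [h2, norm_div, h1, norm_div]
  ring

/-- an extra factor (removed local factors), `p²` is the product of the norms -/
structure WData (W : ℂ → ℂ) (p M : ℝ) : Prop where
  diff : Differentiable ℂ W
  one_le : 1 ≤ p
  up : ∀ s : ℂ, -5 / 2 ≤ s.re → s.re ≤ 5 / 2 → ‖W s‖ ≤ M * p ^ 5
  up3 : ∀ s : ℂ, s.re = -3 / 2 → ‖W s‖ ≤ M * p ^ 3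
  lo3 : ∀ s : ℂ, s.re = -3 / 2 → 1 / M * p ^ 3 ≤ ‖W s‖

/-- left line -/
theorem left_int (h : LData N κ Q G) (hD : Den D CD) (hM0 : 0 ≤ M)
    (hM : ∀ s : ℂ, 5 / 2 ≤ s.re → ‖G s / D s‖ ≤ M) {k t τ y m0 a b : ℝ} (hk : 1 ≤ k) (hab : a ≤ b)
    (hτ : |τ| ≤ t) {hh : ℝ → ℂ} (hm0 : 0 ≤ m0)
    (hhb : ∀ v, ‖hh v‖ ≤ ‖G (((-5 / 2 : ℝ) : ℂ) + (τ + v : ℝ) * I) /
      D (((-5 / 2 : ℝ) : ℂ) + (τ + v : ℝ) * I)‖ * m0 * Real.exp (-y)) :
    ‖∫ v in a..b, hh v * EK k (-1) v‖ ≤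
      m0 * Real.exp (-y + k) * (Q ^ 6 * PK κ ^ 3 * M) * JJ N t := by
  have hQ : 0 < Q := by linarith [h.one_le]
  have hP := one_le_PK κ
  have hint : Integrable fun v : ℝ => Real.exp (-(1 / 2) * v ^ 2) := integrable_exp_neg_mul_sq (by norm_num)
  set K : ℝ := m0 * Real.exp (-y + k) * (Q ^ 6 * PK κ ^ 3 * M) * (((3 * N).factorial : ℝ) * Real.exp (4 + t))
    with hK
  have hK0 : 0 ≤ K := by rw [hK]; positivity
  have h1 : ∀ v : ℝ, ‖hh v * EK k (-1) v‖ ≤ K * Real.exp (-(1 / 2) * v ^ 2) := by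
    intro v
    have e3 : ‖EK k (-1) v‖ ≤ Real.exp (k - v ^ 2) := by
      refine (norm_EK_le (by norm_num) v).trans (Real.exp_le_exp.2 ?_)
      nlinarith [sq_nonneg v]
    have e4 : ‖G (((-5 / 2 : ℝ) : ℂ) + (τ + v : ℝ) * I) / D (((-5 / 2 : ℝ) : ℂ) + (τ + v : ℝ) * I)‖ ≤
        Q ^ 6 * PK κ ^ 3 * M * (((3 * N).factorial : ℝ) * Real.exp (5 / 2 + t + |v|)) := by
      rw [norm_F3D h hD]
      have h4 : (((2 * Real.pi) ^ 3) ^ N)⁻¹ ≤ 1 := by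
        refine inv_le_one_of_one_le₀ (one_le_pow₀ (one_le_pow₀ ?_))
        linarith [Real.pi_gt_three]
      have h5 : p3 κ (τ + v) ≤ PK κ ^ 3 * (((3 * N).factorial : ℝ) * Real.exp (5 / 2 + t + |v|)) := by
        refine (p3_le κ (τ + v)).trans (mul_le_mul_of_nonneg_left ?_ (by positivity))
        refine (pow_exp (3 * N) (by positivity)).trans
          (mul_le_mul_of_nonneg_left (Real.exp_le_exp.2 ?_) (by positivity))
        have := abs_add_le τ v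
        linarith
      have h6 := hM (((7 / 2 : ℝ) : ℂ) - ((τ + v : ℝ) : ℂ) * I) (by simp; norm_num)
      have h7 := p3_nonneg κ (τ + v)
      calc Q ^ 6 * (((2 * Real.pi) ^ 3) ^ N)⁻¹ * p3 κ (τ + v) *
            ‖G (((7 / 2 : ℝ) : ℂ) - ((τ + v : ℝ) : ℂ) * I) / D (((7 / 2 : ℝ) : ℂ) - ((τ + v : ℝ) : ℂ) * I)‖
          ≤ Q ^ 6 * 1 * (PK κ ^ 3 * (((3 * N).factorial : ℝ) * Real.exp (5 / 2 + t + |v|))) * M := by
            gcongr
        _ = _ := by ring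
    have e5 : Real.exp (5 / 2 + t + |v|) * Real.exp (-y) * Real.exp (k - v ^ 2) ≤
        Real.exp (-y + k) * (Real.exp (4 + t) * Real.exp (-(1 / 2) * v ^ 2)) := by
      rw [← Real.exp_add, ← Real.exp_add, ← Real.exp_add, ← Real.exp_add]
      refine Real.exp_le_exp.2 ?_
      have := sq_abs v
      nlinarith [sq_nonneg (|v| - 1)]
    rw [norm_mul]
    calc _ ≤ (Q ^ 6 * PK κ ^ 3 * M * (((3 * N).factorial : ℝ) * Real.exp (5 / 2 + t + |v|))) * m0 *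
          Real.exp (-y) * Real.exp (k - v ^ 2) := by
          refine mul_le_mul ((hhb v).trans ?_) e3 (norm_nonneg _) (by positivity)
          gcongr
      _ = m0 * (Q ^ 6 * PK κ ^ 3 * M) * ((3 * N).factorial : ℝ) *
          (Real.exp (5 / 2 + t + |v|) * Real.exp (-y) * Real.exp (k - v ^ 2)) := by ring
      _ ≤ m0 * (Q ^ 6 * PK κ ^ 3 * M) * ((3 * N).factorial : ℝ) *
          (Real.exp (-y + k) * (Real.exp (4 + t) * Real.exp (-(1 / 2) * v ^ 2))) :=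
          mul_le_mul_of_nonneg_left e5 (by positivity)
      _ = _ := by rw [hK]; ring
  rw [intervalIntegral.integral_of_le hab]
  have h2 : ‖∫ v in Ioc a b, hh v * EK k (-1) v‖ ≤ ∫ v in Ioc a b, K * Real.exp (-(1 / 2) * v ^ 2) :=
    norm_integral_le_of_norm_le (hint.const_mul _).integrableOn (Eventually.of_forall h1)
  refine h2.trans ((setIntegral_le_integral (hint.const_mul _) (Eventually.of_forall fun v => ?_)).trans
    (le_of_eq ?_))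
  · simp only [Pi.zero_apply]
    positivity
  · rw [integral_const_mul, hK]
    unfold JJ
    ring

theorem NEP_norm {J : Type} [Fintype J] {m ℓ : J → ℝ} {Mf : ℂ → ℂ} (h : NEP J m ℓ Mf) {x : ℝ} {w : ℂ}
    (hw : w.re ≤ x) : ‖Mf w‖ ≤ ∑ j, m j * Real.exp (x * ℓ j) := by
  rw [h.eq]
  refine (norm_sum_le _ _).trans (Finset.sum_le_sum fun j _ => ?_)
  rw [norm_mul, Complex.norm_real, Real.norm_of_nonneg (h.m0 j), Complex.norm_exp]
  refine mul_le_mul_of_nonneg_left (Real.exp_le_exp.2 ?_) (h.m0 j)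
  simp only [Complex.mul_re, Complex.ofReal_re, Complex.ofReal_im, zero_mul, sub_zero]
  have := h.l0 j
  nlinarith

theorem NEP_norm0 {J : Type} [Fintype J] {m ℓ : J → ℝ} {Mf : ℂ → ℂ} (h : NEP J m ℓ Mf) {w : ℂ}
    (hw : w.re ≤ 0) : ‖Mf w‖ ≤ ∑ j, m j := by
  have := NEP_norm h (x := 0) hw
  simpa using this

theorem NEP_zero {J : Type} [Fintype J] {m ℓ : J → ℝ} {Mf : ℂ → ℂ} (h : NEP J m ℓ Mf) :
    Mf 0 = ((∑ j, m j : ℝ) : ℂ) := by
  rw [h.eq]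
  simp

end Pool.Agent.TH949.UL
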