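import Mathlib

/-! Exponential polynomials with nonnegative coefficients and prescribed non-real zeros; extraction of
the zeros of an entire function on a compact set. -/

set_option autoImplicit false

namespace Pool.Agent.TH949.UL

open Complex Set Filter Topology

/-- exponential polynomial with nonnegative coefficients -/
structure NEP (J : Type) [Fintype J] (m ℓ : J → ℝ) (M : ℂ → ℂ) : Prop where
  m0 : ∀ j, 0 ≤ m j
  l0 : ∀ j, 0 ≤ ℓ j
  sum : 1 ≤ ∑ j, m j
  eq : ∀ w : ℂ, M w = ∑ j, (m j : ℂ) * cexp (ℓ j * w)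

theorem dslope_entire {f : ℂ → ℂ} (hf : Differentiable ℂ f) (a : ℂ) : Differentiable ℂ (dslope f a) := by
  rw [← differentiableOn_univ] at hf ⊢
  exact (Complex.differentiableOn_dslope univ_mem).2 hf

theorem dslope_zero {f : ℂ → ℂ} {a : ℂ} (ha : f a = 0) (z : ℂ) : f z = (z - a) * dslope f a z := by
  have h := sub_smul_dslope f a z
  rw [smul_eq_mul, ha, sub_zero] at h
  exact h.symm

/-- one factor -/
theorem one_factor {z : ℂ} (hz : z.im ≠ 0) : ∃ (m ℓ : Bool → ℝ) (M E : ℂ → ℂ), NEP Bool m ℓ M ∧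
    Differentiable ℂ E ∧ ∀ w, M w = (w - z) * E w := by
  set l : ℝ := Real.pi / |z.im| with hl
  have habs : 0 < |z.im| := abs_pos.2 hz
  have hl0 : 0 < l := by rw [hl]; positivity
  set M : ℂ → ℂ := fun w => 1 + cexp (l * (w - z.re)) with hM
  have hMd : Differentiable ℂ M := by rw [hM]; fun_prop
  have hMz : M z = 0 := by
    have e1 : z - z.re = z.im * I := by
      apply Complex.ext <;> simp
    have e2 : (l : ℂ) * (z - z.re) = Real.pi * I ∨ (l : ℂ) * (z - z.re) = -(Real.pi * I) := by
      rw [e1]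
      rcases lt_or_gt_of_ne hz with h | h
      · right
        have : l * z.im = -Real.pi := by
          rw [hl, abs_of_neg h]
          field_simp
        rw [← mul_assoc, ← Complex.ofReal_mul, this]
        push_cast
        ring
      · left
        have : l * z.im = Real.pi := by
          rw [hl, abs_of_pos h]
          field_simp
        rw [← mul_assoc, ← Complex.ofReal_mul, this]
    rw [hM]
    simp only
    rcases e2 with e2 | e2
    · rw [e2, Complex.exp_pi_mul_I]
      ring
    · rw [e2, Complex.exp_neg, Complex.exp_pi_mul_I]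
      norm_num
  refine ⟨fun b => if b then Real.exp (-(l * z.re)) else 1, fun b => if b then l else 0, M, dslope M z,
    ⟨fun j => ?_, fun j => ?_, ?_, fun w => ?_⟩, dslope_entire hMd z, fun w => dslope_zero hMz w⟩
  · rcases j <;> simp [Real.exp_nonneg]
  · rcases j <;> simp [hl0.le]
  · simp only [Fintype.sum_bool]
    simp [Real.exp_nonneg]
  · rw [Fintype.sum_bool]
    simp only [if_true]
    have : cexp (l * (w - z.re)) = ((Real.exp (-(l * z.re)) : ℝ) : ℂ) * cexp (l * w) := by
      rw [Complex.ofReal_exp, ← Complex.exp_add]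
      congr 1
      push_cast
      ring
    rw [hM]
    simp only
    rw [this]
    simp
    ring

theorem NEP.mul {J J' : Type} [Fintype J] [Fintype J'] {m ℓ : J → ℝ} {m' ℓ' : J' → ℝ} {M M' : ℂ → ℂ}
    (h : NEP J m ℓ M) (h' : NEP J' m' ℓ' M') :
    NEP (J × J') (fun p => m p.1 * m' p.2) (fun p => ℓ p.1 + ℓ' p.2) (fun w => M w * M' w) where
  m0 p := mul_nonneg (h.m0 _) (h'.m0 _)
  l0 p := add_nonneg (h.l0 _) (h'.l0 _)
  sum := by
    rw [Fintype.sum_prod_type]
    simp_rw [← Finset.mul_sum, ← Finset.sum_mul]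
    nlinarith [h.sum, h'.sum]
  eq w := by
    rw [h.eq, h'.eq, Fintype.sum_prod_type, Finset.sum_mul_sum]
    refine Finset.sum_congr rfl fun i _ => Finset.sum_congr rfl fun j _ => ?_
    push_cast
    rw [add_mul, Complex.exp_add]
    ring

theorem NEP.one : NEP Unit (fun _ => 1) (fun _ => 0) (fun _ => 1) where
  m0 _ := zero_le_one
  l0 _ := le_rfl
  sum := by simp
  eq w := by simp

/-- zeros at all points of a list -/
theorem kill (zs : List ℂ) (hzs : ∀ z ∈ zs, z.im ≠ 0) :
    ∃ (J : Type) (_ : Fintype J) (m ℓ : J → ℝ) (M E : ℂ → ℂ), NEP J m ℓ M ∧ Differentiable ℂ E ∧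
      ∀ w, M w = (zs.map fun z => w - z).prod * E w := by
  induction zs with
  | nil => exact ⟨Unit, inferInstance, _, _, _, fun _ => 1, NEP.one, by fun_prop, fun w => by simp⟩
  | cons z zs ih =>
    obtain ⟨J, _, m, ℓ, M, E, h1, h2, h3⟩ := ih fun z hz => hzs z (List.mem_cons_of_mem _ hz)
    obtain ⟨m', ℓ', M', E', h1', h2', h3'⟩ := one_factor (hzs z List.mem_cons_self)
    refine ⟨Bool × J, inferInstance, _, _, _, fun w => E' w * E w, h1'.mul h1, h2'.mul h2, fun w => ?_⟩
    simp only
    rw [h3, h3', List.map_cons, List.prod_cons]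
    ring

/-- extraction of zeros -/
theorem extract {D : ℂ → ℂ} (hD : Differentiable ℂ D) {K : Set ℂ} (hK : IsCompact K) (hne : ∃ z, D z ≠ 0) :
    ∃ (zs : List ℂ) (D1 : ℂ → ℂ), Differentiable ℂ D1 ∧ (∀ z ∈ zs, z ∈ K ∧ D z = 0) ∧
      (∀ w, D w = (zs.map fun z => w - z).prod * D1 w) ∧ ∀ z ∈ K, D1 z ≠ 0 := by
  obtain ⟨z0, hz0⟩ := hne
  -- extractions of length m
  let P : ℕ → Prop := fun m => ∃ (zs : List ℂ) (D1 : ℂ → ℂ), zs.length = m ∧ Differentiable ℂ D1 ∧
    (∀ z ∈ zs, z ∈ K ∧ D z = 0) ∧ (∀ w, D w = (zs.map fun z => w - z).prod * D1 w)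
  have hP0 : P 0 := ⟨[], D, rfl, hD, by simp, by simp⟩
  -- boundedness
  obtain ⟨R, hR⟩ := hK.isBounded.subset_closedBall z0
  set R' : ℝ := max R 1 with hR'
  have hR'1 : 1 ≤ R' := le_max_right _ _
  have hKR : ∀ z ∈ K, ‖z - z0‖ ≤ R' := by
    intro z hz
    have := hR hz
    rw [Metric.mem_closedBall, dist_eq_norm] at this
    exact this.trans (le_max_left _ _)
  obtain ⟨B, hB⟩ := (isCompact_closedBall z0 (4 * R')).exists_bound_of_continuousOn hD.continuous.continuousOn
  have hB0 : 0 ≤ B := (norm_nonneg _).trans (hB z0 (Metric.mem_closedBall_self (by positivity)))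
  have hbound : ∀ m, P m → ‖D z0‖ * 3 ^ m ≤ B := by
    rintro m ⟨zs, D1, hlen, hD1, hzs, heq⟩
    have h1 : ∀ (l : List ℂ), (∀ z ∈ l, z ∈ K) → ‖(l.map fun z => z0 - z).prod‖ ≤ R' ^ l.length := by
      intro l hl
      induction l with
      | nil => simp
      | cons z l ih =>
        rw [List.map_cons, List.prod_cons, norm_mul, List.length_cons, pow_succ']
        refine mul_le_mul ?_ (ih fun z hz => hl z (List.mem_cons_of_mem _ hz)) (norm_nonneg _) (by positivity)
        rw [norm_sub_rev]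
        exact hKR z (hl z List.mem_cons_self)
    have h2 : ∀ (l : List ℂ) (w : ℂ), ‖w - z0‖ = 4 * R' → (∀ z ∈ l, z ∈ K) →
        (3 * R') ^ l.length ≤ ‖(l.map fun z => w - z).prod‖ := by
      intro l w hw hl
      induction l with
      | nil => simp
      | cons z l ih =>
        rw [List.map_cons, List.prod_cons, norm_mul, List.length_cons, pow_succ']
        refine mul_le_mul ?_ (ih fun z hz => hl z (List.mem_cons_of_mem _ hz)) (by positivity) (norm_nonneg _)
        have h3 := hKR z (hl z List.mem_cons_self)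
        have h4 : ‖w - z0‖ ≤ ‖w - z‖ + ‖z - z0‖ := by
          have := norm_add_le (w - z) (z - z0)
          rwa [sub_add_sub_cancel] at this
        linarith
    have hzK : ∀ z ∈ zs, z ∈ K := fun z hz => (hzs z hz).1
    have h3 : ∀ w ∈ frontier (Metric.ball z0 (4 * R')), ‖D1 w‖ ≤ B / (3 * R') ^ m := by
      intro w hw
      rw [frontier_ball _ (by positivity), mem_sphere_iff_norm] at hw
      have h4 := h2 zs w hw hzK
      rw [hlen] at h4
      have h5 := hB w (by rw [Metric.mem_closedBall, dist_eq_norm]; exact hw.le)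
      rw [heq w, norm_mul] at h5
      rw [le_div_iff₀ (by positivity), mul_comm]
      exact (mul_le_mul_of_nonneg_right h4 (norm_nonneg _)).trans h5
    have h4 : ‖D1 z0‖ ≤ B / (3 * R') ^ m :=
      Complex.norm_le_of_forall_mem_frontier_norm_le Metric.isBounded_ball
        (hD1.diffContOnCl) h3 (subset_closure (Metric.mem_ball_self (by positivity)))
    have h5 := h1 zs hzK
    rw [hlen] at h5
    have h6 : ‖D z0‖ ≤ R' ^ m * (B / (3 * R') ^ m) := by
      rw [heq z0, norm_mul]
      exact mul_le_mul h5 h4 (norm_nonneg _) (by positivity)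
    have h7 : R' ^ m * (B / (3 * R') ^ m) = B / 3 ^ m := by
      rw [mul_pow]
      field_simp
    rw [h7, le_div_iff₀ (by positivity)] at h6
    exact h6
  have hfin : ∃ m0, ∀ m, P m → m ≤ m0 := by
    have hpos : 0 < ‖D z0‖ := norm_pos_iff.2 hz0
    obtain ⟨m0, hm0⟩ := pow_unbounded_of_one_lt (B / ‖D z0‖) (by norm_num : (1 : ℝ) < 3)
    refine ⟨m0, fun m hm => ?_⟩
    by_contra hlt
    push Not at hlt
    have h1 := hbound m hm
    have h2 : (3 : ℝ) ^ m0 ≤ 3 ^ m := pow_le_pow_right₀ (by norm_num) hlt.le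
    rw [div_lt_iff₀ hpos] at hm0
    nlinarith
  obtain ⟨m0, hm0⟩ := hfin
  classical
  have hmax : ∃ m, P m ∧ ∀ m', P m' → m' ≤ m := by
    refine ⟨Nat.findGreatest P m0, Nat.findGreatest_spec (Nat.zero_le m0) hP0, fun m' hm' => ?_⟩
    exact Nat.le_findGreatest (hm0 m' hm') hm'
  obtain ⟨m, ⟨zs, D1, hlen, hD1, hzs, heq⟩, hm⟩ := hmax
  refine ⟨zs, D1, hD1, hzs, heq, fun z hz h0 => ?_⟩
  have hPs : P (m + 1) := by
    refine ⟨z :: zs, dslope D1 z, by simp [hlen], dslope_entire hD1 z, ?_, fun w => ?_⟩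
    · intro z' hz'
      rcases List.mem_cons.1 hz' with h | h
      · rw [h]
        refine ⟨hz, ?_⟩
        rw [heq z, h0, mul_zero]
      · exact hzs z' h
    · rw [heq w, List.map_cons, List.prod_cons, dslope_zero h0 w]
      ring
  have := hm _ hPs
  omega

end Pool.Agent.TH949.UL
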