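import Pool.Agent.TH949.UL.Approx

/-! Numerical lemmas for the main theorem. -/

set_option autoImplicit false

namespace Pool.Agent.TH949.UL

open Complex MeasureTheory Set Filter Topology
open Pool.Agent.TH949.LT

theorem params {ε : ℝ} (hε : 0 < ε) : ∃ e1 c0 η : ℝ, 0 < e1 ∧ e1 ≤ 1 / 3 ∧ 3 * e1 ≤ ε ∧ 28 ≤ c0 ∧
    (c0 - 4) * e1 = 8 ∧ 0 < η ∧ η * c0 ^ 2 = 1 ∧ η ≤ e1 / 4 := by
  obtain ⟨e1, he1⟩ : ∃ e1 : ℝ, e1 = min ε 1 / 3 := ⟨_, rfl⟩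
  have he10 : 0 < e1 := by rw [he1]; positivity
  have he11 : e1 ≤ 1 / 3 := by rw [he1]; linarith [min_le_right ε 1]
  have he1ε : 3 * e1 ≤ ε := by rw [he1]; linarith [min_le_left ε 1]
  obtain ⟨c0, hc0⟩ : ∃ c0 : ℝ, c0 = 4 + 8 / e1 := ⟨_, rfl⟩
  have hc0e : (c0 - 4) * e1 = 8 := by rw [hc0]; field_simp; ring
  have hc028 : 28 ≤ c0 := by
    have : 24 ≤ 8 / e1 := by rw [le_div_iff₀ he10]; linarith
    linarith
  refine ⟨e1, c0, 1 / c0 ^ 2, he10, he11, he1ε, hc028, hc0e, by positivity, by field_simp, ?_⟩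
  rw [div_le_div_iff₀ (by positivity) (by norm_num)]
  have h2 : 8 ≤ e1 * c0 := by nlinarith
  nlinarith

variable {N : ℕ} {κ : Fin N → ℂ} {Q : ℝ} {G D W : ℂ → ℂ} {CD M p : ℝ}

theorem gap (h : LData N κ Q G) (hD : Den D CD) (hW : WData W p M) (hM : 1 ≤ M) {t : ℝ} (ht : 16 ≤ t)
    (hfar : Far κ t)
    (hp2 : 2 * M ^ 4 * p2 κ 0 ≤ p2 κ t) (hFM : ∀ s : ℂ, 5 / 2 ≤ s.re → ‖G s / D s‖ ≤ M)
    (hlow : ∀ s : ℂ, s.re = 5 / 2 → 1 / M ≤ ‖G s / D s‖) :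
    (((2 * Real.pi) ^ 2) ^ N)⁻¹ * ((16 : ℝ) ^ N)⁻¹ / (2 * M ^ 2) * ((Q ^ 2 * PK κ) ^ 2 * p ^ 3) ≤
      ‖G (sp t) * W (sp t) / D (sp t)‖ - ‖G (sp 0) * W (sp 0) / D (sp 0)‖ := by
  have hpi := Real.pi_pos
  have hM0 : 0 < M := by linarith
  have hQ := h.one_le
  have hQ0 : 0 < Q := by linarith
  have hp1 := hW.one_le
  have hpp0 : 0 < p := by linarith
  obtain ⟨c, hc⟩ : ∃ c : ℝ, c = (((2 * Real.pi) ^ 2) ^ N)⁻¹ := ⟨_, rfl⟩
  have hc0 : 0 < c := by rw [hc]; positivity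
  have hp2a := p2_low (κ := κ) ht hfar
  have hspl : ∀ s, ‖G s * W s / D s‖ = ‖G s / D s‖ * ‖W s‖ := by
    intro s
    rw [← norm_mul]
    congr 1
    ring
  have hX1' : Q ^ 4 * c * p2 κ t * (1 / M) * (1 / M * p ^ 3) ≤ ‖G (sp t) * W (sp t) / D (sp t)‖ := by
    rw [hspl]
    have h1 : Q ^ 4 * c * p2 κ t * (1 / M) ≤ ‖G (sp t) / D (sp t)‖ := by
      unfold sp
      rw [norm_F2D h hD, hc]
      refine mul_le_mul_of_nonneg_left (hlow _ (by simp)) ?_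
      have := p2_nonneg κ t
      positivity
    exact mul_le_mul h1 (hW.lo3 _ (sp_re t)) (by positivity) (norm_nonneg _)
  have hX0' : ‖G (sp 0) * W (sp 0) / D (sp 0)‖ ≤ Q ^ 4 * c * p2 κ 0 * M * (M * p ^ 3) := by
    rw [hspl]
    have h1 : ‖G (sp 0) / D (sp 0)‖ ≤ Q ^ 4 * c * p2 κ 0 * M := by
      unfold sp
      rw [norm_F2D h hD, hc]
      refine mul_le_mul_of_nonneg_left (hFM _ (by simp)) ?_
      have := p2_nonneg κ 0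
      positivity
    refine mul_le_mul h1 (hW.up3 _ (sp_re 0)) (norm_nonneg _) ?_
    have := p2_nonneg κ 0
    positivity
  rw [← hc]
  have h2 : p2 κ 0 * M ^ 2 ≤ p2 κ t * (1 / (2 * M ^ 2)) := by
    rw [mul_one_div, le_div_iff₀ (by positivity)]
    calc p2 κ 0 * M ^ 2 * (2 * M ^ 2) = 2 * M ^ 4 * p2 κ 0 := by ring
      _ ≤ _ := hp2
  have h1 : Q ^ 4 * c * p2 κ 0 * M * (M * p ^ 3) ≤ Q ^ 4 * c * p2 κ t * (1 / (2 * M ^ 2)) * p ^ 3 := by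
    calc _ = Q ^ 4 * c * (p2 κ 0 * M ^ 2) * p ^ 3 := by ring
      _ ≤ Q ^ 4 * c * (p2 κ t * (1 / (2 * M ^ 2))) * p ^ 3 :=
        mul_le_mul_of_nonneg_right (mul_le_mul_of_nonneg_left h2 (by positivity)) (by positivity)
      _ = _ := by ring
  have h3 : Q ^ 4 * c * (((16 : ℝ) ^ N)⁻¹ * PK κ ^ 2) * (1 / (2 * M ^ 2)) * p ^ 3 ≤
      Q ^ 4 * c * p2 κ t * (1 / (2 * M ^ 2)) * p ^ 3 :=
    mul_le_mul_of_nonneg_right
      (mul_le_mul_of_nonneg_right (mul_le_mul_of_nonneg_left hp2a (by positivity)) (by positivity))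
      (by positivity)
  have h4 : Q ^ 4 * c * (((16 : ℝ) ^ N)⁻¹ * PK κ ^ 2) * (1 / (2 * M ^ 2)) * p ^ 3 =
      c * ((16 : ℝ) ^ N)⁻¹ / (2 * M ^ 2) * ((Q ^ 2 * PK κ) ^ 2 * p ^ 3) := by ring
  have h5 : Q ^ 4 * c * p2 κ t * (1 / M) * (1 / M * p ^ 3) =
      2 * (Q ^ 4 * c * p2 κ t * (1 / (2 * M ^ 2)) * p ^ 3) := by
    field_simp
  linarith

/-- first error term -/
theorem est1 {m0 A2 C Y k M J0 a0 p : ℝ} (hm0 : 0 ≤ m0) (hA2 : 0 < A2) (hC : 0 < C) (hM : 0 ≤ M)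
    (hp : 0 < p) (hJ : 0 ≤ J0) (ha0 : 0 < a0) (hexp : Real.exp (-Y + k) ≤ (A2 * (C * p ^ 2))⁻¹)
    (hA : 8 * M ^ 2 * J0 / a0 ≤ A2) :
    M * p ^ 5 * m0 * Real.exp (-Y + k) * (C ^ 3 * M) * J0 ≤ m0 * (a0 / 8 * (C ^ 2 * p ^ 3)) := by
  have h2 : M ^ 2 * J0 / A2 ≤ a0 / 8 := by
    rw [div_le_iff₀ hA2]
    have : M ^ 2 * J0 = a0 / 8 * (8 * M ^ 2 * J0 / a0) := by field_simp
    rw [this]
    exact mul_le_mul_of_nonneg_left hA (by positivity)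
  calc M * p ^ 5 * m0 * Real.exp (-Y + k) * (C ^ 3 * M) * J0 ≤
        M * p ^ 5 * m0 * (A2 * (C * p ^ 2))⁻¹ * (C ^ 3 * M) * J0 := by gcongr
    _ = m0 * ((C ^ 2 * p ^ 3) * (M ^ 2 * J0 / A2)) := by field_simp
    _ ≤ m0 * ((C ^ 2 * p ^ 3) * (a0 / 8)) := by gcongr
    _ = _ := by ring

/-- second error term -/
theorem est2 {A2 B0 V Y k a0 : ℝ} (hA2 : 0 < A2) (hB0 : 0 ≤ B0) (ha0 : 0 < a0)
    (hY : Real.exp (-Y) ≤ 1 / A2) (hkV : k * V ^ 2 = 36 * Y) (hkY : k ≤ Y) (hY0 : 0 ≤ Y)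
    (hA : 400 * B0 * Real.exp (V ^ 2) / a0 ≤ A2) :
    25 * (B0 * Real.exp (7 * Y)) * TT k V ≤ a0 / 8 := by
  have h1 : Real.exp (7 * Y) * TT k V ≤ 2 * Real.exp (V ^ 2) * (1 / A2) := by
    unfold TT
    calc Real.exp (7 * Y) * (2 * Real.exp (16 * k - (k - 1) * V ^ 2)) =
          2 * Real.exp (7 * Y + (16 * k - (k - 1) * V ^ 2)) := by rw [Real.exp_add]; ring
      _ ≤ 2 * Real.exp (V ^ 2 + -Y) := by
          refine mul_le_mul_of_nonneg_left (Real.exp_le_exp.2 ?_) (by norm_num)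
          have : (k - 1) * V ^ 2 = 36 * Y - V ^ 2 := by linear_combination hkV
          rw [this]
          linarith
      _ = 2 * Real.exp (V ^ 2) * Real.exp (-Y) := by rw [Real.exp_add]; ring
      _ ≤ _ := mul_le_mul_of_nonneg_left hY (by positivity)
  have h2 : 50 * B0 * Real.exp (V ^ 2) / A2 ≤ a0 / 8 := by
    rw [div_le_iff₀ hA2]
    have : 50 * B0 * Real.exp (V ^ 2) = a0 / 8 * (400 * B0 * Real.exp (V ^ 2) / a0) := by field_simp; ring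
    rw [this]
    exact mul_le_mul_of_nonneg_left hA (by positivity)
  calc 25 * (B0 * Real.exp (7 * Y)) * TT k V = 25 * B0 * (Real.exp (7 * Y) * TT k V) := by ring
    _ ≤ 25 * B0 * (2 * Real.exp (V ^ 2) * (1 / A2)) := mul_le_mul_of_nonneg_left h1 (by positivity)
    _ = 50 * B0 * Real.exp (V ^ 2) / A2 := by ring
    _ ≤ _ := h2

/-- third error term -/
theorem est3 {A2 M mc a0 : ℝ} (hA2 : 0 < A2) (ha0 : 0 < a0) (hA : 8 * M * mc / a0 ≤ A2) :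
    M * (mc / A2) ≤ a0 / 8 := by
  rw [mul_div_assoc', div_le_iff₀ hA2]
  have : M * mc = a0 / 8 * (8 * M * mc / a0) := by field_simp
  rw [this]
  exact mul_le_mul_of_nonneg_left hA (by positivity)

/-- weights beyond `T` -/
theorem wtail {J : Type} [Fintype J] {m ℓ : J → ℝ} (hm : ∀ j, 0 ≤ m j) {k c0 e1 Y A2 l : ℝ} (hk1 : 1 ≤ k)
    (hc0 : 4 ≤ c0) (hkc : k * c0 ^ 2 = Y) (hce : (c0 - 4) * e1 = 8) (hY0 : 0 ≤ Y)
    (hY : Real.exp (-Y) ≤ 1 / A2) (hl : (1 + e1) * Y < l) :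
    Real.exp (4 * l) * WW m ℓ k (Y - l) ≤ (∑ j, m j * Real.exp (c0 * ℓ j)) / A2 := by
  have hmc0 : 0 ≤ ∑ j, m j * Real.exp (c0 * ℓ j) :=
    Finset.sum_nonneg fun j _ => mul_nonneg (hm j) (Real.exp_pos _).le
  have h1 := WW_le (m := m) (ℓ := ℓ) hm hk1 (c := c0) (by linarith) (Y - l)
  have h2 : Real.exp (4 * l) * Real.exp (k * c0 ^ 2 + c0 * (Y - l)) ≤ Real.exp (-Y) := by
    rw [← Real.exp_add]
    refine Real.exp_le_exp.2 ?_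
    rw [hkc]
    have h4 : (c0 - 4) * ((1 + e1) * Y) ≤ (c0 - 4) * l := mul_le_mul_of_nonneg_left hl.le (by linarith)
    have h5 : (c0 - 4) * ((1 + e1) * Y) = (c0 + 4) * Y := by linear_combination Y * hce
    nlinarith
  calc _ ≤ Real.exp (4 * l) * ((∑ j, m j * Real.exp (c0 * ℓ j)) * Real.exp (k * c0 ^ 2 + c0 * (Y - l))) :=
        mul_le_mul_of_nonneg_left h1 (Real.exp_pos _).le
    _ = (∑ j, m j * Real.exp (c0 * ℓ j)) * (Real.exp (4 * l) * Real.exp (k * c0 ^ 2 + c0 * (Y - l))) := by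
        ring
    _ ≤ (∑ j, m j * Real.exp (c0 * ℓ j)) * Real.exp (-Y) := mul_le_mul_of_nonneg_left h2 hmc0
    _ ≤ (∑ j, m j * Real.exp (c0 * ℓ j)) * (1 / A2) := mul_le_mul_of_nonneg_left hY hmc0
    _ = _ := by ring

theorem wall {J : Type} [Fintype J] {m ℓ : J → ℝ} (hm : ∀ j, 0 ≤ m j) {k Y l : ℝ} (hk1 : 1 ≤ k) :
    Real.exp (4 * l) * WW m ℓ k (Y - l) ≤
      (∑ j, m j * Real.exp (4 * ℓ j)) * Real.exp (k * 4 ^ 2 + 4 * Y) := by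
  have h1 := WW_le (m := m) (ℓ := ℓ) hm hk1 (c := 4) (by norm_num) (Y - l)
  calc _ ≤ Real.exp (4 * l) * ((∑ j, m j * Real.exp (4 * ℓ j)) * Real.exp (k * 4 ^ 2 + 4 * (Y - l))) :=
        mul_le_mul_of_nonneg_left h1 (Real.exp_pos _).le
    _ = (∑ j, m j * Real.exp (4 * ℓ j)) * (Real.exp (4 * l) * Real.exp (k * 4 ^ 2 + 4 * (Y - l))) := by ring
    _ = _ := by
        rw [← Real.exp_add]
        congr 2
        ring

/-- choice of the scale -/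
theorem scale {e1 c0 η ε A2 C : ℝ} (he10 : 0 < e1) (he11 : e1 ≤ 1 / 3) (heε : 3 * e1 ≤ ε) (hc0 : 28 ≤ c0)
    (hη0 : 0 < η) (hηc : η * c0 ^ 2 = 1) (hη1 : η ≤ e1 / 4) (hA2 : 1 ≤ A2) (hA2e : Real.exp (c0 ^ 2) ≤ A2)
    (hC : 1 ≤ C) : ∃ Y : ℝ, 0 < Y ∧ 1 ≤ η * Y ∧ η * Y ≤ Y ∧ C ≤ Real.exp Y ∧
      Real.exp (-Y) ≤ 1 / A2 ∧ Real.exp (-Y + η * Y) ≤ (A2 * C)⁻¹ ∧
      Real.exp ((1 + e1) * Y) ≤ A2 ^ ((1 + e1) * (1 + e1)) * C ^ (1 + ε) := by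
  have hA20 : 0 < A2 := by linarith
  have hC0 : 0 < C := by linarith
  have hAC : 0 < A2 * C := by positivity
  obtain ⟨L0, hL0⟩ : ∃ L0 : ℝ, L0 = Real.log (A2 * C) := ⟨_, rfl⟩
  have hL0c : c0 ^ 2 ≤ L0 := by
    rw [hL0, Real.le_log_iff_exp_le hAC]
    nlinarith
  have hc01 : 0 < c0 ^ 2 := by positivity
  have hL00 : 0 < L0 := by linarith
  have hexpL : Real.exp L0 = A2 * C := by rw [hL0]; exact Real.exp_log hAC
  have hYL : L0 ≤ (1 + e1) * L0 := by nlinarith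
  have hexpY : A2 * C ≤ Real.exp ((1 + e1) * L0) := by rw [← hexpL]; exact Real.exp_le_exp.2 hYL
  have hY0 : 0 < (1 + e1) * L0 := by linarith
  refine ⟨(1 + e1) * L0, hY0, ?_, ?_, ?_, ?_, ?_, ?_⟩
  · have : η * c0 ^ 2 ≤ η * ((1 + e1) * L0) := mul_le_mul_of_nonneg_left (hL0c.trans hYL) hη0.le
    linarith
  · have : η ≤ 1 := by linarith
    nlinarith
  · refine le_trans ?_ hexpY
    nlinarith
  · rw [Real.exp_neg, ← one_div]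
    refine one_div_le_one_div_of_le hA20 ?_
    nlinarith
  · rw [← hexpL, ← Real.exp_neg]
    refine Real.exp_le_exp.2 ?_
    have h2 : η * ((1 + e1) * L0) ≤ e1 / 4 * ((1 + e1) * L0) := mul_le_mul_of_nonneg_right hη1 hY0.le
    have h3 : (1 + e1) * L0 ≤ 4 / 3 * L0 := mul_le_mul_of_nonneg_right (by linarith) hL00.le
    have h4 : e1 / 4 * ((1 + e1) * L0) ≤ e1 / 4 * (4 / 3 * L0) := mul_le_mul_of_nonneg_left h3 (by positivity)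
    have h5 : 0 ≤ e1 * L0 := by positivity
    nlinarith
  · have h3 : Real.exp ((1 + e1) * ((1 + e1) * L0)) = (A2 * C) ^ ((1 + e1) * (1 + e1)) := by
      rw [Real.rpow_def_of_pos hAC, hL0]
      congr 1
      ring
    rw [h3, Real.mul_rpow hA20.le hC0.le]
    refine mul_le_mul_of_nonneg_left (Real.rpow_le_rpow_of_exponent_le hC ?_) (by positivity)
    nlinarith

end Pool.Agent.TH949.UL
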