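import Pool.Agent.TH949.UL.MainT

/-! The modified kernel for a fixed height. -/

set_option autoImplicit false

namespace Pool.Agent.TH949.UL

open Complex MeasureTheory Set Filter Topology
open Pool.Agent.TH949.LT

/-- the rectangle -/
def KR (H : ℝ) : Set ℂ := Icc (-5 / 2 : ℝ) (5 / 2) ×ℂ Icc (-H) H

theorem KR_compact (H : ℝ) : IsCompact (KR H) := isCompact_Icc.reProdIm isCompact_Icc

theorem mem_KR {H : ℝ} {z : ℂ} : z ∈ KR H ↔ (-5 / 2 ≤ z.re ∧ z.re ≤ 5 / 2) ∧ -H ≤ z.im ∧ z.im ≤ H := by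
  unfold KR
  rw [Complex.mem_reProdIm]
  rfl

theorem lower_on {D : ℂ → ℂ} (hD : Continuous D) {S : Set ℂ} (hS : IsCompact S) (hne : ∀ z ∈ S, D z ≠ 0) :
    ∃ δ : ℝ, 0 < δ ∧ ∀ z ∈ S, δ ≤ ‖D z‖ :=
  hS.exists_forall_le' (f := fun z => ‖D z‖) hD.norm.continuousOn (a := 0)
    fun z hz => norm_pos_iff.2 (hne z hz)

/-- zeros in a rectangle form a finite set -/
theorem zeros_finite {D : ℂ → ℂ} (hD : Differentiable ℂ D) (hne : ∃ z, D z ≠ 0) (H : ℝ) :
    {z : ℂ | z ∈ KR H ∧ D z = 0}.Finite := by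
  obtain ⟨zs, D1, _, _, h3, h4⟩ := extract hD (KR_compact H) hne
  refine (List.finite_toSet zs).subset fun z hz => ?_
  have h5 := h3 z
  rw [hz.2] at h5
  rcases mul_eq_zero.1 h5.symm with h6 | h6
  · rw [List.prod_eq_zero_iff, List.mem_map] at h6
    obtain ⟨y, hy, hy0⟩ := h6
    rw [sub_eq_zero] at hy0
    change z ∈ zs
    rw [hy0]
    exact hy
  · exact absurd h6 (h4 z hz.1)

theorem exists_height {D : ℂ → ℂ} (hD : Differentiable ℂ D) (hne : ∃ z, D z ≠ 0) (H0 : ℝ) :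
    ∃ H : ℝ, H0 ≤ H ∧ H ≤ H0 + 1 ∧
      ∀ x : ℝ, -5 / 2 ≤ x → x ≤ 5 / 2 → D (x + H * I) ≠ 0 ∧ D (x + (-H : ℝ) * I) ≠ 0 := by
  have hf := (zeros_finite hD hne (|H0| + 1)).image fun z => |z.im|
  have hinf : (Icc H0 (H0 + 1)).Infinite := Icc_infinite (by linarith)
  obtain ⟨H, hH, hH2⟩ := hinf.exists_notMem_finite (hf.union (hf.image fun x => -x))
  refine ⟨H, hH.1, hH.2, fun x hx1 hx2 => ?_⟩
  have habs : |H| ≤ |H0| + 1 := by
    rw [abs_le]
    have := neg_abs_le H0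
    have := le_abs_self H0
    constructor <;> linarith [hH.1, hH.2]
  have hb := abs_le.1 habs
  constructor
  · intro h0
    apply hH2
    have hmem : (x : ℂ) + H * I ∈ {z : ℂ | z ∈ KR (|H0| + 1) ∧ D z = 0} := by
      refine ⟨mem_KR.2 ?_, h0⟩
      simp only [Complex.add_re, Complex.ofReal_re, Complex.mul_re, Complex.I_re, mul_zero,
        Complex.ofReal_im, Complex.I_im, mul_one, sub_self, add_zero, Complex.add_im, Complex.mul_im,
        zero_add]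
      exact ⟨⟨hx1, hx2⟩, hb.1, hb.2⟩
    rcases le_or_gt 0 H with h | h
    · left
      refine ⟨_, hmem, ?_⟩
      simp [abs_of_nonneg h]
    · right
      refine ⟨_, ⟨_, hmem, rfl⟩, ?_⟩
      simp [abs_of_neg h]
  · intro h0
    apply hH2
    have hmem : (x : ℂ) + (-H : ℝ) * I ∈ {z : ℂ | z ∈ KR (|H0| + 1) ∧ D z = 0} := by
      refine ⟨mem_KR.2 ?_, h0⟩
      simp only [Complex.add_re, Complex.ofReal_re, Complex.mul_re, Complex.I_re, mul_zero,
        Complex.ofReal_im, Complex.I_im, mul_one, sub_self, add_zero, Complex.add_im, Complex.mul_im,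
        zero_add]
      exact ⟨⟨hx1, hx2⟩, by linarith, by linarith⟩
    rcases le_or_gt 0 H with h | h
    · left
      refine ⟨_, hmem, ?_⟩
      simp [abs_of_nonneg h]
    · right
      refine ⟨_, ⟨_, hmem, rfl⟩, ?_⟩
      simp [abs_of_neg h]

/-- the base point -/
noncomputable def sp (τ : ℝ) : ℂ := ((-3 / 2 : ℝ) : ℂ) + τ * I

theorem sp_re (τ : ℝ) : (sp τ).re = -3 / 2 := by simp [sp]
theorem sp_im (τ : ℝ) : (sp τ).im = τ := by simp [sp]

theorem prod_diff (zs : List ℂ) (a : ℂ) :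
    Differentiable ℂ fun w : ℂ => (zs.map fun z => (a + w) - z).prod := by
  induction zs with
  | nil => simp
  | cons z zs ih =>
    simp only [List.map_cons, List.prod_cons]
    exact Differentiable.mul (by fun_prop) ih

theorem setup {D : ℂ → ℂ} {CD : ℝ} (hD : Den D CD) {t : ℝ} (htD : ∀ x : ℝ, D (x + t * I) ≠ 0)
    {H0 : ℝ} :
    ∃ (H : ℝ) (zs : List ℂ) (D1 : ℂ → ℂ) (J : Type) (_ : Fintype J) (m ℓ : J → ℝ) (Mf : ℂ → ℂ)
      (δ : ℝ), H0 ≤ H ∧ 0 < δ ∧ NEP J m ℓ Mf ∧ Differentiable ℂ D1 ∧ (∀ z ∈ KR H, D1 z ≠ 0) ∧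
      (∀ w, D w = (zs.map fun z => w - z).prod * D1 w) ∧
      (∀ τ : ℝ, τ = 0 ∨ τ = t → ∃ E : ℂ → ℂ, Differentiable ℂ E ∧
        ∀ w, Mf w = (zs.map fun z => (sp τ + w) - z).prod * E w) ∧
      (∀ x : ℝ, -5 / 2 ≤ x → x ≤ 5 / 2 → δ ≤ ‖D (x + H * I)‖ ∧ δ ≤ ‖D (x + (-H : ℝ) * I)‖) ∧
      (∀ τ : ℝ, τ = 0 ∨ τ = t → δ ≤ ‖D (sp τ)‖) := by
  have hne : ∃ z, D z ≠ 0 := ⟨((0 : ℝ) : ℂ), hD.real_ne 0⟩
  obtain ⟨H, hH1, -, hH3⟩ := exists_height hD.diff hne H0
  obtain ⟨zs, D1, h1, h2, h3, h4⟩ := extract hD.diff (KR_compact H) hne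
  have him : ∀ z ∈ zs, z.im ≠ 0 := by
    intro z hz h0
    apply hD.real_ne z.re
    have : ((z.re : ℝ) : ℂ) = z := by
      apply Complex.ext <;> simp [h0]
    rw [this]
    exact (h2 z hz).2
  have him2 : ∀ z ∈ zs, z.im ≠ t := by
    intro z hz h0
    apply htD z.re
    have : ((z.re : ℝ) : ℂ) + t * I = z := by
      apply Complex.ext <;> simp [h0]
    rw [this]
    exact (h2 z hz).2
  obtain ⟨J, _, m, ℓ, Mf, E, k1, k2, k3⟩ := kill ((zs.map fun z => z - sp 0) ++ (zs.map fun z => z - sp t))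
    (by
      intro z hz
      rcases List.mem_append.1 hz with h | h
      · obtain ⟨y, hy, rfl⟩ := List.mem_map.1 h
        rw [Complex.sub_im, sp_im, sub_zero]
        exact him y hy
      · obtain ⟨y, hy, rfl⟩ := List.mem_map.1 h
        rw [Complex.sub_im, sp_im, sub_ne_zero]
        exact him2 y hy)
  have hprod : ∀ (τ : ℝ) (w : ℂ), ((zs.map fun z => z - sp τ).map fun z => w - z).prod =
      (zs.map fun z => (sp τ + w) - z).prod := by
    intro τ w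
    rw [List.map_map]
    congr 1
    refine List.map_congr_left fun z _ => ?_
    simp only [Function.comp_apply]
    ring
  obtain ⟨δ1, hδ1, hδ1'⟩ := lower_on hD.diff.continuous
    (S := (fun x : ℝ => (x : ℂ) + H * I) '' Icc (-5 / 2) (5 / 2))
    (isCompact_Icc.image (by fun_prop)) (by
      rintro _ ⟨x, hx, rfl⟩
      exact (hH3 x hx.1 hx.2).1)
  obtain ⟨δ2, hδ2, hδ2'⟩ := lower_on hD.diff.continuous
    (S := (fun x : ℝ => (x : ℂ) + (-H : ℝ) * I) '' Icc (-5 / 2) (5 / 2))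
    (isCompact_Icc.image (by fun_prop)) (by
      rintro _ ⟨x, hx, rfl⟩
      exact (hH3 x hx.1 hx.2).2)
  have hδ3 : ∀ τ, 0 < ‖D (sp τ)‖ := fun τ => norm_pos_iff.2 (D_left_ne hD (sp_re τ).le)
  refine ⟨H, zs, D1, J, inferInstance, m, ℓ, Mf, min (min δ1 δ2) (min ‖D (sp 0)‖ ‖D (sp t)‖), hH1,
    lt_min (lt_min hδ1 hδ2) (lt_min (hδ3 _) (hδ3 _)), k1, h1, h4, h3, ?_, fun x hx1 hx2 => ⟨?_, ?_⟩, ?_⟩
  · rintro τ (rfl | rfl)
    · refine ⟨fun w => (zs.map fun z => (sp t + w) - z).prod * E w, (prod_diff zs (sp t)).mul k2,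
        fun w => ?_⟩
      rw [k3, List.map_append, List.prod_append, hprod, hprod]
      ring
    · refine ⟨fun w => (zs.map fun z => (sp 0 + w) - z).prod * E w, (prod_diff zs (sp 0)).mul k2,
        fun w => ?_⟩
      rw [k3, List.map_append, List.prod_append, hprod, hprod]
      ring
  · exact ((min_le_left _ _).trans (min_le_left _ _)).trans (hδ1' _ ⟨x, ⟨hx1, hx2⟩, rfl⟩)
  · exact ((min_le_left _ _).trans (min_le_right _ _)).trans (hδ2' _ ⟨x, ⟨hx1, hx2⟩, rfl⟩)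
  · rintro τ (rfl | rfl)
    · exact (min_le_right _ _).trans (min_le_left _ _)
    · exact (min_le_right _ _).trans (min_le_right _ _)

end Pool.Agent.TH949.UL
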