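import Pool.Agent.TH949.UL.Kern
import Pool.Agent.TH949.UL.Mult

/-! Smoothed sums with the modified kernels. -/

set_option autoImplicit false

namespace Pool.Agent.TH949.UL

open Complex MeasureTheory Set Filter Topology
open Pool.Agent.TH949.LT (term_norm)

variable {ι : Type*} {c Λ : ι → ℝ}

/-- the weight -/
noncomputable def WW {J : Type} [Fintype J] (m ℓ : J → ℝ) (κ L : ℝ) : ℝ := ∑ j, m j * VK κ (L + ℓ j)

theorem WW_nonneg {J : Type} [Fintype J] {m ℓ : J → ℝ} (hm : ∀ j, 0 ≤ m j) (κ L : ℝ) : 0 ≤ WW m ℓ κ L :=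
  Finset.sum_nonneg fun j _ => mul_nonneg (hm j) (VK_nonneg _ _)

theorem WW_le {J : Type} [Fintype J] {m ℓ : J → ℝ} (hm : ∀ j, 0 ≤ m j) {κ c : ℝ} (hκ : 1 ≤ κ) (hc : 1 ≤ c)
    (L : ℝ) : WW m ℓ κ L ≤ (∑ j, m j * Real.exp (c * ℓ j)) * Real.exp (κ * c ^ 2 + c * L) := by
  unfold WW
  rw [Finset.sum_mul]
  refine Finset.sum_le_sum fun j _ => ?_
  rw [mul_assoc, ← Real.exp_add]
  refine mul_le_mul_of_nonneg_left ((VK_le hκ hc _).trans (le_of_eq ?_)) (hm j)
  congr 1
  ring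

theorem expand1 [Countable ι] {F : ℂ → ℂ} {κ : ℝ} (hκ : 0 < κ)
    (hs : Summable fun l => |c l| * Real.exp (-(5 / 2 * Λ l)))
    (hF : ∀ s : ℂ, s.re = 5 / 2 → HasSum (fun l => (c l : ℂ) * cexp (-(s * Λ l))) (F s)) (y t : ℝ) :
    (Integrable fun v : ℝ => F (((-3 / 2 : ℝ) : ℂ) + t * I + ((4 : ℝ) + v * I)) *
      cexp (((4 : ℝ) + v * I) * y) * EK κ 4 v) ∧
    HasSum (fun l => 2 * Real.pi * ((c l : ℂ) * cexp (-((((-3 / 2 : ℝ) : ℂ) + t * I) * Λ l)) *
        VK κ (y - Λ l)))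
      (∫ v : ℝ, F (((-3 / 2 : ℝ) : ℂ) + t * I + ((4 : ℝ) + v * I)) * cexp (((4 : ℝ) + v * I) * y) *
        EK κ 4 v) := by
  set s0 : ℂ := ((-3 / 2 : ℝ) : ℂ) + t * I with hs0
  set G : ι → ℝ → ℂ := fun l v => ((c l : ℂ) * cexp (-((s0 + ((4 : ℝ) + v * I)) * Λ l))) *
    cexp (((4 : ℝ) + v * I) * y) * EK κ 4 v with hG
  have hre : ∀ v : ℝ, (s0 + ((4 : ℝ) + v * I)).re = 5 / 2 := by
    intro v
    simp [hs0]
    norm_num
  have hEc : Continuous (EK κ 4) := EK_cont (by norm_num)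
  have hEi : Integrable (EK κ 4) := EK_int hκ (by norm_num)
  have hGn : ∀ l v, ‖G l v‖ = |c l| * Real.exp (-(5 / 2 * Λ l)) * (Real.exp (4 * y) * ‖EK κ 4 v‖) := by
    intro l v
    rw [hG]
    simp only
    rw [norm_mul, norm_mul, term_norm, hre, Complex.norm_exp]
    have : ((((4 : ℝ) : ℂ) + v * I) * y).re = 4 * y := by simp
    rw [this]
    ring
  have hGc : ∀ l, Continuous (G l) := by
    intro l
    rw [hG]
    exact (Continuous.mul (by fun_prop) (by fun_prop)).mul hEc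
  have hGi : ∀ l, Integrable (G l) := by
    intro l
    have h1 : Integrable fun v : ℝ =>
        |c l| * Real.exp (-(5 / 2 * Λ l)) * (Real.exp (4 * y) * ‖EK κ 4 v‖) :=
      (hEi.norm.const_mul _).const_mul _
    exact h1.mono' (hGc l).aestronglyMeasurable (Eventually.of_forall fun v => (hGn l v).le)
  have h2 : Summable fun l => ∫ v : ℝ, ‖G l v‖ := by
    have : ∀ l, ∫ v : ℝ, ‖G l v‖ =
        |c l| * Real.exp (-(5 / 2 * Λ l)) * ∫ v : ℝ, Real.exp (4 * y) * ‖EK κ 4 v‖ := by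
      intro l
      rw [← integral_const_mul]
      congr 1
      ext v
      exact hGn l v
    simp_rw [this]
    exact hs.mul_right _
  have h3 := hasSum_integral_of_summable_integral_norm hGi h2
  have h4s : ∀ v : ℝ, HasSum (fun l => G l v)
      (F (s0 + ((4 : ℝ) + v * I)) * cexp (((4 : ℝ) + v * I) * y) * EK κ 4 v) := by
    intro v
    exact ((hF (s0 + ((4 : ℝ) + v * I)) (hre v)).mul_right (cexp (((4 : ℝ) + v * I) * y))).mul_right
      (EK κ 4 v)
  have h4 : ∀ v : ℝ, ∑' l, G l v = F (s0 + ((4 : ℝ) + v * I)) * cexp (((4 : ℝ) + v * I) * y) * EK κ 4 v :=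
    fun v => (h4s v).tsum_eq
  refine ⟨?_, ?_⟩
  · have hmeas : AEStronglyMeasurable (fun v : ℝ => F (s0 + ((4 : ℝ) + v * I)) *
        cexp (((4 : ℝ) + v * I) * y) * EK κ 4 v) volume := by
      have h5 : Continuous fun v : ℝ => ∑' l, G l v := by
        have hb : ∀ l v, ‖G l v‖ ≤ |c l| * Real.exp (-(5 / 2 * Λ l)) *
            (Real.exp (4 * y) * Real.exp (κ * 16)) := by
          intro l v
          rw [hGn]
          refine mul_le_mul_of_nonneg_left (mul_le_mul_of_nonneg_left ?_ (Real.exp_pos _).le)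
            (by positivity)
          refine (norm_EK_le (by norm_num) v).trans (Real.exp_le_exp.2 ?_)
          nlinarith [sq_nonneg v]
        exact continuous_tsum hGc (hs.mul_right _) hb
      simp_rw [h4] at h5
      exact h5.aestronglyMeasurable
    refine Integrable.mono' (g := fun v => (∑' l, |c l| * Real.exp (-(5 / 2 * Λ l))) *
      (Real.exp (4 * y) * ‖EK κ 4 v‖)) ((hEi.norm.const_mul _).const_mul _) hmeas
      (Eventually.of_forall fun v => ?_)
    rw [← h4 v]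
    refine tsum_of_norm_bounded (hs.hasSum.mul_right _) fun l => (hGn l v).le
  simp_rw [h4] at h3
  refine h3.congr_fun fun l => ?_
  have h6 := kernelK (κ := κ) (c := 4) hκ (by norm_num) (y - Λ l)
  have h7 : ∀ v : ℝ, G l v = (c l : ℂ) * cexp (-(s0 * Λ l)) *
      (EK κ 4 v * cexp (((4 : ℝ) + v * I) * ((y - Λ l : ℝ) : ℂ))) := by
    intro v
    rw [hG]
    simp only
    have e : cexp (-((s0 + ((4 : ℝ) + v * I)) * Λ l)) * cexp (((4 : ℝ) + v * I) * y) =
        cexp (-(s0 * Λ l)) * cexp (((4 : ℝ) + v * I) * ((y - Λ l : ℝ) : ℂ)) := by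
      rw [← Complex.exp_add, ← Complex.exp_add]
      congr 1
      push_cast
      ring
    linear_combination (c l : ℂ) * EK κ 4 v * e
  simp_rw [h7]
  rw [integral_const_mul, h6]
  ring

theorem expandM [Countable ι] {F : ℂ → ℂ} {κ : ℝ} (hκ : 0 < κ)
    (hs : Summable fun l => |c l| * Real.exp (-(5 / 2 * Λ l)))
    (hF : ∀ s : ℂ, s.re = 5 / 2 → HasSum (fun l => (c l : ℂ) * cexp (-(s * Λ l))) (F s)) (y t : ℝ)
    {J : Type} [Fintype J] {m ℓ : J → ℝ} {M : ℂ → ℂ} (hM : NEP J m ℓ M) :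
    HasSum (fun l => 2 * Real.pi * ((c l : ℂ) * cexp (-((((-3 / 2 : ℝ) : ℂ) + t * I) * Λ l)) *
        WW m ℓ κ (y - Λ l)))
      (∫ v : ℝ, (F (((-3 / 2 : ℝ) : ℂ) + t * I + ((4 : ℝ) + v * I)) * M ((4 : ℝ) + v * I) *
        cexp (((4 : ℝ) + v * I) * y)) * EK κ 4 v) := by
  have h1 := fun j => expand1 hκ hs hF (y + ℓ j) t
  have h2 : HasSum (fun l => ∑ j, (m j : ℂ) * (2 * Real.pi * ((c l : ℂ) *
      cexp (-((((-3 / 2 : ℝ) : ℂ) + t * I) * Λ l)) * VK κ (y + ℓ j - Λ l))))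
      (∑ j, (m j : ℂ) * ∫ v : ℝ, F (((-3 / 2 : ℝ) : ℂ) + t * I + ((4 : ℝ) + v * I)) *
        cexp (((4 : ℝ) + v * I) * ((y + ℓ j : ℝ) : ℂ)) * EK κ 4 v) :=
    hasSum_sum fun j _ => (h1 j).2.mul_left _
  have h3 : (∑ j, (m j : ℂ) * ∫ v : ℝ, F (((-3 / 2 : ℝ) : ℂ) + t * I + ((4 : ℝ) + v * I)) *
        cexp (((4 : ℝ) + v * I) * ((y + ℓ j : ℝ) : ℂ)) * EK κ 4 v) =
      ∫ v : ℝ, (F (((-3 / 2 : ℝ) : ℂ) + t * I + ((4 : ℝ) + v * I)) * M ((4 : ℝ) + v * I) *
        cexp (((4 : ℝ) + v * I) * y)) * EK κ 4 v := by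
    simp_rw [← integral_const_mul]
    rw [← integral_finset_sum _ fun j _ => (h1 j).1.const_mul _]
    congr 1
    ext v
    rw [hM.eq, Finset.mul_sum, Finset.sum_mul, Finset.sum_mul]
    refine Finset.sum_congr rfl fun j _ => ?_
    have : cexp (((4 : ℝ) + v * I) * ((y + ℓ j : ℝ) : ℂ)) =
        cexp (((4 : ℝ) + v * I) * y) * cexp (ℓ j * ((4 : ℝ) + v * I)) := by
      rw [← Complex.exp_add]
      congr 1
      push_cast
      ring
    rw [this]
    ring
  rw [h3] at h2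
  refine h2.congr_fun fun l => ?_
  unfold WW
  push_cast
  rw [Finset.mul_sum, Finset.mul_sum]
  refine Finset.sum_congr rfl fun j _ => ?_
  have : y + ℓ j - Λ l = y - Λ l + ℓ j := by ring
  rw [this]
  ring

/-- comparison of smoothed sums at heights `t` and `0` -/
theorem compareW {M : ℝ}
    (hs : Summable fun l => |c l| * Real.exp (-(5 / 2 * Λ l)))
    (hM : ∑' l, |c l| * Real.exp (-(5 / 2 * Λ l)) ≤ M) {T b0 b : ℝ} {w : ι → ℝ}
    (hw : ∀ l, 0 ≤ w l) (hw0 : ∀ l, Real.exp (4 * Λ l) * w l ≤ b0) (hb : 0 ≤ b)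
    (hwb : ∀ l, T < Λ l → Real.exp (4 * Λ l) * w l ≤ b)
    (hpos : ∀ l, Λ l ≤ T → 0 ≤ c l) {t : ℝ} {St S0 : ℂ}
    (ht : HasSum (fun l => (c l : ℂ) * cexp (-((((-3 / 2 : ℝ) : ℂ) + t * I) * Λ l)) * w l) St)
    (h0 : HasSum (fun l => (c l : ℂ) * cexp (-((((-3 / 2 : ℝ) : ℂ) + (0 : ℝ) * I) * Λ l)) * w l) S0) :
    ‖St‖ ≤ ‖S0‖ + 2 * (M * b) := by
  set u : ι → ℝ := fun l => |c l| * Real.exp (3 / 2 * Λ l) * w l with hu
  set u' : ι → ℝ := fun l => c l * Real.exp (3 / 2 * Λ l) * w l with hu'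
  have hsplit : ∀ l, u l = |c l| * Real.exp (-(5 / 2 * Λ l)) * (Real.exp (4 * Λ l) * w l) := by
    intro l
    rw [hu]
    simp only
    have : Real.exp (3 / 2 * Λ l) = Real.exp (-(5 / 2 * Λ l)) * Real.exp (4 * Λ l) := by
      rw [← Real.exp_add]
      congr 1
      ring
    rw [this]
    ring
  have hun : ∀ l, 0 ≤ u l := fun l => by
    have := hw l
    rw [hu]
    positivity
  have husum : Summable u := by
    refine Summable.of_nonneg_of_le hun (fun l => ?_) (hs.mul_right b0)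
    rw [hsplit]
    exact mul_le_mul_of_nonneg_left (hw0 l) (by positivity)
  have hn : ∀ (x : ℝ) (l : ι), ‖(c l : ℂ) * cexp (-((((-3 / 2 : ℝ) : ℂ) + x * I) * Λ l)) * w l‖ = u l := by
    intro x l
    rw [norm_mul, term_norm, Complex.norm_real, Real.norm_of_nonneg (hw l)]
    have : -((((-3 / 2 : ℝ) : ℂ) + x * I).re * Λ l) = 3 / 2 * Λ l := by
      simp
      ring
    rw [this]
  have h1 : ‖St‖ ≤ ∑' l, u l := by
    rw [← ht.tsum_eq]
    exact tsum_of_norm_bounded husum.hasSum fun l => (hn t l).le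
  have hu's : Summable u' := by
    refine Summable.of_norm_bounded husum fun l => ?_
    rw [hu', hu]
    simp only
    rw [norm_mul, norm_mul, Real.norm_eq_abs, Real.norm_of_nonneg (Real.exp_pos _).le,
      Real.norm_of_nonneg (hw _)]
  have h2 : S0 = ((∑' l, u' l : ℝ) : ℂ) := by
    rw [Complex.ofReal_tsum, ← h0.tsum_eq]
    refine tsum_congr fun l => ?_
    rw [hu']
    simp only
    push_cast
    congr 3
    ring
  have h3 : ∑' l, u l - ∑' l, u' l ≤ 2 * (M * b) := by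
    rw [← husum.tsum_sub hu's]
    have h4 : ∀ l, u l - u' l ≤ 2 * (|c l| * Real.exp (-(5 / 2 * Λ l)) * b) := by
      intro l
      rcases le_or_gt (Λ l) T with hl | hl
      · have h5 : u l - u' l = 0 := by
          rw [hu, hu']
          simp only
          rw [abs_of_nonneg (hpos l hl), sub_self]
        rw [h5]
        positivity
      · have h5 : u l - u' l ≤ 2 * u l := by
          have h6 : -u' l ≤ u l := by
            rw [hu, hu']
            simp only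
            have h7 : 0 ≤ Real.exp (3 / 2 * Λ l) * w l := mul_nonneg (Real.exp_pos _).le (hw _)
            have h8 := neg_abs_le (c l)
            nlinarith
          linarith
        refine h5.trans (mul_le_mul_of_nonneg_left ?_ (by norm_num))
        rw [hsplit]
        exact mul_le_mul_of_nonneg_left (hwb l hl) (by positivity)
    have h9 : Summable fun l => 2 * (|c l| * Real.exp (-(5 / 2 * Λ l)) * b) :=
      (hs.mul_right b).mul_left 2
    calc _ ≤ ∑' l, 2 * (|c l| * Real.exp (-(5 / 2 * Λ l)) * b) :=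
          (husum.sub hu's).tsum_le_tsum h4 h9
      _ = 2 * ((∑' l, |c l| * Real.exp (-(5 / 2 * Λ l))) * b) := by
          rw [tsum_mul_left, tsum_mul_right]
      _ ≤ _ := by
          refine mul_le_mul_of_nonneg_left (mul_le_mul_of_nonneg_right hM hb) (by norm_num)
  have h5 : ∑' l, u' l ≤ ‖S0‖ := by
    rw [h2, Complex.norm_real, Real.norm_eq_abs]
    exact le_abs_self _
  linarith

end Pool.Agent.TH949.UL
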